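import Mathlib

/-!
# A non-singular vector close to the subgroups `y = M_k x` of the torus

`Q_k = 2^(3^k)`, `α = ∑ 1/Q_k`, `δ_k = Q_k α - p_k`, `β = ∑ δ_k`, `M_k = Q_0 + ⋯ + Q_k`.
-/

namespace Pool.Agent.X124.BadTorus

open Filter

/-- `Q_k = 2^(3^k)` -/
def Q (k : ℕ) : ℕ := 2 ^ (3 ^ k)

lemma Q_pos (k : ℕ) : 0 < Q k := by unfold Q; positivity

lemma Q_posR (k : ℕ) : (0 : ℝ) < Q k := by exact_mod_cast Q_pos k

lemma Q_succ (k : ℕ) : Q (k + 1) = Q k ^ 3 := by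
  unfold Q; rw [← pow_mul, pow_succ]

lemma Q_ge (k : ℕ) : 2 ^ (k + 1) ≤ Q k := by
  unfold Q
  apply Nat.pow_le_pow_right (by norm_num)
  exact Nat.lt_pow_self (by norm_num)

lemma Q_ge_two (k : ℕ) : 2 ≤ Q k := by
  calc 2 = 2 ^ 1 := by norm_num
    _ ≤ 2 ^ (k + 1) := Nat.pow_le_pow_right (by norm_num) (by omega)
    _ ≤ Q k := Q_ge k

lemma Q_ge_twoR (k : ℕ) : (2 : ℝ) ≤ Q k := by exact_mod_cast Q_ge_two k

lemma Q_succR (k : ℕ) : (Q (k + 1) : ℝ) = (Q k : ℝ) ^ 3 := by exact_mod_cast Q_succ k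

lemma Q_four (k : ℕ) : 4 * Q k ≤ Q (k + 1) := by
  rw [Q_succ]
  have := Q_ge_two k
  nlinarith [Nat.pow_le_pow_left this 2]

lemma Q_add (k j : ℕ) : 4 ^ j * Q k ≤ Q (k + j) := by
  induction j with
  | zero => simp
  | succ j ih =>
    calc 4 ^ (j + 1) * Q k = 4 * (4 ^ j * Q k) := by ring
      _ ≤ 4 * Q (k + j) := Nat.mul_le_mul_left _ ih
      _ ≤ Q (k + j + 1) := Q_four _
      _ = Q (k + (j + 1)) := rfl

lemma Q_addR (k j : ℕ) : (4 : ℝ) ^ j * Q k ≤ Q (k + j) := by exact_mod_cast Q_add k j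

lemma Q_dvd {i j : ℕ} (h : i ≤ j) : Q i ∣ Q j := by
  unfold Q
  exact pow_dvd_pow _ (Nat.pow_le_pow_right (by norm_num) h)

/-! ### Weighted sums `∑ s_j / Q_j` -/

lemma term_bound {s : ℕ → ℝ} (_h0 : ∀ j, 0 ≤ s j) (h1 : ∀ j, s j ≤ 1) (k j : ℕ) :
    (Q k : ℝ) * (s (j + (k + 1)) / Q (j + (k + 1))) ≤ (1 / 4) ^ j * (1 / (Q k : ℝ) ^ 2) := by
  have hq := Q_posR k
  have hq2 := Q_posR (j + (k + 1))
  have h2 : (4 : ℝ) ^ j * (Q k : ℝ) ^ 3 ≤ Q (j + (k + 1)) := by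
    rw [← Q_succR, show j + (k + 1) = (k + 1) + j by ring]
    exact Q_addR (k + 1) j
  calc (Q k : ℝ) * (s (j + (k + 1)) / Q (j + (k + 1)))
      ≤ (Q k : ℝ) * (1 / Q (j + (k + 1))) := by
        apply mul_le_mul_of_nonneg_left _ hq.le
        exact div_le_div_of_nonneg_right (h1 _) hq2.le
    _ ≤ (Q k : ℝ) * (1 / ((4 : ℝ) ^ j * (Q k : ℝ) ^ 3)) := by
        apply mul_le_mul_of_nonneg_left _ hq.le
        exact one_div_le_one_div_of_le (by positivity) h2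
    _ = (1 / 4) ^ j * (1 / (Q k : ℝ) ^ 2) := by
        rw [div_pow, one_pow]; field_simp

/-- `tail s k = Q_k ∑_{j > k} s_j / Q_j` -/
noncomputable def tail (s : ℕ → ℝ) (k : ℕ) : ℝ :=
  ∑' j, (Q k : ℝ) * (s (j + (k + 1)) / Q (j + (k + 1)))

lemma summable_geo : Summable (fun j : ℕ => ((1 : ℝ) / 4) ^ j) :=
  summable_geometric_of_lt_one (by norm_num) (by norm_num)

lemma tsum_geo : ∑' j : ℕ, ((1 : ℝ) / 4) ^ j = 4 / 3 := by
  rw [tsum_geometric_of_lt_one (by norm_num) (by norm_num)]; norm_num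

lemma tail_summable {s : ℕ → ℝ} (h0 : ∀ j, 0 ≤ s j) (h1 : ∀ j, s j ≤ 1) (k : ℕ) :
    Summable (fun j => (Q k : ℝ) * (s (j + (k + 1)) / Q (j + (k + 1)))) := by
  apply Summable.of_nonneg_of_le (fun j => ?_) (fun j => term_bound h0 h1 k j)
    (summable_geo.mul_right _)
  have := h0 (j + (k + 1))
  positivity

lemma tail_nonneg {s : ℕ → ℝ} (h0 : ∀ j, 0 ≤ s j) (k : ℕ) : 0 ≤ tail s k :=
  tsum_nonneg fun j => by
    have := h0 (j + (k + 1))
    positivity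

lemma tail_le {s : ℕ → ℝ} (h0 : ∀ j, 0 ≤ s j) (h1 : ∀ j, s j ≤ 1) (k : ℕ) :
    tail s k ≤ 2 / (Q k : ℝ) ^ 2 := by
  have h := (tail_summable h0 h1 k).tsum_le_tsum (fun j => term_bound h0 h1 k j)
    (summable_geo.mul_right _)
  rw [tsum_mul_right, tsum_geo] at h
  refine h.trans ?_
  have hq := Q_posR k
  rw [mul_one_div]
  apply div_le_div_of_nonneg_right (by norm_num) (by positivity)

lemma tail_ge {s : ℕ → ℝ} (h0 : ∀ j, 0 ≤ s j) (h1 : ∀ j, s j ≤ 1) (k : ℕ) :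
    s (k + 1) / (Q k : ℝ) ^ 2 ≤ tail s k := by
  have h := (tail_summable h0 h1 k).le_tsum 0 (fun j _ => by
    have := h0 (j + (k + 1))
    positivity)
  refine le_trans (le_of_eq ?_) h
  have hq := Q_posR k
  rw [zero_add, Q_succR]
  field_simp

/-- the number `∑ s_j / Q_j` -/
noncomputable def num (s : ℕ → ℝ) : ℝ := ∑' j, s j / Q j

lemma num_summable {s : ℕ → ℝ} (h0 : ∀ j, 0 ≤ s j) (h1 : ∀ j, s j ≤ 1) :
    Summable (fun j => s j / (Q j : ℝ)) := by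
  have h := (tail_summable h0 h1 0).mul_left ((Q 0 : ℝ)⁻¹)
  have h2 : Summable (fun j => s (j + 1) / (Q (j + 1) : ℝ)) := by
    refine h.congr fun j => ?_
    have := (Q_posR 0).ne'
    field_simp
  exact (summable_nat_add_iff 1).1 h2

/-- If `s_j Q_j` is an integer for every `j`, then `Q_k num(s) = X_k + s_k + tail_k` with an
integer `X_k`. -/
lemma num_mul {s : ℕ → ℝ} (h0 : ∀ j, 0 ≤ s j) (h1 : ∀ j, s j ≤ 1)
    (hint : ∀ j, ∃ v : ℤ, s j * Q j = v) (k : ℕ) :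
    ∃ X : ℤ, (Q k : ℝ) * num s = X + (s k + tail s k) := by
  choose v hv using hint
  have hsum := (num_summable h0 h1).sum_add_tsum_nat_add (k + 1)
  refine ⟨∑ j ∈ Finset.range k, v j * ((Q k / (Q j ^ 2) : ℕ) : ℤ), ?_⟩
  unfold num tail
  rw [← hsum, mul_add, tsum_mul_left, Finset.sum_range_succ, mul_add]
  have hqk := (Q_posR k).ne'
  have e1 : (Q k : ℝ) * (s k / Q k) = s k := by field_simp
  have e2 : (Q k : ℝ) * ∑ j ∈ Finset.range k, s j / (Q j : ℝ) =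
      ((∑ j ∈ Finset.range k, v j * ((Q k / (Q j ^ 2) : ℕ) : ℤ) : ℤ) : ℝ) := by
    rw [Finset.mul_sum, Int.cast_sum]
    apply Finset.sum_congr rfl
    intro j hj
    rw [Finset.mem_range] at hj
    rw [Int.cast_mul, Int.cast_natCast]
    have hqj := (Q_posR j).ne'
    have hdvd : Q j ^ 2 ∣ Q k := by
      have h2 : Q (j + 1) ∣ Q k := Q_dvd (by omega)
      rw [Q_succ] at h2
      exact (pow_dvd_pow _ (by norm_num)).trans h2
    have h3 : ((Q k / (Q j ^ 2) : ℕ) : ℝ) = (Q k : ℝ) / (Q j : ℝ) ^ 2 := by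
      rw [Nat.cast_div hdvd (by push_cast; positivity)]
      push_cast; rfl
    rw [h3, ← hv j]
    field_simp
  rw [e1, e2]
  ring

/-! ### The vector `(α, β)` -/

/-- `α = ∑ 1/Q_j` -/
noncomputable def α : ℝ := num (fun _ => 1)

/-- `δ_k` -/
noncomputable def δ (k : ℕ) : ℝ := tail (fun _ => 1) k

lemma δ_le (k : ℕ) : δ k ≤ 2 / (Q k : ℝ) ^ 2 :=
  tail_le (fun _ => zero_le_one) (fun _ => le_rfl) k

lemma δ_ge (k : ℕ) : 1 / (Q k : ℝ) ^ 2 ≤ δ k :=
  tail_ge (s := fun _ => 1) (fun _ => zero_le_one) (fun _ => le_rfl) k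

lemma δ_pos (k : ℕ) : 0 < δ k := lt_of_lt_of_le (by have := Q_posR k; positivity) (δ_ge k)

/-- `Q_k α = p_k + δ_k` with `p_k` an integer coprime to `Q_k` (that is, odd). -/
lemma exists_p (k : ℕ) : ∃ p : ℤ, (Q k : ℝ) * α = p + δ k ∧ IsCoprime p (Q k : ℤ) := by
  have hsum := (num_summable (s := fun _ => (1 : ℝ)) (fun _ => zero_le_one)
    (fun _ => le_rfl)).sum_add_tsum_nat_add (k + 1)
  refine ⟨∑ j ∈ Finset.range (k + 1), ((Q k / Q j : ℕ) : ℤ), ?_, ?_⟩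
  · unfold α δ num tail
    rw [← hsum, mul_add, tsum_mul_left]
    congr 1
    rw [Finset.mul_sum, Int.cast_sum]
    apply Finset.sum_congr rfl
    intro j hj
    rw [Finset.mem_range] at hj
    rw [Int.cast_natCast, Nat.cast_div (Q_dvd (by omega)) (Q_posR j).ne']
    ring
  · -- odd
    have hodd : IsCoprime (∑ j ∈ Finset.range (k + 1), ((Q k / Q j : ℕ) : ℤ)) 2 := by
      rw [Finset.sum_range_succ, Nat.div_self (Q_pos k)]
      have h2 : (2 : ℤ) ∣ ∑ j ∈ Finset.range k, ((Q k / Q j : ℕ) : ℤ) := by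
        apply Finset.dvd_sum
        intro j hj
        rw [Finset.mem_range] at hj
        have h3 : 2 ∣ Q k / Q j := by
          have h4 : Q j ^ 3 ∣ Q k := by rw [← Q_succ]; exact Q_dvd (by omega)
          obtain ⟨c, hc⟩ := h4
          rw [hc, show Q j ^ 3 * c = Q j * (Q j ^ 2 * c) by ring,
            Nat.mul_div_cancel_left _ (Q_pos j)]
          have h5 : 2 ∣ Q j := by
            unfold Q
            exact dvd_pow_self 2 (by positivity)
          exact Dvd.dvd.mul_right (Dvd.dvd.trans h5 (dvd_pow_self _ (by norm_num))) _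
        exact_mod_cast h3
      obtain ⟨c, hc⟩ := h2
      rw [hc]
      refine ⟨1, -c, ?_⟩
      push_cast
      ring
    have h6 : ((Q k : ℕ) : ℤ) = 2 ^ (3 ^ k) := by unfold Q; push_cast; rfl
    rw [h6]
    exact hodd.pow_right

lemma δ_tail_bound (k j : ℕ) : δ (j + (k + 1)) ≤ (1 / 4) ^ j * (2 / (Q (k + 1) : ℝ) ^ 2) := by
  refine (δ_le _).trans ?_
  have h1 := Q_posR (k + 1)
  have h2 : (4 : ℝ) ^ j * Q (k + 1) ≤ Q (j + (k + 1)) := by
    rw [show j + (k + 1) = (k + 1) + j by ring]; exact Q_addR _ _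
  have h3 : (4 : ℝ) ^ j * (Q (k + 1) : ℝ) ^ 2 ≤ (Q (j + (k + 1)) : ℝ) ^ 2 := by
    have h4 : (1 : ℝ) ≤ 4 ^ j := one_le_pow₀ (by norm_num)
    calc (4 : ℝ) ^ j * (Q (k + 1) : ℝ) ^ 2 ≤ (4 : ℝ) ^ j * ((4 : ℝ) ^ j * (Q (k + 1) : ℝ) ^ 2) := by
          apply mul_le_mul_of_nonneg_left _ (by positivity)
          nlinarith [sq_nonneg (Q (k + 1) : ℝ)]
      _ = ((4 : ℝ) ^ j * Q (k + 1)) ^ 2 := by ring
      _ ≤ (Q (j + (k + 1)) : ℝ) ^ 2 := pow_le_pow_left₀ (by positivity) h2 2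
  calc 2 / (Q (j + (k + 1)) : ℝ) ^ 2 ≤ 2 / ((4 : ℝ) ^ j * (Q (k + 1) : ℝ) ^ 2) := by
        apply div_le_div_of_nonneg_left (by norm_num) (by positivity) h3
    _ = (1 / 4) ^ j * (2 / (Q (k + 1) : ℝ) ^ 2) := by
        rw [div_pow, one_pow]; field_simp

lemma δ_summable_tail (k : ℕ) : Summable (fun j => δ (j + (k + 1))) :=
  Summable.of_nonneg_of_le (fun j => (δ_pos _).le) (fun j => δ_tail_bound k j)
    (summable_geo.mul_right _)

lemma δ_summable : Summable δ := (summable_nat_add_iff 1).1 (δ_summable_tail 0)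

/-- `β = ∑ δ_k` -/
noncomputable def β : ℝ := ∑' k, δ k

/-- `ρ_k = ∑_{j > k} δ_j` -/
noncomputable def ρ (k : ℕ) : ℝ := ∑' j, δ (j + (k + 1))

lemma ρ_nonneg (k : ℕ) : 0 ≤ ρ k := tsum_nonneg fun _ => (δ_pos _).le

lemma ρ_le (k : ℕ) : ρ k ≤ 4 / (Q (k + 1) : ℝ) ^ 2 := by
  have h := (δ_summable_tail k).tsum_le_tsum (fun j => δ_tail_bound k j)
    (summable_geo.mul_right _)
  rw [tsum_mul_right, tsum_geo] at h
  refine h.trans ?_
  have hq := Q_posR (k + 1)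
  rw [mul_div_assoc']
  apply div_le_div_of_nonneg_right (by norm_num) (by positivity)

/-- `M_k = Q_0 + ⋯ + Q_k` -/
def M (k : ℕ) : ℕ := ∑ j ∈ Finset.range (k + 1), Q j

lemma M_succ (k : ℕ) : M (k + 1) = M k + Q (k + 1) := by
  unfold M; rw [Finset.sum_range_succ]

lemma Q_le_M (k : ℕ) : Q k ≤ M k := by
  unfold M
  exact Finset.single_le_sum (f := fun j => Q j) (fun _ _ => Nat.zero_le _)
    (Finset.mem_range.2 (Nat.lt_succ_self k))

lemma M_le (k : ℕ) : M k ≤ 2 * Q k := by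
  induction k with
  | zero => unfold M; simp; have := Q_pos 0; omega
  | succ k ih =>
    rw [M_succ]
    have := Q_four k
    omega

lemma M_leR (k : ℕ) : (M k : ℝ) ≤ 2 * Q k := by exact_mod_cast M_le k

lemma Q_le_MR (k : ℕ) : (Q k : ℝ) ≤ M k := by exact_mod_cast Q_le_M k

/-- `β = M_k α - (integer) + ρ_k` -/
lemma beta_eq (k : ℕ) : ∃ z : ℤ, β = M k * α - z + ρ k := by
  choose p hp _ using exists_p
  refine ⟨∑ j ∈ Finset.range (k + 1), p j, ?_⟩
  have h := δ_summable.sum_add_tsum_nat_add (k + 1)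
  unfold β ρ M
  rw [← h]
  congr 1
  push_cast
  rw [Finset.sum_mul, ← Finset.sum_sub_distrib]
  apply Finset.sum_congr rfl
  intro j _
  rw [hp j]; ring

/-- the class of a real number in the circle -/
abbrev cl (x : ℝ) : UnitAddCircle := (x : UnitAddCircle)

lemma cl_int (z : ℤ) : cl (z : ℝ) = 0 := by
  have : (z : ℝ) = z • (1 : ℝ) := by simp
  rw [cl, this]
  exact AddCircle.coe_eq_zero_iff 1 |>.2 ⟨z, rfl⟩

lemma norm_cl_le (x : ℝ) : ‖cl x‖ ≤ |x| := by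
  have := AddCircle.norm_eq (p := 1) (x := x)
  rw [this]
  simp only [inv_one, one_mul, mul_one]
  have h := round_le x 0
  simpa using h

lemma norm_cl_le_int (x : ℝ) (z : ℤ) : ‖cl x‖ ≤ |x - z| := by
  have h : cl x = cl (x - z) := by
    rw [cl, cl, AddCircle.coe_sub]
    have := cl_int z
    rw [cl] at this
    rw [this, sub_zero]
  rw [h]
  exact norm_cl_le _

lemma norm_cl_eq {x : ℝ} (hx : |x| ≤ 1 / 2) : ‖cl x‖ = |x| := by
  have h := (AddCircle.norm_eq' (p := 1) (x := x) one_pos)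
  rcases eq_or_ne x 0 with rfl | hx0
  · simp
  · apply le_antisymm (norm_cl_le x)
    have h2 := AddCircle.norm_eq (p := 1) (x := x)
    rw [h2]
    simp only [inv_one, one_mul, mul_one]
    by_cases hr : round x = 0
    · rw [hr]; simp
    · have h3 : (1 : ℝ) ≤ |(round x : ℝ)| := by
        have := Int.one_le_abs hr
        exact_mod_cast this
      have h4 : |(round x : ℝ)| ≤ |x| + |x - round x| := by
        have h5 : (round x : ℝ) = x - (x - round x) := by ring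
        calc |(round x : ℝ)| = |x - (x - round x)| := by rw [← h5]
          _ ≤ |x| + |x - round x| := abs_sub _ _
      linarith

/-- The relation `q β = M_k (q α) + q ρ_k` in the circle. -/
lemma circle_rel (q : ℤ) (k : ℕ) : cl (q * β) = M k • cl (q * α) + cl (q * ρ k) := by
  obtain ⟨z, hz⟩ := beta_eq k
  have h1 : (q : ℝ) * β = (M k : ℝ) * (q * α) + q * ρ k - ((q * z : ℤ) : ℝ) := by
    rw [hz]; push_cast; ring
  have h2 : cl ((M k : ℝ) * (q * α)) = M k • cl (q * α) := by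
    have : (M k : ℝ) * (q * α) = M k • ((q : ℝ) * α) := by rw [nsmul_eq_mul]
    rw [this]
    exact AddCircle.coe_nsmul 1
  calc cl (q * β) = cl ((M k : ℝ) * (q * α) + q * ρ k - ((q * z : ℤ) : ℝ)) := by rw [h1]
    _ = cl ((M k : ℝ) * (q * α)) + cl (q * ρ k) - cl ((q * z : ℤ) : ℝ) := by
        simp only [cl, AddCircle.coe_sub, AddCircle.coe_add]
    _ = M k • cl (q * α) + cl (q * ρ k) := by rw [cl_int, sub_zero, h2]

/-- The distance from `t` to `M_k a` is controlled by the error of approximation. -/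
lemma dist_le (a t : UnitAddCircle) (q : ℤ) (k : ℕ) :
    ‖t - M k • a‖ ≤ ‖cl (q * β) - t‖ + M k * ‖cl (q * α) - a‖ + |(q : ℝ)| * ρ k := by
  have h1 : t - M k • a = -(cl (q * β) - t) + M k • (cl (q * α) - a) + cl (q * ρ k) := by
    rw [circle_rel q k, smul_sub]; abel
  rw [h1]
  refine (norm_add_le _ _).trans (add_le_add ((norm_add_le _ _).trans (add_le_add ?_ ?_)) ?_)
  · rw [norm_neg]
  · exact norm_nsmul_le
  · refine (norm_cl_le _).trans (le_of_eq ?_)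
    rw [abs_mul, abs_of_nonneg (ρ_nonneg k)]

/-- **Targets whose second coordinate stays away from `M_k a` are badly approximable.** -/
lemma bad_of_far (a t : UnitAddCircle) {d : ℝ} (hd : 0 < d) (k₀ : ℕ)
    (h : ∀ k ≥ k₀, d ≤ ‖t - M k • a‖) :
    ∃ c > 0, ∃ R : ℝ, ∀ q : ℤ, R ≤ |(q : ℝ)| →
      c ≤ |(q : ℝ)| ^ (1 / 2 : ℝ) * max ‖cl (q * α) - a‖ ‖cl (q * β) - t‖ := by
  -- `c² = d³ / 1152`
  have hd3 : 0 < d ^ 3 := by positivity
  set c : ℝ := Real.sqrt (d ^ 3 / 1152) with hc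
  have hc0 : 0 < c := Real.sqrt_pos.2 (by positivity)
  have hc2 : c ^ 2 = d ^ 3 / 1152 := Real.sq_sqrt (by positivity)
  refine ⟨c, hc0, d * (Q (k₀ + 1) : ℝ) ^ 2 / 8 + 1, fun q hq => ?_⟩
  by_contra hlt
  push Not at hlt
  set X : ℝ := |(q : ℝ)| with hX
  have hXpos : 0 < X := by
    have : 0 ≤ d * (Q (k₀ + 1) : ℝ) ^ 2 / 8 := by positivity
    linarith
  -- choose the least `k` with `X ≤ d Q_{k+1}² / 8`
  have hex : ∃ k, X ≤ d * (Q (k + 1) : ℝ) ^ 2 / 8 := by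
    obtain ⟨k, hk⟩ := pow_unbounded_of_one_lt (8 * X / d) (show (1 : ℝ) < 2 by norm_num)
    refine ⟨k, ?_⟩
    rw [div_lt_iff₀ hd] at hk
    have h1 : (2 : ℝ) ^ k ≤ (Q (k + 1) : ℝ) ^ 2 := by
      have h2 : (2 : ℝ) ^ (k + 2) ≤ Q (k + 1) := by exact_mod_cast Q_ge (k + 1)
      have h3 : (2 : ℝ) ^ k ≤ 2 ^ (k + 2) := pow_le_pow_right₀ (by norm_num) (by omega)
      have h4 : (1 : ℝ) ≤ Q (k + 1) := by linarith [Q_ge_twoR (k + 1)]
      nlinarith
    nlinarith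
  classical
  have hk1 := Nat.find_spec hex
  have hkmin : ∀ j < Nat.find hex, ¬ X ≤ d * (Q (j + 1) : ℝ) ^ 2 / 8 :=
    fun j hj => Nat.find_min hex hj
  set k := Nat.find hex with hk
  have hkk : k₀ + 1 ≤ k := by
    by_contra hlt2
    push Not at hlt2
    have h1 : (Q (k + 1) : ℝ) ≤ Q (k₀ + 1) := by
      have : Q (k + 1) ≤ Q (k₀ + 1) := Nat.le_of_dvd (Q_pos _) (Q_dvd (by omega))
      exact_mod_cast this
    have h2 : (Q (k + 1) : ℝ) ^ 2 ≤ (Q (k₀ + 1) : ℝ) ^ 2 :=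
      pow_le_pow_left₀ (Q_posR _).le h1 2
    nlinarith
  have hlow : d * (Q k : ℝ) ^ 2 / 8 < X := by
    have := hkmin (k - 1) (by omega)
    push Not at this
    rwa [show k - 1 + 1 = k by omega] at this
  have h1 := (h k (by omega)).trans (dist_le a t q k)
  have hsqrt : X ^ (1 / 2 : ℝ) = Real.sqrt X := by rw [Real.sqrt_eq_rpow]
  rw [hsqrt] at hlt
  have hsX : 0 < Real.sqrt X := Real.sqrt_pos.2 hXpos
  set E : ℝ := max ‖cl (q * α) - a‖ ‖cl (q * β) - t‖ with hE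
  have hE0 : 0 ≤ E := le_max_of_le_left (norm_nonneg _)
  have hEc : E < c / Real.sqrt X := by
    rw [lt_div_iff₀ hsX]; linarith
  have h2 : ‖cl (q * β) - t‖ + M k * ‖cl (q * α) - a‖ ≤ (1 + M k) * E := by
    have h3 : ‖cl (q * α) - a‖ ≤ E := le_max_left _ _
    have h4 : ‖cl (q * β) - t‖ ≤ E := le_max_right _ _
    have h5 : (0 : ℝ) ≤ M k := Nat.cast_nonneg _
    nlinarith
  have h3 : X * ρ k ≤ d / 2 := by
    have h4 := ρ_le k
    have h5 := Q_posR (k + 1)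
    calc X * ρ k ≤ (d * (Q (k + 1) : ℝ) ^ 2 / 8) * (4 / (Q (k + 1) : ℝ) ^ 2) :=
          mul_le_mul hk1 h4 (ρ_nonneg k) (by positivity)
      _ = d / 2 := by field_simp; norm_num
  have h4 : (1 + (M k : ℝ)) * E < d / 2 := by
    have h5 : 1 + (M k : ℝ) ≤ 3 * Q k := by
      have := M_leR k
      have := Q_ge_twoR k
      linarith
    have h6 : (1 + (M k : ℝ)) * E ≤ 3 * Q k * E := mul_le_mul_of_nonneg_right h5 hE0
    have hQ := Q_posR k
    have h7 : 3 * (Q k : ℝ) * E < 3 * Q k * (c / Real.sqrt X) :=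
      mul_lt_mul_of_pos_left hEc (by positivity)
    have h8 : 3 * (Q k : ℝ) * (c / Real.sqrt X) ≤ d / 2 := by
      rw [mul_div_assoc', div_le_iff₀ hsX]
      have h9 : (3 * (Q k : ℝ) * c) ^ 2 ≤ (d / 2 * Real.sqrt X) ^ 2 := by
        have h10 : (d / 2 * Real.sqrt X) ^ 2 = d ^ 2 / 4 * X := by
          rw [mul_pow, Real.sq_sqrt hXpos.le]; ring
        have h11 : (3 * (Q k : ℝ) * c) ^ 2 = d ^ 2 / 16 * (d * (Q k : ℝ) ^ 2 / 8) := by
          rw [mul_pow, hc2]; ring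
        rw [h10, h11]
        have h12 : 0 < d ^ 2 := by positivity
        nlinarith
      exact (pow_le_pow_iff_left₀ (by positivity) (by positivity) (by norm_num)).1 h9
    linarith
  linarith

end Pool.Agent.X124.BadTorus
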