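import Mathlib

/-!
# Badly approximable targets, singular matrices and algebraic measures on the torus
-/

namespace Pool.Agent.X124.TorusDefs

open MeasureTheory

/-- The torus `𝕋^m = ℝ^m / ℤ^m`. Its norm (a supremum of the norms of the coordinates in `ℝ/ℤ`) is
the sup-norm distance `⟨x⟩` to the nearest point of `ℤ^m`. -/
abbrev Torus (m : ℕ) : Type := Fin m → UnitAddCircle

/-- The projection `ℝ^m → 𝕋^m`. -/
def proj {m : ℕ} (x : Fin m → ℝ) : Torus m := fun i => (x i : UnitAddCircle)

/-- The sup norm of an integer vector. -/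
noncomputable def size {n : ℕ} (q : Fin n → ℤ) : ℝ := ‖(fun j => (q j : ℝ))‖

/-- The class of `A q` in the torus. -/
noncomputable def mulInt {m n : ℕ} (A : Matrix (Fin m) (Fin n) ℝ) (q : Fin n → ℤ) : Torus m :=
  proj (A.mulVec (fun j => (q j : ℝ)))

/-- The set of badly approximable targets:
`liminf_{‖q‖ → ∞} ‖q‖^(n/m) ⟨A q - η⟩ > 0`. -/
def Bad {m n : ℕ} (A : Matrix (Fin m) (Fin n) ℝ) : Set (Torus m) :=
  {η | ∃ c > 0, ∃ R : ℝ, ∀ q : Fin n → ℤ, R ≤ size q →
    c ≤ size q ^ ((n : ℝ) / m) * ‖mulInt A q - η‖}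

/-- Singular matrices. -/
def Singular {m n : ℕ} (A : Matrix (Fin m) (Fin n) ℝ) : Prop :=
  ∀ ε > 0, ∃ N₀ : ℝ, ∀ N ≥ N₀, ∃ q : Fin n → ℤ, 0 < size q ∧ size q ≤ N ∧
    ‖mulInt A q‖ ≤ ε * N ^ (-((n : ℝ) / m))

/-- `H` is a subtorus (closed connected subgroup) of dimension `r`: it is closed and the image of a
real subspace of dimension `r`. -/
def IsSubtorus {m : ℕ} (H : AddSubgroup (Torus m)) (r : ℕ) : Prop :=
  IsClosed (H : Set (Torus m)) ∧ ∃ V : Submodule ℝ (Fin m → ℝ), Module.finrank ℝ V = r ∧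
    (H : Set (Torus m)) = proj '' (V : Set (Fin m → ℝ))

/-- `μ` is the Haar probability measure on the coset `x + H`: the Borel probability measure which is
supported on `x + H` and invariant under the translations by the elements of `H`. -/
structure IsHaarOnCoset {m : ℕ} (μ : Measure (Torus m)) (x : Torus m)
    (H : AddSubgroup (Torus m)) : Prop where
  prob : IsProbabilityMeasure μ
  supp : μ {y | y - x ∉ H} = 0
  inv : ∀ h ∈ H, μ.map (fun y => h + y) = μ

end Pool.Agent.X124.TorusDefs
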