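import Mathlib
import Pool.Agent.X124.BadTorus
import Pool.Agent.X124.TorusDefs

/-!
# The `2 × 1` matrix `(α, β)`: non-singularity, badly approximable targets, vertical cosets
-/

namespace Pool.Agent.X124.TorusExample

open MeasureTheory Pool.Agent.X124.BadTorus Pool.Agent.X124.TorusDefs

/-- The matrix with entries `α` and `β`. -/
noncomputable def A : Matrix (Fin 2) (Fin 1) ℝ := !![α; β]

lemma size_eq (q : Fin 1 → ℤ) : size q = |(q 0 : ℝ)| := by
  unfold size
  apply le_antisymm
  · rw [pi_norm_le_iff_of_nonneg (abs_nonneg _)]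
    intro i
    have : i = 0 := Subsingleton.elim _ _
    rw [this, Real.norm_eq_abs]
  · have := norm_le_pi_norm (fun j => (q j : ℝ)) 0
    rwa [Real.norm_eq_abs] at this

lemma mulInt_zero (q : Fin 1 → ℤ) : mulInt A q 0 = cl (q 0 * α) := by
  unfold mulInt proj
  have : A.mulVec (fun j => (q j : ℝ)) 0 = q 0 * α := by
    change ∑ j, A 0 j * (q j : ℝ) = _
    simp [A]; ring
  rw [this]

lemma mulInt_one (q : Fin 1 → ℤ) : mulInt A q 1 = cl (q 0 * β) := by
  unfold mulInt proj
  have : A.mulVec (fun j => (q j : ℝ)) 1 = q 0 * β := by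
    change ∑ j, A 1 j * (q j : ℝ) = _
    simp [A]; ring
  rw [this]

lemma norm_eq_max (y : Torus 2) : ‖y‖ = max ‖y 0‖ ‖y 1‖ := by
  apply le_antisymm
  · rw [pi_norm_le_iff_of_nonneg (le_max_of_le_left (norm_nonneg _))]
    intro i
    fin_cases i
    · exact le_max_left _ _
    · exact le_max_right _ _
  · exact max_le (norm_le_pi_norm y 0) (norm_le_pi_norm y 1)

lemma norm_sub_eq (q : Fin 1 → ℤ) (η : Torus 2) :
    ‖mulInt A q - η‖ = max ‖cl (q 0 * α) - η 0‖ ‖cl (q 0 * β) - η 1‖ := by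
  rw [norm_eq_max, Pi.sub_apply, Pi.sub_apply, mulInt_zero, mulInt_one]

lemma half : (((1 : ℕ) : ℝ) / ((2 : ℕ) : ℝ)) = (1 / 2 : ℝ) := by norm_num

/-- Targets `(a, t)` with `t` away from all the `M_k a` are badly approximable. -/
lemma bad_of_far' (a t : UnitAddCircle) {d : ℝ} (hd : 0 < d) (k₀ : ℕ)
    (h : ∀ k ≥ k₀, d ≤ ‖t - M k • a‖) : (![a, t] : Torus 2) ∈ Bad A := by
  obtain ⟨c, hc, R, hR⟩ := bad_of_far a t hd k₀ h
  refine ⟨c, hc, R, fun q hq => ?_⟩
  rw [norm_sub_eq, half, size_eq]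
  rw [size_eq] at hq
  exact hR (q 0) hq

/-- the two cases for the multiples of the vector -/
lemma norm_mulInt_ge (k : ℕ) (q : Fin 1 → ℤ) (h0 : 0 < size q) (hq : size q ≤ (Q k : ℝ) ^ 2 / 16) :
    1 / (2 * (Q k : ℝ)) ≤ ‖mulInt A q‖ := by
  rw [size_eq] at h0 hq
  have hQ := Q_posR k
  have hQ2 := Q_ge_twoR k
  have heq : ‖mulInt A q‖ = max ‖cl (q 0 * α)‖ ‖cl (q 0 * β)‖ := by
    rw [norm_eq_max, mulInt_zero, mulInt_one]
  rw [heq]
  set n : ℤ := q 0 with hn
  obtain ⟨p, hp, hcop⟩ := exists_p k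
  have hδ := δ_le k
  have hδ0 := δ_pos k
  by_cases hdvd : (Q k : ℤ) ∣ n
  · -- multiples of `Q_k`
    obtain ⟨j, hj⟩ := hdvd
    apply le_max_of_le_right
    have hjne : j ≠ 0 := by
      rintro rfl
      rw [hj] at h0; simp at h0
    have hj1 : (1 : ℝ) ≤ |(j : ℝ)| := by
      have := Int.one_le_abs hjne
      exact_mod_cast this
    have hnj : (n : ℝ) = Q k * j := by rw [hj]; push_cast; ring
    have hjle : |(j : ℝ)| ≤ Q k / 16 := by
      rw [hnj, abs_mul, abs_of_pos hQ] at hq
      have : (Q k : ℝ) * |(j : ℝ)| ≤ Q k * (Q k / 16) := by linarith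
      exact le_of_mul_le_mul_left this hQ
    set E : ℝ := M k * δ k + Q k * ρ k with hE
    have hcl : cl (n * β) = cl (j * E) := by
      rw [circle_rel n k]
      have h1 : cl (n * α) = cl (j * δ k) := by
        have : (n : ℝ) * α = j * δ k + ((j * p : ℤ) : ℝ) := by
          rw [hnj]; push_cast
          have : (Q k : ℝ) * j * α = j * (Q k * α) := by ring
          rw [this, hp]; ring
        rw [this, cl, AddCircle.coe_add]
        have h2 := cl_int (j * p)
        rw [cl] at h2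
        rw [h2, add_zero]
      rw [h1]
      have h2 : M k • cl (j * δ k) = cl (M k * (j * δ k)) := by
        have : (M k : ℝ) * (j * δ k) = M k • ((j : ℝ) * δ k) := by rw [nsmul_eq_mul]
        rw [this]
        exact (AddCircle.coe_nsmul 1).symm
      rw [h2, ← AddCircle.coe_add]
      congr 1
      rw [hE, hnj]; ring
    have hE1 : 1 / (Q k : ℝ) ≤ E := by
      have h1 : 1 / (Q k : ℝ) ≤ M k * δ k := by
        calc 1 / (Q k : ℝ) = Q k * (1 / (Q k : ℝ) ^ 2) := by field_simp
          _ ≤ M k * δ k := mul_le_mul (Q_le_MR k) (δ_ge k) (by positivity) (Nat.cast_nonneg _)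
      have h2 : 0 ≤ Q k * ρ k := mul_nonneg hQ.le (ρ_nonneg k)
      linarith
    have hE2 : E ≤ 5 / Q k := by
      have h1 : M k * δ k ≤ 4 / Q k := by
        calc M k * δ k ≤ (2 * Q k) * (2 / (Q k : ℝ) ^ 2) :=
              mul_le_mul (M_leR k) hδ hδ0.le (by positivity)
          _ = 4 / Q k := by field_simp; norm_num
      have h2 : Q k * ρ k ≤ 1 / Q k := by
        calc Q k * ρ k ≤ Q k * (4 / (Q (k + 1) : ℝ) ^ 2) :=
              mul_le_mul_of_nonneg_left (ρ_le k) hQ.le
          _ = 4 / (Q k : ℝ) ^ 5 := by rw [Q_succR]; field_simp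
          _ ≤ 1 / Q k := by
            rw [div_le_div_iff₀ (by positivity) hQ]
            have h3 : (2 : ℝ) ^ 2 ≤ (Q k : ℝ) ^ 2 := pow_le_pow_left₀ (by norm_num) hQ2 2
            have h4 : (2 : ℝ) ^ 4 ≤ (Q k : ℝ) ^ 4 := pow_le_pow_left₀ (by norm_num) hQ2 4
            nlinarith
      calc E ≤ 4 / Q k + 1 / Q k := add_le_add h1 h2
        _ = 5 / Q k := by ring
    have hE0 : 0 < E := lt_of_lt_of_le (by positivity) hE1
    have habs : |(j : ℝ) * E| = |(j : ℝ)| * E := by rw [abs_mul, abs_of_pos hE0]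
    have hhalf : |(j : ℝ) * E| ≤ 1 / 2 := by
      rw [habs]
      calc |(j : ℝ)| * E ≤ (Q k / 16) * (5 / Q k) := mul_le_mul hjle hE2 hE0.le (by positivity)
        _ = 5 / 16 := by field_simp
        _ ≤ 1 / 2 := by norm_num
    rw [hcl, norm_cl_eq hhalf, habs]
    calc 1 / (2 * (Q k : ℝ)) ≤ 1 / Q k := by
          apply one_div_le_one_div_of_le hQ; linarith
      _ ≤ E := hE1
      _ = 1 * E := (one_mul _).symm
      _ ≤ |(j : ℝ)| * E := mul_le_mul_of_nonneg_right hj1 hE0.le
  · -- other integers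
    apply le_max_of_le_left
    have h1 : 1 / (Q k : ℝ) ≤ ‖cl ((n * p : ℤ) / (Q k : ℝ))‖ := by
      have h2 := AddCircle.norm_eq (p := 1) (x := ((n * p : ℤ) : ℝ) / (Q k : ℝ))
      rw [h2]
      simp only [inv_one, one_mul, mul_one]
      set z := round (((n * p : ℤ) : ℝ) / (Q k : ℝ)) with hz
      have h3 : ((n * p : ℤ) : ℝ) / (Q k : ℝ) - z = ((n * p - z * Q k : ℤ) : ℝ) / Q k := by
        push_cast; field_simp
      rw [h3, abs_div, abs_of_pos hQ]
      apply div_le_div_of_nonneg_right _ hQ.le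
      have h4 : (n * p - z * Q k : ℤ) ≠ 0 := by
        intro h5
        apply hdvd
        have h6 : (Q k : ℤ) ∣ n * p := ⟨z, by linarith⟩
        exact hcop.symm.dvd_of_dvd_mul_right h6
      have := Int.one_le_abs h4
      exact_mod_cast this
    have h2 : cl (n * α) = cl ((n * p : ℤ) / (Q k : ℝ)) + cl (n * δ k / Q k) := by
      rw [← AddCircle.coe_add]
      congr 1
      have : α = (p + δ k) / Q k := by rw [← hp]; field_simp
      rw [this]; push_cast; ring
    have h3 : ‖cl (n * δ k / Q k)‖ ≤ 1 / (8 * Q k) := by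
      refine (norm_cl_le _).trans ?_
      rw [abs_div, abs_mul, abs_of_pos hδ0, abs_of_pos hQ]
      rw [div_le_div_iff₀ hQ (by positivity)]
      have h4 : |(n : ℝ)| * δ k ≤ (Q k : ℝ) ^ 2 / 16 * (2 / (Q k : ℝ) ^ 2) :=
        mul_le_mul hq hδ hδ0.le (by positivity)
      have h5 : (Q k : ℝ) ^ 2 / 16 * (2 / (Q k : ℝ) ^ 2) = 1 / 8 := by field_simp; norm_num
      rw [h5] at h4
      nlinarith
    have h4 : ‖cl ((n * p : ℤ) / (Q k : ℝ))‖ ≤ ‖cl (n * α)‖ + ‖cl (n * δ k / Q k)‖ := by
      have h5 : cl ((n * p : ℤ) / (Q k : ℝ)) = cl (n * α) - cl (n * δ k / Q k) := by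
        rw [h2]; abel
      rw [h5]
      exact norm_sub_le _ _
    have h5 : 1 / (2 * (Q k : ℝ)) = 1 / Q k - 1 / (2 * Q k) := by field_simp; norm_num
    have h6 : 1 / (8 * (Q k : ℝ)) ≤ 1 / (2 * Q k) := by
      apply one_div_le_one_div_of_le (by positivity); linarith
    linarith

/-- `A` is non-singular. -/
lemma nonsingular : ¬ Singular A := by
  intro h
  obtain ⟨N₀, hN₀⟩ := h (1 / 16) (by norm_num)
  obtain ⟨k, hk⟩ := pow_unbounded_of_one_lt (16 * N₀) (show (1 : ℝ) < 2 by norm_num)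
  have hQ := Q_posR k
  have hQk : (2 : ℝ) ^ k ≤ (Q k : ℝ) ^ 2 := by
    have h1 : (2 : ℝ) ^ (k + 1) ≤ Q k := by exact_mod_cast Q_ge k
    have h2 : (2 : ℝ) ^ k ≤ 2 ^ (k + 1) := pow_le_pow_right₀ (by norm_num) (by omega)
    have := Q_ge_twoR k
    nlinarith
  obtain ⟨q, h0, hq, hle⟩ := hN₀ ((Q k : ℝ) ^ 2 / 16) (by
    change N₀ ≤ (Q k : ℝ) ^ 2 / 16
    linarith)
  have h1 := norm_mulInt_ge k q h0 hq
  have h2 : ((Q k : ℝ) ^ 2 / 16) ^ (-(((1 : ℕ) : ℝ) / ((2 : ℕ) : ℝ))) = 4 / Q k := by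
    rw [half, Real.rpow_neg (by positivity), ← Real.sqrt_eq_rpow]
    have : (Q k : ℝ) ^ 2 / 16 = (Q k / 4) ^ 2 := by ring
    rw [this, Real.sqrt_sq (by positivity)]
    field_simp
  rw [h2] at hle
  have h3 : (1 / 16 : ℝ) * (4 / Q k) = 1 / (4 * Q k) := by field_simp; norm_num
  rw [h3] at hle
  have h4 : 1 / (4 * (Q k : ℝ)) < 1 / (2 * Q k) := by
    apply one_div_lt_one_div_of_lt (by positivity); linarith
  linarith

/-- The origin is not badly approximable. -/
lemma zero_not_bad : (![0, 0] : Torus 2) ∉ Bad A := by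
  rintro ⟨c, hc, R, hR⟩
  obtain ⟨k, hk⟩ := pow_unbounded_of_one_lt (max R (25 / c ^ 2)) (show (1 : ℝ) < 2 by norm_num)
  have hQ := Q_posR k
  have hQ2 := Q_ge_twoR k
  have hQk : max R (25 / c ^ 2) < Q k := by
    have h1 : (2 : ℝ) ^ (k + 1) ≤ Q k := by exact_mod_cast Q_ge k
    have h2 : (2 : ℝ) ^ k ≤ 2 ^ (k + 1) := pow_le_pow_right₀ (by norm_num) (by omega)
    linarith
  have hRQ : R < Q k := lt_of_le_of_lt (le_max_left _ _) hQk
  have hcQ : 25 / c ^ 2 < Q k := lt_of_le_of_lt (le_max_right _ _) hQk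
  have h1 := hR (fun _ => (Q k : ℤ)) (by
    rw [size_eq]; push_cast; rw [abs_of_pos hQ]; exact hRQ.le)
  rw [norm_sub_eq, half, size_eq] at h1
  simp only [Matrix.cons_val_zero, Matrix.cons_val_one, sub_zero, Int.cast_natCast] at h1
  rw [abs_of_pos hQ] at h1
  obtain ⟨p, hp, -⟩ := exists_p k
  have hδ := δ_le k
  have hδ0 := δ_pos k
  have e1 : cl ((Q k : ℝ) * α) = cl (δ k) := by
    rw [hp, cl, AddCircle.coe_add]
    have := cl_int p
    rw [cl] at this
    rw [this, zero_add]
  have h2 : ‖cl ((Q k : ℝ) * α)‖ ≤ 5 / Q k := by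
    rw [e1]
    refine (norm_cl_le _).trans ?_
    rw [abs_of_pos hδ0]
    refine hδ.trans ?_
    rw [div_le_div_iff₀ (by positivity) hQ]
    nlinarith
  have h3 : ‖cl ((Q k : ℝ) * β)‖ ≤ 5 / Q k := by
    have h4 := circle_rel (Q k : ℤ) k
    simp only [Int.cast_natCast] at h4
    rw [h4, e1]
    refine (norm_add_le _ _).trans ?_
    have h5 : ‖M k • cl (δ k)‖ ≤ M k * δ k := by
      refine norm_nsmul_le.trans ?_
      apply mul_le_mul_of_nonneg_left _ (Nat.cast_nonneg _)
      refine (norm_cl_le _).trans (le_of_eq (abs_of_pos hδ0))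
    have h6 : ‖cl ((Q k : ℝ) * ρ k)‖ ≤ Q k * ρ k := by
      refine (norm_cl_le _).trans (le_of_eq (abs_of_nonneg (mul_nonneg hQ.le (ρ_nonneg k))))
    have h7 : M k * δ k ≤ 4 / Q k := by
      calc M k * δ k ≤ (2 * Q k) * (2 / (Q k : ℝ) ^ 2) :=
            mul_le_mul (M_leR k) hδ hδ0.le (by positivity)
        _ = 4 / Q k := by field_simp; norm_num
    have h8 : Q k * ρ k ≤ 1 / Q k := by
      calc Q k * ρ k ≤ Q k * (4 / (Q (k + 1) : ℝ) ^ 2) :=
            mul_le_mul_of_nonneg_left (ρ_le k) hQ.le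
        _ = 4 / (Q k : ℝ) ^ 5 := by rw [Q_succR]; field_simp
        _ ≤ 1 / Q k := by
          rw [div_le_div_iff₀ (by positivity) hQ]
          have h3 : (2 : ℝ) ^ 2 ≤ (Q k : ℝ) ^ 2 := pow_le_pow_left₀ (by norm_num) hQ2 2
          have h4 : (2 : ℝ) ^ 4 ≤ (Q k : ℝ) ^ 4 := pow_le_pow_left₀ (by norm_num) hQ2 4
          nlinarith
    have h9 : 4 / (Q k : ℝ) + 1 / Q k = 5 / Q k := by ring
    linarith
  have h4 : c ≤ (Q k : ℝ) ^ (1 / 2 : ℝ) * (5 / Q k) :=
    h1.trans (mul_le_mul_of_nonneg_left (max_le h2 h3) (by positivity))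
  rw [← Real.sqrt_eq_rpow] at h4
  have h5 : Real.sqrt (Q k) * (5 / Q k) = 5 / Real.sqrt (Q k) := by
    have h6 : Real.sqrt (Q k) * Real.sqrt (Q k) = (Q k : ℝ) := Real.mul_self_sqrt hQ.le
    have h7 : Real.sqrt (Q k) ≠ 0 := (Real.sqrt_pos.2 hQ).ne'
    rw [mul_div_assoc', div_eq_div_iff hQ.ne' h7]
    linear_combination 5 * h6
  rw [h5] at h4
  have h6 : 0 < Real.sqrt (Q k) := Real.sqrt_pos.2 hQ
  rw [le_div_iff₀ h6] at h4
  have h7 : (c * Real.sqrt (Q k)) ^ 2 ≤ 5 ^ 2 := pow_le_pow_left₀ (by positivity) h4 2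
  rw [mul_pow, Real.sq_sqrt hQ.le] at h7
  rw [div_lt_iff₀ (by positivity)] at hcQ
  nlinarith

/-! ### The vertical circle -/

/-- The subgroup `{0} × 𝕋`. -/
def vert : AddSubgroup (Torus 2) where
  carrier := {y | y 0 = 0}
  zero_mem' := rfl
  add_mem' := by
    intro a b ha hb
    change a 0 + b 0 = 0
    rw [show a 0 = 0 from ha, show b 0 = 0 from hb, add_zero]
  neg_mem' := by
    intro a ha
    change -(a 0) = 0
    rw [show a 0 = 0 from ha, neg_zero]

lemma mem_vert (y : Torus 2) : y ∈ vert ↔ y 0 = 0 := Iff.rfl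

lemma vert_subtorus : IsSubtorus vert 1 := by
  refine ⟨?_, LinearMap.ker (LinearMap.proj (R := ℝ) (φ := fun _ : Fin 2 => ℝ) 0), ?_, ?_⟩
  · have : (vert : Set (Torus 2)) = (fun y : Torus 2 => y 0) ⁻¹' {0} := rfl
    rw [this]
    exact isClosed_singleton.preimage (continuous_apply 0)
  · have h1 := LinearMap.finrank_range_add_finrank_ker
      (LinearMap.proj (R := ℝ) (φ := fun _ : Fin 2 => ℝ) 0)
    have h2 : LinearMap.range (LinearMap.proj (R := ℝ) (φ := fun _ : Fin 2 => ℝ) 0) = ⊤ :=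
      LinearMap.range_eq_top.2 (Function.surjective_eval 0)
    rw [h2, finrank_top] at h1
    simp at h1
    omega
  · ext y
    constructor
    · intro hy
      obtain ⟨r, hr⟩ := QuotientAddGroup.mk_surjective (y 1)
      refine ⟨![0, r], ?_, ?_⟩
      · simp [LinearMap.mem_ker]
      · funext i
        fin_cases i
        · exact (show y 0 = 0 from hy).symm
        · exact hr
    · rintro ⟨v, hv, rfl⟩
      have : v 0 = 0 := by simpa [LinearMap.mem_ker] using hv
      change ((v 0 : ℝ) : UnitAddCircle) = 0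
      rw [this]; rfl

/-- The Haar probability measure on the vertical circle over `a`. -/
noncomputable def haarAt (a : UnitAddCircle) : Measure (Torus 2) :=
  (volume : Measure UnitAddCircle).map (fun t => (![a, t] : Torus 2))

lemma continuous_vec (a : UnitAddCircle) : Continuous (fun t => (![a, t] : Torus 2)) := by
  apply continuous_pi
  intro i
  fin_cases i
  · exact continuous_const
  · exact continuous_id

lemma measurable_vec (a : UnitAddCircle) : Measurable (fun t => (![a, t] : Torus 2)) := by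
  rw [measurable_pi_iff]
  intro i
  fin_cases i
  · exact measurable_const
  · exact measurable_id

lemma prob_circle : IsProbabilityMeasure (volume : Measure UnitAddCircle) :=
  ⟨by rw [AddCircle.measure_univ]; simp⟩

lemma haarAt_isHaar (a : UnitAddCircle) : IsHaarOnCoset (haarAt a) ![a, 0] vert := by
  have := prob_circle
  refine ⟨?_, ?_, ?_⟩
  · exact Measure.isProbabilityMeasure_map (measurable_vec a).aemeasurable
  · have hmeas : MeasurableSet {y : Torus 2 | y - ![a, 0] ∉ vert} := by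
      have : {y : Torus 2 | y - ![a, 0] ∉ vert} = ((fun y : Torus 2 => y 0) ⁻¹' {a})ᶜ := by
        ext y
        simp only [Set.mem_compl_iff, Set.mem_preimage, Set.mem_singleton_iff]
        change ¬ (y 0 - a = 0) ↔ _
        rw [sub_eq_zero]
      rw [this]
      exact ((measurableSet_singleton a).preimage (measurable_pi_apply 0)).compl
    unfold haarAt
    rw [Measure.map_apply (measurable_vec a) hmeas]
    have : (fun t => (![a, t] : Torus 2)) ⁻¹' {y : Torus 2 | y - ![a, 0] ∉ vert} = ∅ := by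
      ext t
      simp only [Set.mem_preimage, Set.mem_empty_iff_false, iff_false]
      change ¬ ¬ (a - a = 0)
      simp
    rw [this, measure_empty]
  · intro h hh
    have hh0 : h 0 = 0 := hh
    unfold haarAt
    have hmeasAdd : Measurable (fun y : Torus 2 => h + y) := measurable_const_add h
    rw [Measure.map_map hmeasAdd (measurable_vec a)]
    have h1 : (fun y : Torus 2 => h + y) ∘ (fun t => (![a, t] : Torus 2)) =
        (fun t => (![a, t] : Torus 2)) ∘ (fun t => h 1 + t) := by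
      funext t
      funext i
      fin_cases i
      · change h 0 + a = a
        rw [hh0, zero_add]
      · rfl
    rw [h1, ← Measure.map_map (measurable_vec a) (measurable_const_add (h 1))]
    congr 1
    exact map_add_left_eq_self volume (h 1)

lemma volume_singleton (t : UnitAddCircle) : (volume : Measure UnitAddCircle) {t} = 0 := by
  apply le_antisymm _ zero_le
  apply ENNReal.le_of_forall_pos_le_add
  intro ε hε _
  have h1 : ({t} : Set UnitAddCircle) ⊆ Metric.closedBall t (ε / 2) := by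
    intro y hy
    rw [Set.mem_singleton_iff] at hy
    rw [hy]
    exact Metric.mem_closedBall_self (by positivity)
  refine (measure_mono h1).trans ?_
  rw [AddCircle.volume_closedBall, zero_add]
  calc ENNReal.ofReal (min 1 (2 * ((ε : ℝ) / 2))) ≤ ENNReal.ofReal ε := by
        apply ENNReal.ofReal_le_ofReal
        refine (min_le_right _ _).trans (le_of_eq ?_)
        ring
    _ = ε := ENNReal.ofReal_coe_nnreal

/-- All points `(0, t)`, `t ≠ 0`, are badly approximable targets. -/
lemma bad_vert {t : UnitAddCircle} (ht : t ≠ 0) : (![0, t] : Torus 2) ∈ Bad A := by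
  apply bad_of_far' 0 t (norm_pos_iff.2 ht) 0
  intro k _
  simp

lemma haarAt_zero_bad : haarAt 0 (Bad A)ᶜ = 0 := by
  have hsub : (Bad A)ᶜ ⊆ ({(![0, 0] : Torus 2)} ∪ {y : Torus 2 | y 0 ≠ 0}) := by
    intro y hy
    by_cases h0 : y 0 = 0
    · left
      rw [Set.mem_singleton_iff]
      by_cases h1 : y 1 = 0
      · funext i
        fin_cases i
        · exact h0
        · exact h1
      · exfalso
        apply hy
        have : y = ![0, y 1] := by
          funext i
          fin_cases i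
          · exact h0
          · rfl
        rw [this]
        exact bad_vert h1
    · right; exact h0
  refine measure_mono_null hsub ?_
  have hm1 : MeasurableSet ({(![0, 0] : Torus 2)} ∪ {y : Torus 2 | y 0 ≠ 0}) := by
    apply (measurableSet_singleton _).union
    have : {y : Torus 2 | y 0 ≠ 0} = ((fun y : Torus 2 => y 0) ⁻¹' {0})ᶜ := rfl
    rw [this]
    exact ((measurableSet_singleton 0).preimage (measurable_pi_apply 0)).compl
  unfold haarAt
  rw [Measure.map_apply (measurable_vec 0) hm1]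
  refine measure_mono_null ?_ (volume_singleton 0)
  intro t ht
  rcases ht with ht | ht
  · have := congrFun (Set.mem_singleton_iff.1 ht) 1
    exact this
  · exact absurd rfl ht

end Pool.Agent.X124.TorusExample
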