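import Mathlib
import Pool.Agent.X124.TorusExample

/-!
# Targets `(x₁, t)` hit infinitely often, and a coset on which `Bad_A` has intermediate measure
-/

namespace Pool.Agent.X124.Sweep

open MeasureTheory Pool.Agent.X124.BadTorus Pool.Agent.X124.TorusDefs Pool.Agent.X124.TorusExample

section Hit

variable {s : ℕ → ℝ} (h0 : ∀ j, 0 ≤ s j) (h1 : ∀ j, s j ≤ 1)
  (hint : ∀ j, ∃ v : ℤ, s j * Q j = v)

/-- `e_k = s_k + tail_k` -/
noncomputable def e (s : ℕ → ℝ) (k : ℕ) : ℝ := s k + tail s k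

/-- `σ_k = e_0 + ⋯ + e_k` -/
noncomputable def sig (s : ℕ → ℝ) (k : ℕ) : ℝ := ∑ j ∈ Finset.range (k + 1), e s j

include h0 in
lemma e_nonneg (k : ℕ) : 0 ≤ e s k := add_nonneg (h0 k) (tail_nonneg h0 k)

include h0 h1 in
lemma e_le (k : ℕ) : e s k ≤ s k + 2 / (Q k : ℝ) ^ 2 :=
  add_le_add le_rfl (tail_le h0 h1 k)

include h0 h1 in
lemma e_le_two (k : ℕ) : e s k ≤ 2 := by
  have h2 := e_le h0 h1 k
  have h3 := h1 k
  have h4 : 2 / (Q k : ℝ) ^ 2 ≤ 1 := by
    rw [div_le_one (by have := Q_posR k; positivity)]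
    have := Q_ge_twoR k
    nlinarith
  linarith

include h0 h1 hint in
/-- `M_k x₁ = σ_k` in the circle. -/
lemma M_smul (k : ℕ) : M k • cl (num s) = cl (sig s k) := by
  choose X hX using num_mul h0 h1 hint
  have h2 : (M k : ℝ) * num s = sig s k + ((∑ j ∈ Finset.range (k + 1), X j : ℤ) : ℝ) := by
    unfold M sig
    push_cast
    rw [Finset.sum_mul, ← Finset.sum_add_distrib]
    apply Finset.sum_congr rfl
    intro j _
    rw [hX j]
    unfold e
    ring
  have h3 : M k • cl (num s) = cl ((M k : ℝ) * num s) := by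
    have : (M k : ℝ) * num s = M k • (num s) := by rw [nsmul_eq_mul]
    rw [this]
    exact (AddCircle.coe_nsmul 1).symm
  rw [h3, h2, cl, AddCircle.coe_add]
  have h4 := cl_int (∑ j ∈ Finset.range (k + 1), X j)
  rw [cl] at h4
  rw [h4, add_zero]

set_option maxHeartbeats 4000000 in
include h0 h1 hint in
/-- **Hitting lemma.** -/
lemma hit (k : ℕ) (t : ℝ) (z : ℤ) (ht0 : 0 ≤ t - sig s k - z) (ht1 : t - sig s k - z ≤ e s (k + 1)) :
    ∃ q : ℤ, (Q (k + 1) : ℝ) ≤ q ∧
      |(q : ℝ)| ^ (1 / 2 : ℝ) * max ‖cl (q * α) - cl (num s)‖ ‖cl (q * β) - cl t‖ ≤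
        16 * Real.sqrt (2 * e s (k + 1) + 3 / Q (k + 1)) := by
  set K := k + 1 with hK
  have hQ := Q_posR K
  have hQ2 := Q_ge_twoR K
  obtain ⟨X, hX⟩ := num_mul h0 h1 hint K
  obtain ⟨p, hp, u, v, huv⟩ := exists_p K
  set E : ℝ := e s K with hE
  have hE0 : 0 ≤ E := e_nonneg h0 K
  have hE2 : E ≤ 2 := e_le_two h0 h1 K
  have hXE : (Q K : ℝ) * num s = X + E := hX
  set h : ℝ := t - sig s k - z with hh
  have hδ := δ_le K
  have hδ' := δ_ge K
  have hδ0 := δ_pos K
  -- spacing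
  set S : ℝ := M K * δ K with hS
  have hS0 : 1 / (Q K : ℝ) ≤ S := by
    calc 1 / (Q K : ℝ) = Q K * (1 / (Q K : ℝ) ^ 2) := by field_simp
      _ ≤ M K * δ K := mul_le_mul (Q_le_MR K) hδ' (by positivity) (Nat.cast_nonneg _)
  have hS1 : S ≤ 4 / Q K := by
    calc M K * δ K ≤ (2 * Q K) * (2 / (Q K : ℝ) ^ 2) :=
          mul_le_mul (M_leR K) hδ hδ0.le (by positivity)
      _ = 4 / Q K := by field_simp; norm_num
  have hSpos : 0 < S := lt_of_lt_of_le (by positivity) hS0
  set g : ℝ := h + E * M k / Q K with hg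
  have hMk : (M k : ℝ) / Q K ≤ 1 / 2 := by
    rw [div_le_iff₀ hQ]
    have h2 := M_leR k
    have h3 : (4 : ℝ) * Q k ≤ Q K := by exact_mod_cast Q_four k
    linarith
  have hg0 : 0 ≤ g := by
    have : 0 ≤ E * M k / Q K := by positivity
    linarith
  have hg1 : g ≤ 2 * E := by
    have : E * M k / Q K ≤ E * (1 / 2) := by
      rw [mul_div_assoc]
      exact mul_le_mul_of_nonneg_left hMk hE0
    linarith
  -- the residue class
  have hQZ : (0 : ℤ) < Q K := by exact_mod_cast Q_pos K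
  set q0 : ℤ := (X * u) % (Q K : ℤ) with hq0
  have hq00 : 0 ≤ q0 := Int.emod_nonneg _ hQZ.ne'
  have hq01 : q0 < Q K := Int.emod_lt_of_pos _ hQZ
  have hdiv0 : (Q K : ℤ) ∣ q0 * p - X := by
    have h2 : (Q K : ℤ) ∣ X * u - q0 := by rw [hq0]; exact Int.dvd_self_sub_emod
    have h3 : q0 * p - X = -((X * u - q0) * p) - X * v * Q K := by
      have : X = X * (u * p + v * Q K) := by rw [huv, mul_one]
      nlinarith
    rw [h3]
    exact dvd_sub ((Dvd.dvd.mul_right h2 _).neg_right) (Dvd.intro_left _ rfl)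
  set j : ℕ := ⌈g / S⌉₊ + 1 with hj
  have hj1 : g / S + 1 ≤ j := by
    rw [hj]; push_cast
    have := Nat.le_ceil (g / S)
    linarith
  have hj2 : (j : ℝ) ≤ g / S + 2 := by
    rw [hj]; push_cast
    have := (Nat.ceil_lt_add_one (div_nonneg hg0 hSpos.le)).le
    linarith
  set q : ℤ := q0 + j * Q K with hq
  have hqj : (j : ℝ) * Q K ≤ q := by
    rw [hq]; push_cast
    have : (0 : ℝ) ≤ q0 := by exact_mod_cast hq00
    linarith
  have hqj2 : (q : ℝ) ≤ (j + 1) * Q K := by
    rw [hq]; push_cast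
    have : (q0 : ℝ) ≤ Q K := by exact_mod_cast hq01.le
    linarith
  have hjone : (1 : ℝ) ≤ j := by
    have : 0 ≤ g / S := div_nonneg hg0 hSpos.le
    linarith
  have hqQ : (Q K : ℝ) ≤ q := by
    calc (Q K : ℝ) = 1 * Q K := (one_mul _).symm
      _ ≤ j * Q K := mul_le_mul_of_nonneg_right hjone hQ.le
      _ ≤ q := hqj
  have hqpos : (0 : ℝ) < q := by linarith
  -- upper bound for `q`
  have hgS : g / S ≤ g * Q K := by
    rw [div_le_iff₀ hSpos]
    have h2 : 1 ≤ Q K * S := by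
      rw [div_le_iff₀ hQ] at hS0; linarith
    nlinarith
  have hqle : (q : ℝ) ≤ (2 * E + 3 / Q K) * (Q K : ℝ) ^ 2 := by
    calc (q : ℝ) ≤ (j + 1) * Q K := hqj2
      _ ≤ (g * Q K + 3) * Q K := by
        apply mul_le_mul_of_nonneg_right _ hQ.le
        linarith
      _ ≤ (2 * E * Q K + 3) * Q K := by
        apply mul_le_mul_of_nonneg_right _ hQ.le
        nlinarith
      _ = (2 * E + 3 / Q K) * (Q K : ℝ) ^ 2 := by field_simp
  -- the integer part
  obtain ⟨I, hI⟩ : (Q K : ℤ) ∣ q * p - X := by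
    have : q * p - X = (q0 * p - X) + j * p * Q K := by rw [hq]; ring
    rw [this]
    exact dvd_add hdiv0 (Dvd.intro_left _ rfl)
  have hIR : (q : ℝ) * p - X = Q K * I := by exact_mod_cast hI
  set w : ℝ := (q * δ K - E) / Q K with hw
  have hwx : (q : ℝ) * α - num s = I + w := by
    have h2 : α = (p + δ K) / Q K := by rw [← hp]; field_simp
    have h3 : num s = (X + E) / Q K := by rw [← hXE]; field_simp
    have h4 : (I : ℝ) = (q * p - X) / Q K := by rw [hIR]; field_simp
    rw [h2, h3, h4, hw]; field_simp; ring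
  -- the error
  set err : ℝ := S * (q / Q K) - g with herr
  have herr0 : 0 ≤ err := by
    have h2 : (j : ℝ) ≤ q / Q K := by rw [le_div_iff₀ hQ]; exact hqj
    have h3 : S * (g / S + 1) ≤ S * (q / Q K) :=
      mul_le_mul_of_nonneg_left (hj1.trans h2) hSpos.le
    have h4 : S * (g / S + 1) = g + S := by field_simp
    linarith
  have herr1 : err ≤ 12 / Q K := by
    have h2 : (q : ℝ) / Q K ≤ j + 1 := by rw [div_le_iff₀ hQ]; exact hqj2
    have h3 : S * (q / Q K) ≤ S * (g / S + 3) := by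
      apply mul_le_mul_of_nonneg_left _ hSpos.le
      linarith
    have h4 : S * (g / S + 3) = g + 3 * S := by field_simp
    have h5 : 3 * S ≤ 12 / Q K := by
      calc 3 * S ≤ 3 * (4 / Q K) := by linarith
        _ = 12 / Q K := by ring
    linarith
  have hMw : M K * w = h - E + err := by
    have h2 : (M K : ℝ) = M k + Q K := by exact_mod_cast M_succ k
    have h3 : M K * w = S * (q / Q K) - E * (M K / Q K) := by
      rw [hw, hS]; field_simp
    have h4 : (M K : ℝ) / Q K = M k / Q K + 1 := by rw [h2]; field_simp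
    rw [h3, h4, herr, hg]
    ring
  have hwabs : |w| ≤ 14 / Q K := by
    have h2 : |M K * w| ≤ E + 12 / Q K := by
      rw [hMw, abs_le]
      constructor
      · have : 0 ≤ 12 / (Q K : ℝ) := by positivity
        linarith
      · linarith
    have h3 : 12 / (Q K : ℝ) ≤ 12 := by
      rw [div_le_iff₀ hQ]; linarith
    rw [abs_mul, Nat.abs_cast] at h2
    have h4 : (Q K : ℝ) * |w| ≤ M K * |w| := mul_le_mul_of_nonneg_right (Q_le_MR K) (abs_nonneg _)
    rw [le_div_iff₀ hQ]
    linarith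
  have hx : ‖cl (q * α) - cl (num s)‖ ≤ 16 / Q K := by
    have h2 : cl (q * α) - cl (num s) = cl ((q : ℝ) * α - num s) := by
      simp only [cl, AddCircle.coe_sub]
    rw [h2]
    refine (norm_cl_le_int _ I).trans ?_
    rw [hwx]
    have h3 : (I : ℝ) + w - I = w := by ring
    rw [h3]
    refine hwabs.trans ?_
    exact div_le_div_of_nonneg_right (by norm_num) hQ.le
  have hy : ‖cl (q * β) - cl t‖ ≤ 16 / Q K := by
    have h2 : cl (q * α) = cl (num s) + cl w := by
      have : (q : ℝ) * α = num s + w + I := by linarith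
      rw [this]
      simp only [cl, AddCircle.coe_add]
      have h3 := cl_int I
      rw [cl] at h3
      rw [h3, add_zero]
    have h3 : cl (q * β) - cl t = cl (err + q * ρ K) := by
      rw [circle_rel q K, h2, smul_add, M_smul h0 h1 hint K]
      have h4 : M K • cl w = cl (M K * w) := by
        have : (M K : ℝ) * w = M K • w := by rw [nsmul_eq_mul]
        rw [this]
        exact (AddCircle.coe_nsmul 1).symm
      rw [h4, hMw]
      have h5 : cl t = cl (h + sig s k) := by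
        have : t = h + sig s k + z := by rw [hh]; ring
        rw [this]
        simp only [cl, AddCircle.coe_add]
        have h3 := cl_int z
        rw [cl] at h3
        rw [h3, add_zero]
      rw [h5]
      have h6 : sig s K = sig s k + E := by
        unfold sig; rw [Finset.sum_range_succ _ (k + 1)]
      rw [h6]
      simp only [← AddCircle.coe_add, ← AddCircle.coe_sub, cl]
      congr 1
      ring
    rw [h3]
    refine (norm_cl_le _).trans ?_
    have hρ0 := ρ_nonneg K
    have h4 : (q : ℝ) * ρ K ≤ 4 / Q K := by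
      have h5 : (q : ℝ) ≤ 6 * (Q K : ℝ) ^ 2 := by
        refine hqle.trans ?_
        apply mul_le_mul_of_nonneg_right _ (by positivity)
        have : 3 / (Q K : ℝ) ≤ 2 := by rw [div_le_iff₀ hQ]; linarith
        linarith
      calc (q : ℝ) * ρ K ≤ 6 * (Q K : ℝ) ^ 2 * (4 / (Q (K + 1) : ℝ) ^ 2) :=
            mul_le_mul h5 (ρ_le K) hρ0 (by positivity)
        _ = 24 / (Q K : ℝ) ^ 4 := by
          have h7 := Q_succR K
          rw [h7]; field_simp; norm_num
        _ ≤ 4 / Q K := by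
          rw [div_le_div_iff₀ (by positivity) hQ]
          have h6 : (2 : ℝ) ^ 3 ≤ (Q K : ℝ) ^ 3 := pow_le_pow_left₀ (by norm_num) hQ2 3
          nlinarith
    rw [abs_of_nonneg (add_nonneg herr0 (mul_nonneg hqpos.le hρ0))]
    calc err + q * ρ K ≤ 12 / Q K + 4 / Q K := add_le_add herr1 h4
      _ = 16 / Q K := by ring
  refine ⟨q, hqQ, ?_⟩
  rw [abs_of_pos hqpos, ← Real.sqrt_eq_rpow]
  have h2 : Real.sqrt q ≤ Real.sqrt (2 * E + 3 / Q K) * Q K := by
    rw [Real.sqrt_le_left (by positivity), mul_pow, Real.sq_sqrt (by positivity)]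
    exact hqle
  calc Real.sqrt q * max ‖cl (q * α) - cl (num s)‖ ‖cl (q * β) - cl t‖
      ≤ (Real.sqrt (2 * E + 3 / Q K) * Q K) * (16 / Q K) :=
        mul_le_mul h2 (max_le hx hy) (le_max_of_le_left (norm_nonneg _)) (by positivity)
    _ = 16 * Real.sqrt (2 * E + 3 / Q K) := by field_simp

include h0 h1 hint in
/-- Targets crossed infinitely often by small steps are not badly approximable. -/
lemma not_bad_of_hit (t : ℝ)
    (h : ∀ (k₀ : ℕ) (η : ℝ), 0 < η → ∃ k ≥ k₀, e s (k + 1) ≤ η ∧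
      ∃ z : ℤ, 0 ≤ t - sig s k - z ∧ t - sig s k - z ≤ e s (k + 1)) :
    (![cl (num s), cl t] : Torus 2) ∉ Bad A := by
  rintro ⟨c, hc, R, hR⟩
  set η : ℝ := (c / 17) ^ 2 / 4 with hη
  have hη0 : 0 < η := by positivity
  obtain ⟨k₀, hk₀⟩ := pow_unbounded_of_one_lt (max R (3 / (2 * η))) (show (1 : ℝ) < 2 by norm_num)
  obtain ⟨k, hk, he, z, hz0, hz1⟩ := h k₀ η hη0
  obtain ⟨q, hq, hle⟩ := hit h0 h1 hint k t z hz0 hz1
  have hQbig : max R (3 / (2 * η)) < Q (k + 1) := by
    have h2 : (2 : ℝ) ^ (k + 2) ≤ Q (k + 1) := by exact_mod_cast Q_ge (k + 1)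
    have h3 : (2 : ℝ) ^ k₀ ≤ 2 ^ (k + 2) := pow_le_pow_right₀ (by norm_num) (by omega)
    linarith
  have hQ := Q_posR (k + 1)
  have hRq : R ≤ q := (le_max_left _ _).trans (hQbig.le.trans hq)
  have hqpos : (0 : ℝ) < q := lt_of_lt_of_le hQ hq
  have h2 := hR (fun _ => q) (by rw [size_eq, abs_of_pos hqpos]; exact hRq)
  rw [norm_sub_eq, half, size_eq] at h2
  simp only [Matrix.cons_val_zero, Matrix.cons_val_one] at h2
  have h3 : 3 / (Q (k + 1) : ℝ) ≤ 2 * η := by
    have h4 : 3 / (2 * η) < Q (k + 1) := lt_of_le_of_lt (le_max_right _ _) hQbig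
    rw [div_lt_iff₀ (by positivity)] at h4
    rw [div_le_iff₀ hQ]
    linarith
  have h4 : Real.sqrt (2 * e s (k + 1) + 3 / Q (k + 1)) ≤ c / 17 := by
    rw [Real.sqrt_le_left (by positivity)]
    have : (c / 17) ^ 2 = 4 * η := by rw [hη]; ring
    rw [this]
    linarith
  have h5 : c ≤ 16 * (c / 17) := h2.trans (hle.trans (by linarith))
  linarith

end Hit

end Pool.Agent.X124.Sweep
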