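import Mathlib
import Pool.Agent.X124.Sweep

/-!
# The sequence `s` and the coset `cl (num s) + vertical circle`
-/

namespace Pool.Agent.X124.SweepSeq

open MeasureTheory Filter Topology Pool.Agent.X124.BadTorus Pool.Agent.X124.TorusDefs
open Pool.Agent.X124.TorusExample Pool.Agent.X124.Sweep

/-- the step `r_k`, a multiple of `1 / Q_k` close to `1 / (k + 4)` -/
noncomputable def r (k : ℕ) : ℝ := ((Q k / (k + 4) : ℕ) : ℝ) / Q k

/-- the position after `k` steps -/
noncomputable def y : ℕ → ℝ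
  | 0 => 0
  | k + 1 => if y k < 1 / 4 then y k + r (k + 1) else y k - 1 / 4

/-- the steps modulo one -/
noncomputable def s : ℕ → ℝ
  | 0 => 0
  | k + 1 => if y k < 1 / 4 then r (k + 1) else 3 / 4

lemma y_succ (k : ℕ) : y (k + 1) = if y k < 1 / 4 then y k + r (k + 1) else y k - 1 / 4 := rfl

lemma s_succ (k : ℕ) : s (k + 1) = if y k < 1 / 4 then r (k + 1) else 3 / 4 := rfl

lemma r_nonneg (k : ℕ) : 0 ≤ r k := by unfold r; have := Q_posR k; positivity

lemma r_le (k : ℕ) : r k ≤ 1 / ((k : ℝ) + 4) := by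
  unfold r
  have hQ := Q_posR k
  rw [div_le_div_iff₀ hQ (by positivity), one_mul]
  have h : Q k / (k + 4) * (k + 4) ≤ Q k := Nat.div_mul_le_self _ _
  exact_mod_cast h

lemma r_le_quarter (k : ℕ) : r k ≤ 1 / 4 := by
  refine (r_le k).trans ?_
  apply one_div_le_one_div_of_le (by norm_num)
  have : (0 : ℝ) ≤ k := Nat.cast_nonneg k
  linarith

lemma Q_ge_lin (k : ℕ) (hk : 2 ≤ k) : 2 * (k + 4) ≤ Q k := by
  induction k, hk using Nat.le_induction with
  | base => unfold Q; norm_num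
  | succ k _ ih =>
    have := Q_four k
    omega

lemma r_ge (k : ℕ) (hk : 2 ≤ k) : 1 / (2 * ((k : ℝ) + 4)) ≤ r k := by
  unfold r
  have hQ := Q_posR k
  rw [div_le_div_iff₀ (by positivity) hQ, one_mul]
  have h1 : Q k < (Q k / (k + 4) + 1) * (k + 4) := by
    rw [mul_comm]; exact Nat.lt_mul_div_succ _ (by omega)
  have h2 := Q_ge_lin k hk
  have h3 : Q k ≤ Q k / (k + 4) * (2 * (k + 4)) := by nlinarith
  exact_mod_cast h3

lemma y_nonneg (k : ℕ) : 0 ≤ y k := by
  induction k with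
  | zero => exact le_rfl
  | succ k ih =>
    rw [y_succ]
    split_ifs with h
    · have := r_nonneg (k + 1); linarith
    · push Not at h; linarith

lemma y_le (k : ℕ) : y k ≤ 1 / 4 + 1 / ((k : ℝ) + 4) := by
  induction k with
  | zero => unfold y; norm_num
  | succ k ih =>
    rw [y_succ]
    split_ifs with h
    · have := r_le (k + 1); linarith
    · have h2 : 1 / ((k : ℝ) + 4) ≤ 1 / 4 := by
        apply one_div_le_one_div_of_le (by norm_num)
        have : (0 : ℝ) ≤ k := Nat.cast_nonneg k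
        linarith
      have h3 : 0 ≤ 1 / (((k + 1 : ℕ) : ℝ) + 4) := by positivity
      linarith

lemma y_le_half (k : ℕ) : y k ≤ 1 / 2 := by
  have h2 : 1 / ((k : ℝ) + 4) ≤ 1 / 4 := by
    apply one_div_le_one_div_of_le (by norm_num)
    have : (0 : ℝ) ≤ k := Nat.cast_nonneg k
    linarith
  linarith [y_le k]

lemma s_nonneg (k : ℕ) : 0 ≤ s k := by
  cases k with
  | zero => exact le_rfl
  | succ k =>
    rw [s_succ]
    split_ifs with h
    · exact r_nonneg _
    · norm_num

lemma s_le (k : ℕ) : s k ≤ 1 := by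
  cases k with
  | zero => exact zero_le_one
  | succ k =>
    rw [s_succ]
    split_ifs with h
    · linarith [r_le_quarter (k + 1)]
    · norm_num

lemma s_int (j : ℕ) : ∃ v : ℤ, s j * Q j = v := by
  cases j with
  | zero => exact ⟨0, by simp [s]⟩
  | succ k =>
    rw [s_succ]
    split_ifs with h
    · refine ⟨((Q (k + 1) / (k + 1 + 4) : ℕ) : ℤ), ?_⟩
      unfold r
      have hQ := (Q_posR (k + 1)).ne'
      field_simp
      push_cast
      rfl
    · have h4 : 4 ∣ Q (k + 1) := by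
        have h5 : 2 ∣ Q k := by
          unfold Q
          exact dvd_pow_self 2 (by positivity)
        rw [Q_succ]
        obtain ⟨c, hc⟩ := h5
        rw [hc]
        exact ⟨2 * c ^ 3, by ring⟩
      obtain ⟨c, hc⟩ := h4
      refine ⟨3 * c, ?_⟩
      rw [hc]
      push_cast
      ring

lemma sum_s (k : ℕ) : ∃ n : ℤ, ∑ j ∈ Finset.range (k + 1), s j = y k + n := by
  induction k with
  | zero => exact ⟨0, by simp [s, y]⟩
  | succ k ih =>
    obtain ⟨n, hn⟩ := ih
    rw [Finset.sum_range_succ, hn, s_succ, y_succ]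
    split_ifs with h
    · exact ⟨n, by ring⟩
    · exact ⟨n + 1, by push_cast; ring⟩

lemma tail_geo (k : ℕ) : tail s k ≤ (1 / 4) ^ k := by
  refine (tail_le s_nonneg s_le k).trans ?_
  have h1 : (2 : ℝ) ^ (k + 1) ≤ Q k := by exact_mod_cast Q_ge k
  have h2 : ((2 : ℝ) ^ (k + 1)) ^ 2 ≤ (Q k : ℝ) ^ 2 := pow_le_pow_left₀ (by positivity) h1 2
  have h3 : ((2 : ℝ) ^ (k + 1)) ^ 2 = 4 * 4 ^ k := by
    rw [← pow_mul, mul_comm, pow_mul]; norm_num; ring
  rw [h3] at h2
  rw [div_pow, one_pow, div_le_div_iff₀ (by have := Q_posR k; positivity) (by positivity)]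
  have : (0 : ℝ) < 4 ^ k := by positivity
  linarith

lemma tail_summable' : Summable (fun j => tail s j) :=
  Summable.of_nonneg_of_le (fun j => tail_nonneg s_nonneg j) tail_geo summable_geo

/-- the total drift -/
noncomputable def T : ℝ := ∑' j, tail s j

/-- the remaining drift -/
noncomputable def R (k : ℕ) : ℝ := ∑' j, tail s (j + (k + 1))

lemma R_nonneg (k : ℕ) : 0 ≤ R k := tsum_nonneg fun _ => tail_nonneg s_nonneg _

lemma R_tendsto : Tendsto R atTop (𝓝 0) := by
  have h := tendsto_sum_nat_add (fun j => tail s j)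
  have h2 := (tendsto_add_atTop_iff_nat (f := fun i => ∑' k, tail s (k + i)) 1).2 h
  exact h2

lemma R_eq (k : ℕ) : R k = tail s (k + 1) + R (k + 1) := by
  unfold R
  have h := ((summable_nat_add_iff (k + 1)).2 tail_summable').sum_add_tsum_nat_add 1
  rw [Finset.sum_range_one, zero_add] at h
  rw [← h]
  congr 1
  apply tsum_congr
  intro j
  congr 1
  ring

lemma sig_eq (k : ℕ) : ∃ n : ℤ, sig s k = y k + n + T - R k := by
  obtain ⟨n, hn⟩ := sum_s k
  refine ⟨n, ?_⟩
  unfold sig e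
  rw [Finset.sum_add_distrib, hn]
  have h := tail_summable'.sum_add_tsum_nat_add (k + 1)
  unfold T R
  rw [← h]
  ring

/-! ### Divergence: the position reaches `1/4` again and again -/

lemma reach (k₀ : ℕ) : ∃ k ≥ k₀, 1 / 4 ≤ y k := by
  by_contra hcon
  push Not at hcon
  set k₁ := k₀ + 2 with hk₁
  set H : ℕ → ℝ := fun n => ∑ i ∈ Finset.range n, 1 / ((i : ℝ) + 1) with hH
  have hH' : Tendsto H atTop atTop := Real.tendsto_sum_range_one_div_nat_succ_atTop
  have hind : ∀ n, (H (k₁ + n + 4) - H (k₁ + 4)) / 2 ≤ y (k₁ + n) := by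
    intro n
    induction n with
    | zero => simp only [add_zero, sub_self, zero_div]; exact y_nonneg _
    | succ n ih =>
      have h1 := hcon (k₁ + n) (by omega)
      have h2 : y (k₁ + (n + 1)) = y (k₁ + n) + r (k₁ + n + 1) := by
        rw [← add_assoc, y_succ, if_pos h1]
      have h3 : H (k₁ + (n + 1) + 4) = H (k₁ + n + 4) + 1 / (((k₁ + n + 4 : ℕ) : ℝ) + 1) := by
        have : k₁ + (n + 1) + 4 = (k₁ + n + 4) + 1 := by ring
        rw [this, hH]
        simp only []
        rw [Finset.sum_range_succ]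
      have h4 := r_ge (k₁ + n + 1) (by omega)
      have h5 : 1 / (2 * (((k₁ + n + 1 : ℕ) : ℝ) + 4)) = 1 / (((k₁ + n + 4 : ℕ) : ℝ) + 1) / 2 := by
        push_cast
        rw [div_div]
        congr 1
        ring
      rw [h5] at h4
      rw [h2, h3]
      linarith
  obtain ⟨n, hn, hn2⟩ := (hH'.eventually_ge_atTop (H (k₁ + 4) + 2)).and
    (eventually_ge_atTop (k₁ + 4)) |>.exists
  have h6 := hind (n - (k₁ + 4))
  have h7 : k₁ + (n - (k₁ + 4)) + 4 = n := by omega
  rw [h7] at h6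
  have h8 := y_le_half (k₁ + (n - (k₁ + 4)))
  linarith

/-- crossings of the level `t'` -/
lemma crossing {t' : ℝ} (ht0 : 0 < t') (ht1 : t' < 1 / 4) (k₀ : ℕ) :
    ∃ k ≥ k₀, y k < 1 / 4 ∧ y k - R k ≤ t' ∧ t' ≤ y (k + 1) - R (k + 1) := by
  -- a threshold
  have hR : ∀ᶠ k in atTop, R k < 1 / 4 - t' :=
    R_tendsto.eventually_lt_const (by linarith)
  have hone : Tendsto (fun k : ℕ => 1 / ((k : ℝ) + 4)) atTop (𝓝 0) := by
    have h := (tendsto_const_div_atTop_nhds_zero_nat (1 : ℝ))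
    have h2 := (tendsto_add_atTop_iff_nat (f := fun n : ℕ => (1 : ℝ) / n) 4).2 h
    refine h2.congr fun n => ?_
    push_cast; rfl
  have hy : ∀ᶠ k : ℕ in atTop, 1 / ((k : ℝ) + 4) < t' := hone.eventually_lt_const ht0
  obtain ⟨k₁, hk₁⟩ := eventually_atTop.1 (hR.and hy)
  obtain ⟨b, hb, hyb⟩ := reach (max k₀ k₁)
  have hb0 : k₀ ≤ b := (le_max_left _ _).trans hb
  have hb1 : k₁ ≤ b := (le_max_right _ _).trans hb
  have hya : y (b + 1) ≤ 1 / ((b : ℝ) + 4) := by
    rw [y_succ, if_neg (not_lt.2 hyb)]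
    linarith [y_le b]
  have hza : y (b + 1) - R (b + 1) < t' := by
    have := (hk₁ b hb1).2
    have := R_nonneg (b + 1)
    linarith
  classical
  have hex : ∃ n, 1 / 4 ≤ y (b + 1 + n) := by
    obtain ⟨k, hk, hk2⟩ := reach (b + 1)
    exact ⟨k - (b + 1), by rwa [show b + 1 + (k - (b + 1)) = k by omega]⟩
  have hN := Nat.find_spec hex
  have hNmin : ∀ m < Nat.find hex, y (b + 1 + m) < 1 / 4 := fun m hm => by
    have := Nat.find_min hex hm
    push Not at this
    exact this
  set N := Nat.find hex with hNdef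
  have hex2 : ∃ n, t' ≤ y (b + 1 + n) - R (b + 1 + n) :=
    ⟨N, by have := (hk₁ (b + 1 + N) (by omega)).1; linarith⟩
  have hm := Nat.find_spec hex2
  have hmmin : ∀ m < Nat.find hex2, y (b + 1 + m) - R (b + 1 + m) < t' := fun m hm => by
    have := Nat.find_min hex2 hm
    push Not at this
    exact this
  have hmN : Nat.find hex2 ≤ N := Nat.find_min' hex2 (by
    have := (hk₁ (b + 1 + N) (by omega)).1; linarith)
  set m := Nat.find hex2 with hmdef
  have hmpos : 0 < m := by
    rcases Nat.eq_zero_or_pos m with h0 | h0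
    · exfalso
      rw [h0, add_zero] at hm
      linarith
    · exact h0
  refine ⟨b + 1 + (m - 1), by omega, hNmin _ (by omega), (hmmin _ (by omega)).le, ?_⟩
  rwa [show b + 1 + (m - 1) + 1 = b + 1 + m by omega]

/-- Targets with `t' ∈ (0, 1/4)` are not badly approximable. -/
lemma not_bad {t' : ℝ} (ht0 : 0 < t') (ht1 : t' < 1 / 4) :
    (![cl (num s), cl (T + t')] : Torus 2) ∉ Bad A := by
  apply not_bad_of_hit s_nonneg s_le s_int
  intro k₀ η hη
  obtain ⟨k₁, hk₁⟩ := exists_nat_gt (2 / η)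
  obtain ⟨k, hk, hyk, hz0, hz1⟩ := crossing ht0 ht1 (max k₀ k₁)
  have hk0 : k₀ ≤ k := (le_max_left _ _).trans hk
  have hk1 : k₁ ≤ k := (le_max_right _ _).trans hk
  have hs : s (k + 1) = r (k + 1) := by rw [s_succ, if_pos hyk]
  have hyy : y (k + 1) = y k + r (k + 1) := by rw [y_succ, if_pos hyk]
  refine ⟨k, hk0, ?_, ?_⟩
  · have h1 : e s (k + 1) ≤ r (k + 1) + 2 / (Q (k + 1) : ℝ) ^ 2 := by
      rw [← hs]; exact e_le s_nonneg s_le (k + 1)
    have h2 := r_le (k + 1)
    have hQ := Q_posR (k + 1)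
    have h3 : (k : ℝ) + 5 ≤ Q (k + 1) := by
      have h4 : k + 5 ≤ Q (k + 1) := by
        rcases Nat.eq_zero_or_pos k with h0 | h0
        · rw [h0]; unfold Q; norm_num
        · have := Q_ge_lin (k + 1) (by omega)
          omega
      exact_mod_cast h4
    have h4 : 2 / (Q (k + 1) : ℝ) ^ 2 ≤ 1 / (k + 5) := by
      rw [div_le_div_iff₀ (by positivity) (by positivity)]
      have h5 : (2 : ℝ) ≤ Q (k + 1) := Q_ge_twoR _
      nlinarith
    have h5 : r (k + 1) ≤ 1 / (k + 5) := by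
      refine h2.trans (le_of_eq ?_)
      push_cast; congr 1; ring
    have h6 : 2 / η < k + 5 := by
      have : (k₁ : ℝ) ≤ k := by exact_mod_cast hk1
      linarith
    have h7 : 2 / ((k : ℝ) + 5) ≤ η := by
      rw [div_lt_iff₀ hη] at h6
      rw [div_le_iff₀ (by positivity)]
      linarith
    calc e s (k + 1) ≤ 1 / (k + 5) + 1 / (k + 5) := by linarith
      _ = 2 / ((k : ℝ) + 5) := by ring
      _ ≤ η := h7
  · obtain ⟨n, hn⟩ := sig_eq k
    refine ⟨-n, ?_, ?_⟩
    · rw [hn]; push_cast; linarith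
    · rw [hn]
      unfold e
      rw [hs]
      have := R_eq k
      push_cast
      linarith

/-- The norm of the class of a number well inside `(0, 1)`. -/
lemma norm_cl_ge {w d : ℝ} (h0 : d ≤ w) (h1 : w ≤ 1 - d) : d ≤ ‖cl w‖ := by
  have h2 := AddCircle.norm_eq (p := 1) (x := w)
  rw [h2]
  simp only [inv_one, one_mul, mul_one]
  rcases le_or_gt (round w) 0 with h | h
  · have h3 : ((round w : ℤ) : ℝ) ≤ 0 := by exact_mod_cast h
    refine le_trans ?_ (le_abs_self _)
    linarith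
  · have h3 : (1 : ℝ) ≤ ((round w : ℤ) : ℝ) := by exact_mod_cast h
    refine le_trans ?_ (neg_le_abs _)
    linarith

/-- Targets with `t' ∈ (1/4, 1)` are badly approximable. -/
lemma bad {t' : ℝ} (ht0 : 1 / 4 < t') (ht1 : t' < 1) :
    (![cl (num s), cl (T + t')] : Torus 2) ∈ Bad A := by
  have hR : ∀ᶠ k in atTop, R k < (1 - t') / 2 :=
    R_tendsto.eventually_lt_const (by linarith)
  have hone : Tendsto (fun k : ℕ => 1 / ((k : ℝ) + 4)) atTop (𝓝 0) := by
    have h := (tendsto_const_div_atTop_nhds_zero_nat (1 : ℝ))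
    have h2 := (tendsto_add_atTop_iff_nat (f := fun n : ℕ => (1 : ℝ) / n) 4).2 h
    refine h2.congr fun n => ?_
    push_cast; rfl
  have hy : ∀ᶠ k : ℕ in atTop, 1 / ((k : ℝ) + 4) < (t' - 1 / 4) / 2 :=
    hone.eventually_lt_const (by linarith)
  obtain ⟨k₁, hk₁⟩ := eventually_atTop.1 (hR.and hy)
  set d : ℝ := min ((t' - 1 / 4) / 2) ((1 - t') / 2) with hd
  have hd0 : 0 < d := lt_min (by linarith) (by linarith)
  have hd1 : d ≤ (t' - 1 / 4) / 2 := min_le_left _ _
  have hd2 : d ≤ (1 - t') / 2 := min_le_right _ _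
  apply bad_of_far' (cl (num s)) (cl (T + t')) hd0 k₁
  intro k hk
  rw [M_smul s_nonneg s_le s_int k]
  obtain ⟨n, hn⟩ := sig_eq k
  have h1 : cl (T + t') - cl (sig s k) = cl (t' + R k - y k) := by
    have h2 : cl (T + t') - cl (sig s k) = cl (T + t' - sig s k) := by
      simp only [cl, AddCircle.coe_sub]
    rw [h2, hn]
    have h3 : T + t' - (y k + n + T - R k) = (t' + R k - y k) - n := by ring
    rw [h3, cl, AddCircle.coe_sub]
    have h4 := cl_int n
    rw [cl] at h4
    rw [h4, sub_zero]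
  rw [h1]
  obtain ⟨hRk, hyk⟩ := hk₁ k hk
  apply norm_cl_ge
  · have := y_le k
    have := R_nonneg k
    linarith
  · have := y_nonneg k
    linarith

/-! ### Measures -/

lemma exists_rep (v : UnitAddCircle) : ∃ u : ℝ, cl u = v ∧ |u| = ‖v‖ := by
  obtain ⟨x, rfl⟩ := QuotientAddGroup.mk_surjective v
  refine ⟨x - round x, ?_, ?_⟩
  · rw [cl, AddCircle.coe_sub]
    have h4 := cl_int (round x)
    rw [cl] at h4
    rw [h4, sub_zero]
  · have h2 := AddCircle.norm_eq (p := 1) (x := x)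
    simp only [inv_one, one_mul, mul_one] at h2
    exact h2.symm

lemma mem_ball_rep {c d : ℝ} {t : UnitAddCircle} (ht : t ∈ Metric.closedBall (cl c) d) :
    ∃ u : ℝ, t = cl (c + u) ∧ |u| ≤ d := by
  obtain ⟨u, hu, hu2⟩ := exists_rep (t - cl c)
  refine ⟨u, ?_, ?_⟩
  · rw [cl, AddCircle.coe_add]
    rw [cl] at hu
    rw [hu]; abel
  · rw [hu2, ← dist_eq_norm]
    exact ht

lemma measurableSet_bad {m n : ℕ} (B : Matrix (Fin m) (Fin n) ℝ) : MeasurableSet (Bad B) := by
  have h : Bad B = ⋃ c : ℕ, ⋃ N : ℕ, ⋂ q : Fin n → ℤ, {η : Torus m | (N : ℝ) ≤ size q →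
      1 / ((c : ℝ) + 1) ≤ size q ^ ((n : ℝ) / m) * ‖mulInt B q - η‖} := by
    ext η
    simp only [Set.mem_iUnion, Set.mem_iInter]
    constructor
    · rintro ⟨c, hc, R, hR⟩
      obtain ⟨c', hc'⟩ := exists_nat_one_div_lt hc
      obtain ⟨N, hN⟩ := exists_nat_ge R
      exact ⟨c', N, fun q hq => hc'.le.trans (hR q (hN.trans hq))⟩
    · rintro ⟨c, N, h⟩
      exact ⟨1 / ((c : ℝ) + 1), by positivity, N, h⟩
  rw [h]
  refine MeasurableSet.iUnion fun c => MeasurableSet.iUnion fun N => MeasurableSet.iInter fun q => ?_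
  by_cases hq : (N : ℝ) ≤ size q
  · have : {η : Torus m | (N : ℝ) ≤ size q →
      1 / ((c : ℝ) + 1) ≤ size q ^ ((n : ℝ) / m) * ‖mulInt B q - η‖} =
      {η : Torus m | 1 / ((c : ℝ) + 1) ≤ size q ^ ((n : ℝ) / m) * ‖mulInt B q - η‖} := by
      ext η
      exact ⟨fun h => h hq, fun h _ => h⟩
    rw [this]
    have hcont : Continuous (fun η : Torus m => size q ^ ((n : ℝ) / m) * ‖mulInt B q - η‖) := by
      fun_prop
    exact (isClosed_le continuous_const hcont).measurableSet
  · have : {η : Torus m | (N : ℝ) ≤ size q →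
      1 / ((c : ℝ) + 1) ≤ size q ^ ((n : ℝ) / m) * ‖mulInt B q - η‖} = Set.univ := by
      ext η
      exact ⟨fun _ => trivial, fun _ h => absurd h hq⟩
    rw [this]
    exact MeasurableSet.univ

/-- the measure -/
noncomputable def μ : Measure (Torus 2) := haarAt (cl (num s))

lemma mu_pos : 0 < μ (Bad A) := by
  unfold μ haarAt
  rw [Measure.map_apply (measurable_vec _) (measurableSet_bad A)]
  have h1 : Metric.closedBall (cl (T + 5 / 8)) (1 / 8) ⊆
      (fun t => (![cl (num s), t] : Torus 2)) ⁻¹' (Bad A) := by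
    intro t ht
    obtain ⟨u, hu, hu2⟩ := mem_ball_rep ht
    rw [abs_le] at hu2
    rw [Set.mem_preimage, hu, show T + 5 / 8 + u = T + (5 / 8 + u) by ring]
    exact bad (by linarith) (by linarith)
  refine lt_of_lt_of_le ?_ (measure_mono h1)
  rw [AddCircle.volume_closedBall]
  rw [ENNReal.ofReal_pos]
  norm_num

lemma mu_lt : μ (Bad A) < 1 := by
  unfold μ haarAt
  rw [Measure.map_apply (measurable_vec _) (measurableSet_bad A)]
  have := prob_circle
  have h1 : (fun t => (![cl (num s), t] : Torus 2)) ⁻¹' (Bad A) ⊆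
      (Metric.closedBall (cl (T + 1 / 8)) (1 / 16))ᶜ := by
    intro t ht hmem
    obtain ⟨u, hu, hu2⟩ := mem_ball_rep hmem
    rw [abs_le] at hu2
    rw [Set.mem_preimage, hu, show T + 1 / 8 + u = T + (1 / 8 + u) by ring] at ht
    exact not_bad (by linarith) (by linarith) ht
  refine lt_of_le_of_lt (measure_mono h1) ?_
  rw [prob_compl_eq_one_sub Metric.isClosed_closedBall.measurableSet]
  apply ENNReal.sub_lt_self ENNReal.one_ne_top one_ne_zero
  rw [AddCircle.volume_closedBall]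
  apply ne_of_gt
  rw [ENNReal.ofReal_pos]
  norm_num

end Pool.Agent.X124.SweepSeq
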