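import Mathlib
import Pool.Agent.Y406.SG.Liou

/-!
# A real algebraic number of large degree, with Liouville's inequality
-/

namespace Pool.Agent.X124.Alg

open Polynomial

lemma irr_int {D : ℕ} (hD : 1 ≤ D) : Irreducible (X ^ D - C (2 : ℤ) : ℤ[X]) := by
  have hmon : (X ^ D - C (2 : ℤ) : ℤ[X]).Monic := monic_X_pow_sub_C 2 (by omega)
  have hp : (Ideal.span {(2 : ℤ)}).IsPrime := by
    rw [Ideal.span_singleton_prime (by norm_num)]
    exact Int.prime_two
  have hdeg : (X ^ D - C (2 : ℤ) : ℤ[X]).degree = D := degree_X_pow_sub_C (by omega) 2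
  apply irreducible_of_eisenstein_criterion hp
  · rw [hmon.leadingCoeff, Ideal.mem_span_singleton]
    norm_num
  · intro n hn
    rw [hdeg] at hn
    have hn' : n < D := by exact_mod_cast hn
    rw [coeff_sub, coeff_X_pow, coeff_C, if_neg (by omega)]
    split_ifs
    · rw [Ideal.mem_span_singleton]; norm_num
    · simp
  · rw [hdeg]; exact_mod_cast hD
  · rw [coeff_sub, coeff_X_pow, coeff_C, if_neg (by omega), if_pos rfl, Ideal.span_singleton_pow,
      Ideal.mem_span_singleton]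
    norm_num
  · exact hmon.isPrimitive

lemma irr_rat {D : ℕ} (hD : 1 ≤ D) : Irreducible (X ^ D - C (2 : ℚ) : ℚ[X]) := by
  have h := irr_int hD
  have hmon : (X ^ D - C (2 : ℤ) : ℤ[X]).Monic := monic_X_pow_sub_C 2 (by omega)
  have h2 := (IsPrimitive.Int.irreducible_iff_irreducible_map_cast hmon.isPrimitive).1 h
  rw [Polynomial.map_sub, Polynomial.map_pow, map_X, map_C] at h2
  exact_mod_cast h2

theorem exists_alpha (D : ℕ) (hD : 1 ≤ D) : ∃ (α K : ℝ) (κ : ℕ), 1 ≤ α ∧ α ≤ 2 ∧ α ^ D = 2 ∧ 1 ≤ K ∧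
    (∀ Q : ℚ[X], Q ≠ 0 → Q.natDegree < D → aeval α Q ≠ 0) ∧
    (∀ Q : ℤ[X], Q ≠ 0 → Q.natDegree < D → ∀ H : ℝ, (∀ l, (|Q.coeff l| : ℝ) ≤ H) →
      1 ≤ K * H ^ κ * |aeval α Q|) := by
  set α : ℝ := (2 : ℝ) ^ ((1 : ℝ) / D) with hα
  have hD0 : (D : ℝ) ≠ 0 := by exact_mod_cast (by omega : D ≠ 0)
  have hpow : α ^ D = 2 := by
    rw [hα, ← Real.rpow_natCast, ← Real.rpow_mul (by norm_num), one_div, inv_mul_cancel₀ hD0,
      Real.rpow_one]
  have h1 : 1 ≤ α := Real.one_le_rpow (by norm_num) (by positivity)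
  have h2 : α ≤ 2 := by
    have : α ≤ (2 : ℝ) ^ (1 : ℝ) := by
      apply Real.rpow_le_rpow_of_exponent_le (by norm_num)
      rw [div_le_one (by positivity)]
      exact_mod_cast hD
    simpa using this
  have hroot : aeval α (X ^ D - C (2 : ℚ) : ℚ[X]) = 0 := by simp [hpow]
  have hmonQ : (X ^ D - C (2 : ℚ) : ℚ[X]).Monic := monic_X_pow_sub_C 2 (by omega)
  have hmin : minpoly ℚ α = X ^ D - C (2 : ℚ) :=
    (minpoly.eq_of_irreducible_of_monic (irr_rat hD) hroot hmonQ).symm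
  have hindep : ∀ Q : ℚ[X], Q ≠ 0 → Q.natDegree < D → aeval α Q ≠ 0 := by
    intro Q hQ hdeg h0
    have h3 := minpoly.degree_le_of_ne_zero ℚ α hQ h0
    rw [hmin, degree_X_pow_sub_C (by omega)] at h3
    have h5 : (D : ℕ) ≤ Q.natDegree := by
      rw [degree_eq_natDegree hQ] at h3
      exact_mod_cast h3
    omega
  have halg : IsAlgebraic ℚ (α : ℂ) := by
    refine ⟨X ^ D - C (2 : ℚ), hmonQ.ne_zero, ?_⟩
    simp only [map_sub, map_pow, aeval_X, aeval_C, eq_ratCast, Rat.cast_ofNat]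
    rw [← Complex.ofReal_pow, hpow]
    simp
  obtain ⟨d, K, hd, hK, hL⟩ := Pool.Agent.Y406.SG.liou (α : ℂ) halg
  refine ⟨α, K ^ D, d - 1, h1, h2, hpow, one_le_pow₀ hK, hindep, ?_⟩
  intro Q hQ hdeg H hH
  have hcast : aeval (α : ℂ) Q = ((aeval α Q : ℝ) : ℂ) := by
    have := (aeval_algebraMap_apply ℂ α Q)
    simpa using this
  have hQne : aeval α Q ≠ 0 := by
    intro h0
    apply hindep (Q.map (Int.castRingHom ℚ))
    · rw [Ne, Polynomial.map_eq_zero_iff (Int.castRingHom ℚ).injective_int]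
      exact hQ
    · rw [natDegree_map_eq_of_injective (Int.castRingHom ℚ).injective_int]; exact hdeg
    · have := aeval_map_algebraMap ℚ α Q
      rw [h0] at this
      exact this
  have hne : aeval (α : ℂ) Q ≠ 0 := by
    rw [hcast]; exact_mod_cast hQne
  have h3 := hL Q H hne hH
  rw [hcast, Complex.norm_real, Real.norm_eq_abs] at h3
  refine h3.trans ?_
  have hH0 : 0 ≤ H := (abs_nonneg _).trans (hH 0)
  have h4 : K ^ (Q.natDegree + 1) ≤ K ^ D := pow_le_pow_right₀ hK (by omega)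
  gcongr

end Pool.Agent.X124.Alg
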