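import Mathlib

/-!
# Lattice series with polynomial coefficients: definitions
-/

namespace Pool.Agent.X124.LatDefs

/-- `e(x) = exp(2πi x)` -/
noncomputable def ee (x : ℝ) : ℂ := Complex.exp (2 * Real.pi * Complex.I * x)

/-- The Euclidean norm of an integer vector. -/
noncomputable def eucl {n : ℕ} (k : Fin n → ℤ) : ℝ := Real.sqrt (∑ i, (k i : ℝ) ^ 2)

/-- `P(k) ‖k‖^(-s)` for `k ≠ 0` (and `0` for `k = 0`). -/
noncomputable def coef {n : ℕ} (P : MvPolynomial (Fin n) ℂ) (s : ℂ) (k : Fin n → ℤ) : ℂ :=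
  if k = 0 then 0 else MvPolynomial.eval (fun i => (k i : ℂ)) P * ((eucl k : ℝ) : ℂ) ^ (-s)

/-- `f_a(s) = ∑' P(k) ‖k‖^(-s) e(k · a)`, used for `Re s > n + d`. -/
noncomputable def f {n : ℕ} (P : MvPolynomial (Fin n) ℂ) (a : Fin n → ℝ) (s : ℂ) : ℂ :=
  ∑' k : Fin n → ℤ, coef P s k * ee (∑ i, (k i : ℝ) * a i)

/-- Rapidly decreasing families on `(ℤ^n)^q`. -/
def Rapid {n q : ℕ} (b : (Fin q → Fin n → ℤ) → ℂ) : Prop :=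
  ∀ m : Fin q → Fin n → ℕ, ∃ C : ℝ, ∀ l, (∏ i, ∏ j, |(l i j : ℝ)| ^ m i j) * ‖b l‖ ≤ C

/-- `∑ ε_i l_i` -/
def comb {n q : ℕ} (ε : Fin q → ℤ) (l : Fin q → Fin n → ℤ) : Fin n → ℤ := ∑ i, ε i • l i

/-- The series `g_0(s)`: the sum of `b(l) f_{Θ ∑ ε_i l_i}(s)` over the `l` with
`∑ ε_i l_i ≠ 0`. -/
noncomputable def g0 {n q : ℕ} (P : MvPolynomial (Fin n) ℂ) (Θ : Matrix (Fin n) (Fin n) ℝ)
    (b : (Fin q → Fin n → ℤ) → ℂ) (ε : Fin q → ℤ) (s : ℂ) : ℂ :=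
  ∑' l : Fin q → Fin n → ℤ, if comb ε l = 0 then 0 else
    b l * f P (Θ.mulVec (fun j => (comb ε l j : ℝ))) s

/-- Property (H): `g_0` always extends to an entire function. -/
def PropH {n : ℕ} (Θ : Matrix (Fin n) (Fin n) ℝ) : Prop :=
  ∀ (q : ℕ), 1 ≤ q → ∀ (d : ℕ) (P : MvPolynomial (Fin n) ℂ), P.IsHomogeneous d →
    ∀ b : (Fin q → Fin n → ℤ) → ℂ, Rapid b → ∀ ε : Fin q → ℤ,
      (∀ i, ε i = -1 ∨ ε i = 0 ∨ ε i = 1) →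
      ∃ g : ℂ → ℂ, Differentiable ℂ g ∧ ∀ s : ℂ, (n : ℝ) + d < s.re → g s = g0 P Θ b ε s

/-- Badly approximable vectors. -/
def BadVec {n : ℕ} (a : Fin n → ℝ) : Prop :=
  ∃ δ > 0, ∃ c > 0, ∀ v : Fin n → ℤ, v ≠ 0 → ∀ m : ℤ,
    c * eucl v ^ (-δ : ℝ) ≤ |∑ i, (v i : ℝ) * a i - m|

/-- Badly approximable matrices: `ᵗΘ u` is a badly approximable vector for some integer vector
`u`. -/
def BadMat {n : ℕ} (Θ : Matrix (Fin n) (Fin n) ℝ) : Prop :=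
  ∃ u : Fin n → ℤ, BadVec (Θ.transpose.mulVec (fun j => (u j : ℝ)))

end Pool.Agent.X124.LatDefs
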