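import Mathlib
import Pool.Agent.X124.LatDefs

/-!
# Iterated differences of `P(k) ‖k‖^(-s)`
-/

namespace Pool.Agent.X124.LatDiff

open Pool.Agent.X124.LatDefs Complex

variable {n : ℕ}

/-- the difference operator in one complex variable -/
def D (G : ℂ → ℂ) : ℂ → ℂ := fun z => G z - G (z - 1)

lemma D_bound (N : ℕ) : ∀ (G : ℂ → ℂ) (ρ M r : ℝ), 0 < r → N * (r + 1) < ρ →
    DifferentiableOn ℂ G (Metric.ball 0 ρ) → (∀ z ∈ Metric.ball (0 : ℂ) ρ, ‖G z‖ ≤ M) →
    ‖(D^[N] G) 0‖ ≤ M / r ^ N := by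
  induction N with
  | zero =>
    intro G ρ M r _ hρ _ hM
    simp only [Function.iterate_zero, id_eq, pow_zero, div_one]
    apply hM
    rw [Metric.mem_ball, dist_self]
    simpa using hρ
  | succ N ih =>
    intro G ρ M r hr hρ hd hM
    push_cast at hρ
    have hρ' : N * (r + 1) < ρ - (r + 1) := by linarith
    rw [Function.iterate_succ_apply]
    have h0 : 0 ≤ N * (r + 1) := by positivity
    have hsub : ∀ z ∈ Metric.ball (0 : ℂ) (ρ - (r + 1)), z - 1 ∈ Metric.ball (0 : ℂ) (ρ - r) := by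
      intro z hz
      rw [mem_ball_zero_iff] at hz ⊢
      calc ‖z - 1‖ ≤ ‖z‖ + ‖(1 : ℂ)‖ := norm_sub_le _ _
        _ < ρ - r := by rw [norm_one]; linarith
    have hsub2 : ∀ z ∈ Metric.ball (0 : ℂ) (ρ - (r + 1)), z ∈ Metric.ball (0 : ℂ) (ρ - r) := by
      intro z hz
      rw [mem_ball_zero_iff] at hz ⊢
      linarith
    have hsub3 : Metric.ball (0 : ℂ) (ρ - r) ⊆ Metric.ball (0 : ℂ) ρ :=
      Metric.ball_subset_ball (by linarith)
    have h1 := ih (D G) (ρ - (r + 1)) (M / r) r hr hρ' (by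
      unfold D
      apply DifferentiableOn.sub
      · exact hd.mono fun z hz => hsub3 (hsub2 z hz)
      · apply (hd.mono hsub3).comp (differentiableOn_id.sub (differentiableOn_const 1))
        intro z hz
        exact hsub z hz) (by
      intro z hz
      have hderiv : ∀ w ∈ Metric.ball (0 : ℂ) (ρ - r), ‖deriv G w‖ ≤ M / r := by
        intro w hw
        have hcl : Metric.closedBall w r ⊆ Metric.ball (0 : ℂ) ρ := by
          intro v hv
          rw [mem_ball_zero_iff] at hw ⊢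
          rw [mem_closedBall_iff_norm] at hv
          calc ‖v‖ = ‖(v - w) + w‖ := by rw [sub_add_cancel]
            _ ≤ ‖v - w‖ + ‖w‖ := norm_add_le _ _
            _ < ρ := by linarith
        apply Complex.norm_deriv_le_of_forall_mem_sphere_norm_le hr (hd.diffContOnCl_ball hcl)
        intro v hv
        exact hM v (hcl (Metric.sphere_subset_closedBall hv))
      have h2 := Convex.norm_image_sub_le_of_norm_deriv_le (f := G) (C := M / r)
        (s := Metric.ball (0 : ℂ) (ρ - r)) (x := z - 1) (y := z)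
        (fun w hw => hd.differentiableAt (Metric.isOpen_ball.mem_nhds (hsub3 hw)))
        hderiv (convex_ball _ _) (hsub z hz) (hsub2 z hz)
      have h3 : z - (z - 1) = 1 := by ring
      rw [h3, norm_one, mul_one] at h2
      exact h2)
    refine h1.trans (le_of_eq ?_)
    rw [pow_succ, div_div, mul_comm]

/-- the difference operator on the lattice -/
def Dl (j : Fin n) (F : (Fin n → ℤ) → ℂ) : (Fin n → ℤ) → ℂ :=
  fun k => F k - F (k - Pi.single j 1)

lemma D_eq_Dl (j : Fin n) (F : (Fin n → ℤ) → ℂ) (k : Fin n → ℤ) (G : ℂ → ℂ) (N : ℕ)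
    (h : ∀ m : ℕ, m ≤ N → G (-m) = F (k - m • Pi.single j 1)) :
    ∀ i m : ℕ, m + i ≤ N → (D^[i] G) (-m) = ((Dl j)^[i] F) (k - m • Pi.single j 1) := by
  intro i
  induction i with
  | zero => intro m hm; exact h m (by omega)
  | succ i ih =>
    intro m hm
    rw [Function.iterate_succ_apply', Function.iterate_succ_apply']
    change (D^[i] G) (-m) - (D^[i] G) (-m - 1) = ((Dl j)^[i] F) (k - m • Pi.single j 1) -
      ((Dl j)^[i] F) (k - m • Pi.single j 1 - Pi.single j 1)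
    rw [ih m (by omega)]
    congr 1
    have h2 := ih (m + 1) (by omega)
    have h3 : (-(m : ℂ)) - 1 = -((m + 1 : ℕ) : ℂ) := by push_cast; ring
    rw [h3]
    refine h2.trans ?_
    congr 1
    rw [add_smul, one_smul, sub_sub]

/-- sum of the absolute values of the coefficients -/
noncomputable def cP (P : MvPolynomial (Fin n) ℂ) : ℝ := ∑ m ∈ P.support, ‖P.coeff m‖

lemma cP_nonneg (P : MvPolynomial (Fin n) ℂ) : 0 ≤ cP P :=
  Finset.sum_nonneg fun _ _ => norm_nonneg _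

lemma eval_bound {P : MvPolynomial (Fin n) ℂ} {d : ℕ} (hP : P.IsHomogeneous d) (w : Fin n → ℂ)
    {B : ℝ} (_hB0 : 0 ≤ B) (hB : ∀ i, ‖w i‖ ≤ B) : ‖MvPolynomial.eval w P‖ ≤ cP P * B ^ d := by
  rw [MvPolynomial.eval_eq']
  refine (norm_sum_le _ _).trans ?_
  unfold cP
  rw [Finset.sum_mul]
  apply Finset.sum_le_sum
  intro m hm
  rw [norm_mul, norm_prod]
  apply mul_le_mul_of_nonneg_left _ (norm_nonneg _)
  calc ∏ i, ‖w i ^ m i‖ ≤ ∏ i, B ^ m i := by
        apply Finset.prod_le_prod (fun i _ => norm_nonneg _)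
        intro i _
        rw [norm_pow]
        exact pow_le_pow_left₀ (norm_nonneg _) (hB i) _
    _ = B ^ (∑ i, m i) := by rw [Finset.prod_pow_eq_pow_sum]
    _ = B ^ d := by
      have h1 := hP (MvPolynomial.mem_support_iff.1 hm)
      rw [Finsupp.weight_apply, Finsupp.sum_fintype _ _ (by simp)] at h1
      simp only [Pi.one_apply, smul_eq_mul, mul_one] at h1
      rw [h1]

/-- the quadratic form along a line -/
noncomputable def quad (k : Fin n → ℤ) (j : Fin n) (z : ℂ) : ℂ :=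
  ∑ i, ((k i : ℂ) + (if i = j then 1 else 0) * z) ^ 2

lemma eucl_nonneg (k : Fin n → ℤ) : 0 ≤ eucl k := Real.sqrt_nonneg _

lemma eucl_sq (k : Fin n → ℤ) : eucl k ^ 2 = ∑ i, (k i : ℝ) ^ 2 :=
  Real.sq_sqrt (Finset.sum_nonneg fun _ _ => sq_nonneg _)

lemma abs_le_eucl (k : Fin n → ℤ) (i : Fin n) : |(k i : ℝ)| ≤ eucl k := by
  unfold eucl
  apply Real.abs_le_sqrt
  exact Finset.single_le_sum (f := fun i => (k i : ℝ) ^ 2) (fun _ _ => sq_nonneg _)
    (Finset.mem_univ i)

lemma quad_eq (k : Fin n → ℤ) (j : Fin n) (z : ℂ) :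
    quad k j z = ((eucl k ^ 2 : ℝ) : ℂ) + 2 * k j * z + z ^ 2 := by
  unfold quad
  rw [eucl_sq]
  have h : ∀ i, ((k i : ℂ) + (if i = j then 1 else 0) * z) ^ 2 =
      (k i : ℂ) ^ 2 + if i = j then 2 * k i * z + z ^ 2 else 0 := by
    intro i
    split_ifs <;> ring
  rw [Finset.sum_congr rfl fun i _ => h i, Finset.sum_add_distrib, Finset.sum_ite_eq' Finset.univ j]
  simp only [Finset.mem_univ, if_true]
  push_cast
  ring

/-- the analytic function along a line -/
noncomputable def G (P : MvPolynomial (Fin n) ℂ) (s : ℂ) (k : Fin n → ℤ) (j : Fin n) (z : ℂ) : ℂ :=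
  MvPolynomial.eval (fun i => (k i : ℂ) + (if i = j then 1 else 0) * z) P * quad k j z ^ (-s / 2)

section

variable (k : Fin n → ℤ) (j : Fin n)

lemma quad_close {z : ℂ} (hz : ‖z‖ ≤ eucl k / 4) :
    ‖quad k j z - ((eucl k ^ 2 : ℝ) : ℂ)‖ ≤ 9 / 16 * eucl k ^ 2 := by
  have hX := eucl_nonneg k
  have h1 : quad k j z - ((eucl k ^ 2 : ℝ) : ℂ) = 2 * k j * z + z ^ 2 := by
    rw [quad_eq]; ring
  rw [h1]
  have h2 : ‖(2 * k j * z : ℂ)‖ ≤ 2 * eucl k * (eucl k / 4) := by
    rw [norm_mul, norm_mul]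
    have h3 : ‖(2 : ℂ)‖ = 2 := by norm_num
    have h4 : ‖((k j : ℤ) : ℂ)‖ ≤ eucl k := by
      rw [Complex.norm_intCast]; exact abs_le_eucl k j
    rw [h3]
    gcongr
  have h3 : ‖z ^ 2‖ ≤ (eucl k / 4) ^ 2 := by
    rw [norm_pow]; exact pow_le_pow_left₀ (norm_nonneg _) hz 2
  refine (norm_add_le _ _).trans ?_
  nlinarith

lemma quad_re {z : ℂ} (hz : ‖z‖ ≤ eucl k / 4) : 7 / 16 * eucl k ^ 2 ≤ (quad k j z).re := by
  have h1 := quad_close k j hz
  have h2 := Complex.abs_re_le_norm (quad k j z - ((eucl k ^ 2 : ℝ) : ℂ))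
  rw [Complex.sub_re, Complex.ofReal_re] at h2
  have h3 := (abs_le.1 (h2.trans h1)).1
  linarith

lemma quad_norm_le {z : ℂ} (hz : ‖z‖ ≤ eucl k / 4) : ‖quad k j z‖ ≤ 4 * eucl k ^ 2 := by
  have h1 := quad_close k j hz
  have h2 : ‖quad k j z‖ ≤ ‖quad k j z - ((eucl k ^ 2 : ℝ) : ℂ)‖ + ‖((eucl k ^ 2 : ℝ) : ℂ)‖ := by
    have := norm_add_le (quad k j z - ((eucl k ^ 2 : ℝ) : ℂ)) ((eucl k ^ 2 : ℝ) : ℂ)
    rwa [sub_add_cancel] at this
  rw [Complex.norm_real, Real.norm_of_nonneg (sq_nonneg _)] at h2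
  nlinarith [sq_nonneg (eucl k)]

lemma quad_norm_ge {z : ℂ} (hz : ‖z‖ ≤ eucl k / 4) : eucl k ^ 2 / 4 ≤ ‖quad k j z‖ := by
  have h1 := quad_re k j hz
  have h2 := Complex.re_le_norm (quad k j z)
  nlinarith [sq_nonneg (eucl k)]

lemma quad_cpow_bound {s : ℂ} {R : ℝ} (hs : ‖s‖ ≤ R) (hk : 0 < eucl k) {z : ℂ}
    (hz : ‖z‖ ≤ eucl k / 4) :
    ‖quad k j z ^ (-s / 2)‖ ≤ eucl k ^ (-s.re) * (4 ^ R * Real.exp (Real.pi * R)) := by
  have hX2 : 0 < eucl k ^ 2 := by positivity
  have hge := quad_norm_ge k j hz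
  have hle := quad_norm_le k j hz
  have hq0 : 0 < ‖quad k j z‖ := lt_of_lt_of_le (by positivity) hge
  have hne : quad k j z ≠ 0 := norm_pos_iff.1 hq0
  have hR0 : 0 ≤ R := (norm_nonneg _).trans hs
  rw [Complex.norm_cpow_of_ne_zero hne]
  have hre : (-s / 2).re = -s.re / 2 := by simp
  have him : (-s / 2).im = -s.im / 2 := by simp
  rw [hre, him, div_eq_mul_inv, ← Real.exp_neg]
  have hre2 : |s.re| ≤ R := (Complex.abs_re_le_norm s).trans hs
  have him2 : |s.im| ≤ R := (Complex.abs_im_le_norm s).trans hs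
  have h1 : ‖quad k j z‖ ^ (-s.re / 2) ≤ eucl k ^ (-s.re) * 4 ^ R := by
    set x : ℝ := ‖quad k j z‖ / eucl k ^ 2 with hx
    have hx0 : 1 / 4 ≤ x := by rw [hx, le_div_iff₀ hX2]; linarith
    have hx1 : x ≤ 4 := by rw [hx, div_le_iff₀ hX2]; linarith
    have hxpos : 0 < x := by linarith
    have h2 : ‖quad k j z‖ = eucl k ^ 2 * x := by rw [hx]; field_simp
    rw [h2, Real.mul_rpow hX2.le hxpos.le]
    have h3 : (eucl k ^ 2) ^ (-s.re / 2) = eucl k ^ (-s.re) := by
      rw [← Real.rpow_natCast, ← Real.rpow_mul hk.le]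
      congr 1
      push_cast; ring
    rw [h3]
    apply mul_le_mul_of_nonneg_left _ (Real.rpow_nonneg hk.le _)
    rw [abs_le] at hre2
    rcases le_or_gt 1 x with h4 | h4
    · calc x ^ (-s.re / 2) ≤ x ^ R := Real.rpow_le_rpow_of_exponent_le h4 (by linarith)
        _ ≤ 4 ^ R := Real.rpow_le_rpow hxpos.le hx1 hR0
    · calc x ^ (-s.re / 2) ≤ x ^ (-R) := Real.rpow_le_rpow_of_exponent_ge hxpos h4.le (by linarith)
        _ = (x⁻¹) ^ R := by rw [Real.rpow_neg hxpos.le, Real.inv_rpow hxpos.le]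
        _ ≤ 4 ^ R := by
          apply Real.rpow_le_rpow (by positivity) _ hR0
          rw [inv_le_comm₀ hxpos (by norm_num)]
          linarith
  have h2 : Real.exp (-(arg (quad k j z) * (-s.im / 2))) ≤ Real.exp (Real.pi * R) := by
    apply Real.exp_le_exp.2
    have h3 := Complex.abs_arg_le_pi (quad k j z)
    have h4 : -(arg (quad k j z) * (-s.im / 2)) ≤ |arg (quad k j z)| * (|s.im| / 2) := by
      have h5 : -(arg (quad k j z) * (-s.im / 2)) = arg (quad k j z) * (s.im / 2) := by ring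
      rw [h5]
      refine (le_abs_self _).trans (le_of_eq ?_)
      rw [abs_mul, abs_div, abs_two]
    refine h4.trans ?_
    have h6 : |s.im| / 2 ≤ R := by
      have := abs_nonneg s.im
      linarith
    exact mul_le_mul h3 h6 (by positivity) Real.pi_pos.le
  calc ‖quad k j z‖ ^ (-s.re / 2) * Real.exp (-(arg (quad k j z) * (-s.im / 2)))
      ≤ (eucl k ^ (-s.re) * 4 ^ R) * Real.exp (Real.pi * R) :=
        mul_le_mul h1 h2 (Real.exp_pos _).le (by positivity)
    _ = _ := by ring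

lemma G_bound {P : MvPolynomial (Fin n) ℂ} {d : ℕ} (hP : P.IsHomogeneous d)
    {s : ℂ} {R : ℝ} (hs : ‖s‖ ≤ R) (hk : 0 < eucl k) {z : ℂ} (hz : ‖z‖ ≤ eucl k / 4) :
    ‖G P s k j z‖ ≤
      (cP P * 2 ^ d * (4 ^ R * Real.exp (Real.pi * R))) * eucl k ^ ((d : ℝ) - s.re) := by
  unfold G
  rw [norm_mul]
  have h1 : ‖MvPolynomial.eval (fun i => (k i : ℂ) + (if i = j then 1 else 0) * z) P‖ ≤
      cP P * (2 * eucl k) ^ d := by
    apply eval_bound hP _ (by positivity)
    intro i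
    have h2 : ‖((k i : ℤ) : ℂ)‖ ≤ eucl k := by
      rw [Complex.norm_intCast]; exact abs_le_eucl k i
    have h3 : ‖(if i = j then (1 : ℂ) else 0) * z‖ ≤ eucl k / 4 := by
      split_ifs
      · rw [one_mul]; exact hz
      · rw [zero_mul, norm_zero]; positivity
    refine (norm_add_le _ _).trans ?_
    linarith
  refine (mul_le_mul h1 (quad_cpow_bound k j hs hk hz) (norm_nonneg _)
    (mul_nonneg (cP_nonneg P) (by positivity))).trans (le_of_eq ?_)
  rw [mul_pow, Real.rpow_sub hk, Real.rpow_natCast, Real.rpow_neg hk.le]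
  field_simp

lemma G_diff (P : MvPolynomial (Fin n) ℂ) (s : ℂ) (hk : 0 < eucl k) :
    DifferentiableOn ℂ (G P s k j) (Metric.ball 0 (eucl k / 4)) := by
  intro z hz
  rw [mem_ball_zero_iff] at hz
  apply DifferentiableAt.differentiableWithinAt
  unfold G
  apply DifferentiableAt.mul
  · simp only [MvPolynomial.eval_eq']
    fun_prop
  · apply DifferentiableAt.cpow
    · unfold quad
      fun_prop
    · fun_prop
    · apply Or.inl
      have := quad_re k j hz.le
      have h2 : 0 < eucl k ^ 2 := by positivity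
      linarith

lemma G_eq (P : MvPolynomial (Fin n) ℂ) (s : ℂ) (m : ℕ) (hne : k - m • Pi.single j 1 ≠ 0) :
    G P s k j (-m) = coef P s (k - m • Pi.single j 1) := by
  unfold G coef
  rw [if_neg hne]
  have hcast : ∀ i, (((k - m • Pi.single j 1 : Fin n → ℤ) i : ℤ) : ℂ) =
      (k i : ℂ) + (if i = j then 1 else 0) * (-(m : ℂ)) := by
    intro i
    simp only [Pi.sub_apply, Pi.smul_apply, Pi.single_apply]
    split_ifs <;> simp [sub_eq_add_neg]
  have h1 : (fun i => (k i : ℂ) + (if i = j then 1 else 0) * (-(m : ℂ))) =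
      fun i => (((k - m • Pi.single j 1 : Fin n → ℤ) i : ℤ) : ℂ) := by
    funext i; exact (hcast i).symm
  rw [h1]
  congr 1
  have h2 : quad k j (-(m : ℂ)) = ((eucl (k - m • Pi.single j 1) ^ 2 : ℝ) : ℂ) := by
    unfold quad
    rw [eucl_sq]
    push_cast
    apply Finset.sum_congr rfl
    intro i _
    rw [← hcast i]
  rw [h2]
  have hpos : 0 < eucl (k - m • Pi.single j 1) := by
    unfold eucl
    apply Real.sqrt_pos.2
    obtain ⟨i, hi⟩ := Function.ne_iff.1 hne
    apply Finset.sum_pos' (fun _ _ => sq_nonneg _)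
    refine ⟨i, Finset.mem_univ i, ?_⟩
    have : (((k - m • Pi.single j 1 : Fin n → ℤ) i : ℤ) : ℝ) ≠ 0 := by exact_mod_cast hi
    positivity
  set X := eucl (k - m • Pi.single j 1) with hX
  rw [Complex.cpow_def_of_ne_zero (by exact_mod_cast (pow_pos hpos 2).ne'),
    Complex.cpow_def_of_ne_zero (by exact_mod_cast hpos.ne')]
  rw [← Complex.ofReal_log (by positivity), ← Complex.ofReal_log hpos.le, Real.log_pow]
  congr 1
  push_cast; ring

/-- **Bound for the `N`-th difference**, far from the origin. -/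
lemma diff_bound_far {P : MvPolynomial (Fin n) ℂ} {d : ℕ} (hP : P.IsHomogeneous d)
    {s : ℂ} {R : ℝ} (hs : ‖s‖ ≤ R) (N : ℕ) (hN : 1 ≤ N) (hk : 8 * (N : ℝ) < eucl k) :
    ‖((Dl j)^[N] (coef P s)) k‖ ≤
      (cP P * 2 ^ d * (4 ^ R * Real.exp (Real.pi * R)) * (8 * (N : ℝ)) ^ N) *
        eucl k ^ ((d : ℝ) - s.re - N) := by
  have hN0 : (1 : ℝ) ≤ N := by exact_mod_cast hN
  have hpos : 0 < eucl k := by linarith
  have hne : ∀ m : ℕ, m ≤ N → k - m • Pi.single j 1 ≠ 0 := by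
    intro m hm h0
    have h1 : k = m • Pi.single j 1 := sub_eq_zero.1 h0
    have h2 : eucl k ^ 2 = (m : ℝ) ^ 2 := by
      rw [eucl_sq, Finset.sum_eq_single j]
      · rw [h1]; simp
      · intro i _ hij
        rw [h1]; simp [Pi.single_apply, hij]
      · intro h; exact absurd (Finset.mem_univ _) h
    have h3 : (m : ℝ) ≤ N := by exact_mod_cast hm
    have h4 : (0 : ℝ) ≤ m := Nat.cast_nonneg m
    nlinarith
  have h1 := D_eq_Dl j (coef P s) k (G P s k j) N
    (fun m hm => G_eq k j P s m (hne m hm)) N 0 (by omega)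
  simp only [Nat.cast_zero, neg_zero, zero_smul, sub_zero] at h1
  rw [← h1]
  have h2 := D_bound N (G P s k j) (eucl k / 4)
    ((cP P * 2 ^ d * (4 ^ R * Real.exp (Real.pi * R))) * eucl k ^ ((d : ℝ) - s.re))
    (eucl k / (8 * N)) (by positivity) (by
      have : (N : ℝ) * (eucl k / (8 * N) + 1) = eucl k / 8 + N := by field_simp
      rw [this]; linarith) (G_diff k j P s hpos) (fun z hz => by
      rw [mem_ball_zero_iff] at hz
      exact G_bound k j hP hs hpos hz.le)
  refine h2.trans (le_of_eq ?_)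
  rw [div_pow, Real.rpow_sub hpos _ (N : ℝ), Real.rpow_natCast]
  field_simp

end

end Pool.Agent.X124.LatDiff
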