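import Mathlib
import Pool.Agent.X124.LatDiff

/-!
# Analytic continuation of the lattice series by summation by parts
-/

namespace Pool.Agent.X124.LatCont

open Pool.Agent.X124.LatDefs Pool.Agent.X124.LatDiff Complex Filter

variable {n : ℕ}

lemma eucl_sub_single (k : Fin n → ℤ) (j : Fin n) : eucl (k - Pi.single j 1) ≤ eucl k + 1 := by
  have hX := eucl_nonneg k
  unfold eucl
  apply Real.sqrt_le_iff.2
  refine ⟨by positivity, ?_⟩
  have h1 : ∑ i, (((k - Pi.single j 1 : Fin n → ℤ) i : ℤ) : ℝ) ^ 2 =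
      ∑ i, (k i : ℝ) ^ 2 + (-2 * k j + 1) := by
    have h : ∀ i, (((k - Pi.single j 1 : Fin n → ℤ) i : ℤ) : ℝ) ^ 2 =
        (k i : ℝ) ^ 2 + if i = j then (-2 * k i + 1 : ℝ) else 0 := by
      intro i
      simp only [Pi.sub_apply, Pi.single_apply]
      split_ifs <;> push_cast <;> ring
    rw [Finset.sum_congr rfl fun i _ => h i, Finset.sum_add_distrib,
      Finset.sum_ite_eq' Finset.univ j]
    simp
  rw [h1, ← eucl_sq, Real.sqrt_sq hX]
  have h2 := abs_le_eucl k j
  rw [abs_le] at h2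
  nlinarith [h2.1]

/-- crude bound for iterated differences -/
lemma iter_bound (j : Fin n) (F : (Fin n → ℤ) → ℂ) (B : ℝ) (N : ℕ) :
    ∀ k : Fin n → ℤ, (∀ k', eucl k' ≤ eucl k + N → ‖F k'‖ ≤ B) → ‖((Dl j)^[N] F) k‖ ≤ 2 ^ N * B := by
  induction N with
  | zero =>
    intro k h
    simpa using h k (by simp)
  | succ N ih =>
    intro k h
    rw [Function.iterate_succ_apply']
    change ‖((Dl j)^[N] F) k - ((Dl j)^[N] F) (k - Pi.single j 1)‖ ≤ _
    have h1 := ih k (fun k' hk' => h k' (by push_cast; linarith))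
    have h2 := ih (k - Pi.single j 1) (fun k' hk' => h k' (by
      have := eucl_sub_single k j
      push_cast; linarith))
    refine (norm_sub_le _ _).trans ?_
    rw [pow_succ]
    linarith

lemma one_le_eucl {k : Fin n → ℤ} (hk : k ≠ 0) : 1 ≤ eucl k := by
  obtain ⟨i, hi⟩ := Function.ne_iff.1 hk
  refine le_trans ?_ (abs_le_eucl k i)
  exact_mod_cast Int.one_le_abs hi

lemma coef_bound {P : MvPolynomial (Fin n) ℂ} {d : ℕ} (hP : P.IsHomogeneous d) (s : ℂ)
    {k : Fin n → ℤ} (hk : k ≠ 0) : ‖coef P s k‖ ≤ cP P * eucl k ^ ((d : ℝ) - s.re) := by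
  unfold coef
  rw [if_neg hk, norm_mul]
  have hpos : 0 < eucl k := lt_of_lt_of_le one_pos (one_le_eucl hk)
  have h1 : ‖MvPolynomial.eval (fun i => (k i : ℂ)) P‖ ≤ cP P * (eucl k) ^ d := by
    apply eval_bound hP _ hpos.le
    intro i
    rw [Complex.norm_intCast]; exact abs_le_eucl k i
  rw [Complex.norm_cpow_eq_rpow_re_of_pos hpos, Complex.neg_re]
  refine (mul_le_mul_of_nonneg_right h1 (by positivity)).trans (le_of_eq ?_)
  rw [Real.rpow_sub hpos, Real.rpow_natCast, Real.rpow_neg hpos.le]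
  field_simp

lemma coef_bound_near {P : MvPolynomial (Fin n) ℂ} {d : ℕ} (hP : P.IsHomogeneous d) {s : ℂ}
    {R Y : ℝ} (hs : ‖s‖ ≤ R) (hY : 1 ≤ Y) {k : Fin n → ℤ} (hk : eucl k ≤ Y) :
    ‖coef P s k‖ ≤ cP P * Y ^ ((d : ℝ) + R) := by
  have hR : 0 ≤ R := (norm_nonneg _).trans hs
  by_cases h0 : k = 0
  · unfold coef
    rw [if_pos h0, norm_zero]
    exact mul_nonneg (cP_nonneg P) (by positivity)
  · refine (coef_bound hP s h0).trans ?_
    apply mul_le_mul_of_nonneg_left _ (cP_nonneg P)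
    have h1 := one_le_eucl h0
    have h2 : |s.re| ≤ R := (Complex.abs_re_le_norm s).trans hs
    rw [abs_le] at h2
    calc eucl k ^ ((d : ℝ) - s.re) ≤ eucl k ^ ((d : ℝ) + R) :=
          Real.rpow_le_rpow_of_exponent_le h1 (by linarith)
      _ ≤ Y ^ ((d : ℝ) + R) := Real.rpow_le_rpow (by linarith) hk (by positivity)

lemma norm_le_eucl (k : Fin n → ℤ) : ‖k‖ ≤ eucl k := by
  rw [pi_norm_le_iff_of_nonneg (eucl_nonneg k)]
  intro i
  rw [Int.norm_eq_abs]
  exact abs_le_eucl k i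

/-- a summable majorant -/
noncomputable def maj (C : ℝ) (k : Fin n → ℤ) : ℝ :=
  C * (if k = 0 then 1 else ‖k‖ ^ (-((n : ℝ) + 1)))

lemma summable_norm_rpow_pi {ι : Type} [Fintype ι] {r : ℝ} (hr : (Fintype.card ι : ℝ) < r) :
    Summable fun a : ι → ℤ => ‖a‖ ^ (-r) := by
  classical
  let L : Submodule ℤ (ι → ℝ) := Submodule.span ℤ (Set.range (Pi.basisFun ℝ ι))
  let b : Module.Basis ι ℤ L := (Pi.basisFun ℝ ι).restrictScalars ℤ
  have hfin : Module.finrank ℤ L = Fintype.card ι := Module.finrank_eq_card_basis b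
  have h := ZLattice.summable_norm_rpow L (-r) (by rw [hfin]; linarith)
  have h2 := (b.equivFun.symm.toEquiv.summable_iff (f := fun z : L => ‖z‖ ^ (-r))).mpr h
  refine h2.congr fun a => ?_
  simp only [Function.comp_apply]
  congr 1
  have : ((b.equivFun.symm a : L) : ι → ℝ) = fun i => (a i : ℝ) := by
    rw [Module.Basis.equivFun_symm_apply]
    ext i
    have hb : ∀ x, ((b x : L) : ι → ℝ) = Pi.basisFun ℝ ι x := fun x =>
      Module.Basis.restrictScalars_apply _ _ _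
    simp [Finset.sum_apply, hb, Pi.single_apply]
  change ‖((b.equivFun.symm a : L) : ι → ℝ)‖ = ‖a‖
  rw [this]
  simp only [Pi.norm_def]
  congr 1

lemma maj_summable (C : ℝ) : Summable (maj C : (Fin n → ℤ) → ℝ) := by
  unfold maj
  apply Summable.mul_left
  have h := summable_norm_rpow_pi (ι := Fin n) (r := (n : ℝ) + 1) (by simp)
  refine h.congr_cofinite ?_
  rw [Filter.EventuallyEq, Filter.eventually_cofinite]
  apply (Set.finite_singleton (0 : Fin n → ℤ)).subset
  intro k hk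
  by_contra h0
  have h0' : ¬ k = 0 := h0
  apply hk
  rw [if_neg h0']

lemma maj_nonneg {C : ℝ} (hC : 0 ≤ C) (k : Fin n → ℤ) : 0 ≤ maj C k := by
  unfold maj
  apply mul_nonneg hC
  split_ifs
  · exact zero_le_one
  · positivity

/-- The majorant of the `N`-th differences on a bounded part of a half plane. -/
lemma diff_bound {P : MvPolynomial (Fin n) ℂ} {d : ℕ} (hP : P.IsHomogeneous d)
    {R : ℝ} (_hR : 0 ≤ R) (N : ℕ) (hN : 1 ≤ N) :
    ∃ C : ℝ, 0 ≤ C ∧ ∀ (j : Fin n) (s : ℂ), ‖s‖ ≤ R → (d : ℝ) + n + 1 - N ≤ s.re → ∀ k : Fin n → ℤ,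
      ‖((Dl j)^[N] (coef P s)) k‖ ≤ maj C k := by
  set C1 : ℝ := cP P * 2 ^ d * (4 ^ R * Real.exp (Real.pi * R)) * (8 * (N : ℝ)) ^ N with hC1
  set C2 : ℝ := 2 ^ N * (cP P * (9 * (N : ℝ) + 1) ^ ((d : ℝ) + R)) * (8 * (N : ℝ) + 1) ^ ((n : ℝ) + 1)
    with hC2
  have hcP := cP_nonneg P
  have hC10 : 0 ≤ C1 := by positivity
  have hC20 : 0 ≤ C2 := by positivity
  refine ⟨C1 + C2, by positivity, fun j s hs hre k => ?_⟩
  have hN1 : (1 : ℝ) ≤ N := by exact_mod_cast hN
  have hY : (1 : ℝ) ≤ 9 * N + 1 := by linarith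
  have hY2 : (1 : ℝ) ≤ 8 * N + 1 := by linarith
  rcases le_or_gt (eucl k) (8 * N) with h | h
  · -- near
    have h1 := iter_bound j (coef P s) (cP P * (9 * (N : ℝ) + 1) ^ ((d : ℝ) + R)) N k
      (fun k' hk' => coef_bound_near hP hs hY (by linarith))
    refine h1.trans ?_
    unfold maj
    split_ifs with h0
    · rw [mul_one]
      have h2 : (1 : ℝ) ≤ (8 * (N : ℝ) + 1) ^ ((n : ℝ) + 1) :=
        Real.one_le_rpow hY2 (by positivity)
      have h3 : 0 ≤ 2 ^ N * (cP P * (9 * (N : ℝ) + 1) ^ ((d : ℝ) + R)) := by positivity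
      calc 2 ^ N * (cP P * (9 * (N : ℝ) + 1) ^ ((d : ℝ) + R))
          ≤ 2 ^ N * (cP P * (9 * (N : ℝ) + 1) ^ ((d : ℝ) + R)) *
            (8 * (N : ℝ) + 1) ^ ((n : ℝ) + 1) := le_mul_of_one_le_right h3 h2
        _ ≤ C1 + C2 := by rw [← hC2]; linarith
    · have h4 : 0 < ‖k‖ := norm_pos_iff.2 h0
      have h5 : ‖k‖ ≤ 8 * N + 1 := (norm_le_eucl k).trans (by linarith)
      have h6 : (8 * (N : ℝ) + 1) ^ (-((n : ℝ) + 1)) ≤ ‖k‖ ^ (-((n : ℝ) + 1)) :=
        Real.rpow_le_rpow_of_nonpos h4 h5 (by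
          have : (0 : ℝ) ≤ n := Nat.cast_nonneg n
          linarith)
      have h7 : 0 ≤ ‖k‖ ^ (-((n : ℝ) + 1)) := by positivity
      calc 2 ^ N * (cP P * (9 * (N : ℝ) + 1) ^ ((d : ℝ) + R))
          = C2 * (8 * (N : ℝ) + 1) ^ (-((n : ℝ) + 1)) := by
            rw [hC2, mul_assoc, ← Real.rpow_add (by positivity)]
            simp
        _ ≤ C2 * ‖k‖ ^ (-((n : ℝ) + 1)) := mul_le_mul_of_nonneg_left h6 hC20
        _ ≤ (C1 + C2) * ‖k‖ ^ (-((n : ℝ) + 1)) := by nlinarith
  · -- far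
    have h1 := diff_bound_far k j hP hs N hN h
    refine h1.trans ?_
    have hpos : 1 ≤ eucl k := by linarith
    have h0 : k ≠ 0 := by
      rintro rfl
      have : eucl (0 : Fin n → ℤ) = 0 := by unfold eucl; simp
      linarith
    unfold maj
    rw [if_neg h0]
    have h4 : 0 < ‖k‖ := norm_pos_iff.2 h0
    have h2 : eucl k ^ ((d : ℝ) - s.re - N) ≤ ‖k‖ ^ (-((n : ℝ) + 1)) := by
      calc eucl k ^ ((d : ℝ) - s.re - N) ≤ eucl k ^ (-((n : ℝ) + 1)) :=
            Real.rpow_le_rpow_of_exponent_le hpos (by linarith)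
        _ ≤ ‖k‖ ^ (-((n : ℝ) + 1)) :=
            Real.rpow_le_rpow_of_nonpos h4 (norm_le_eucl k) (by
              have : (0 : ℝ) ≤ n := Nat.cast_nonneg n
              linarith)
    have h7 : 0 ≤ ‖k‖ ^ (-((n : ℝ) + 1)) := by positivity
    calc C1 * eucl k ^ ((d : ℝ) - s.re - N) ≤ C1 * ‖k‖ ^ (-((n : ℝ) + 1)) :=
          mul_le_mul_of_nonneg_left h2 hC10
      _ ≤ (C1 + C2) * ‖k‖ ^ (-((n : ℝ) + 1)) := by nlinarith

lemma coef_summable {P : MvPolynomial (Fin n) ℂ} {d : ℕ} (hP : P.IsHomogeneous d) {s : ℂ}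
    (hs : (n : ℝ) + d < s.re) : Summable (coef P s) := by
  have h := (summable_norm_rpow_pi (ι := Fin n) (r := s.re - d) (by simp; linarith)).mul_left (cP P)
  apply Summable.of_norm_bounded h
  intro k
  by_cases h0 : k = 0
  · unfold coef
    rw [if_pos h0, norm_zero]
    exact mul_nonneg (cP_nonneg P) (Real.rpow_nonneg (norm_nonneg _) _)
  · refine (coef_bound hP s h0).trans ?_
    apply mul_le_mul_of_nonneg_left _ (cP_nonneg P)
    have h4 : 0 < ‖k‖ := norm_pos_iff.2 h0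
    rw [show (d : ℝ) - s.re = -(s.re - d) by ring]
    exact Real.rpow_le_rpow_of_nonpos h4 (norm_le_eucl k) (by
      have : (0 : ℝ) ≤ n := Nat.cast_nonneg n
      linarith)

/-! ### Summation by parts -/

lemma ee_norm (x : ℝ) : ‖ee x‖ = 1 := by
  unfold ee
  rw [show 2 * (Real.pi : ℂ) * Complex.I * x = ((2 * Real.pi * x : ℝ) : ℂ) * Complex.I by
    push_cast; ring]
  exact Complex.norm_exp_ofReal_mul_I _

lemma ee_add (x y : ℝ) : ee (x + y) = ee x * ee y := by
  unfold ee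
  rw [← Complex.exp_add]
  congr 1
  push_cast; ring

/-- the pairing -/
noncomputable def dot (k : Fin n → ℤ) (a : Fin n → ℝ) : ℝ := ∑ i, (k i : ℝ) * a i

lemma dot_sub (k : Fin n → ℤ) (a : Fin n → ℝ) (j : Fin n) :
    dot (k - Pi.single j 1) a = dot k a - a j := by
  unfold dot
  have h : ∀ i, (((k - Pi.single j 1 : Fin n → ℤ) i : ℤ) : ℝ) * a i =
      (k i : ℝ) * a i - if i = j then a i else 0 := by
    intro i
    simp only [Pi.sub_apply, Pi.single_apply]
    split_ifs <;> push_cast <;> ring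
  rw [Finset.sum_congr rfl fun i _ => h i, Finset.sum_sub_distrib, Finset.sum_ite_eq' Finset.univ j]
  simp

lemma summable_ee {F : (Fin n → ℤ) → ℂ} (hF : Summable F) (a : Fin n → ℝ) :
    Summable (fun k => F k * ee (dot k a)) := by
  apply Summable.of_norm
  refine hF.norm.congr fun k => ?_
  rw [norm_mul, ee_norm, mul_one]

lemma summable_Dl {F : (Fin n → ℤ) → ℂ} (hF : Summable F) (j : Fin n) : Summable (Dl j F) :=
  hF.sub ((Equiv.subRight (Pi.single j 1 : Fin n → ℤ)).summable_iff.2 hF)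

lemma by_parts {F : (Fin n → ℤ) → ℂ} (hF : Summable F) (a : Fin n → ℝ) (j : Fin n) :
    (1 - ee (a j)) * ∑' k, F k * ee (dot k a) = ∑' k, Dl j F k * ee (dot k a) := by
  have h1 := summable_ee hF a
  have h2 : Summable (fun k => F (k - Pi.single j 1) * ee (dot k a)) :=
    summable_ee ((Equiv.subRight (Pi.single j 1 : Fin n → ℤ)).summable_iff.2 hF) a
  have h3 : ∑' k, F (k - Pi.single j 1) * ee (dot k a) = ee (a j) * ∑' k, F k * ee (dot k a) := by
    have h6 := (Equiv.subRight (Pi.single j 1 : Fin n → ℤ)).tsum_eq (fun k => F k * ee (dot k a))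
    rw [← h6, ← tsum_mul_left]
    apply tsum_congr
    intro k
    simp only [Equiv.subRight_apply]
    rw [dot_sub]
    have h4 : ee (dot k a) = ee (a j) * ee (dot k a - a j) := by
      rw [← ee_add]; congr 1; ring
    rw [h4]; ring
  unfold Dl
  have h5 : ∀ k, (F k - F (k - Pi.single j 1)) * ee (dot k a) =
      F k * ee (dot k a) - F (k - Pi.single j 1) * ee (dot k a) := fun k => by ring
  rw [tsum_congr h5, h1.tsum_sub h2, h3]
  ring

lemma by_parts_iter (a : Fin n → ℝ) (j : Fin n) (N : ℕ) : ∀ {F : (Fin n → ℤ) → ℂ}, Summable F →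
    (1 - ee (a j)) ^ N * ∑' k, F k * ee (dot k a) = ∑' k, ((Dl j)^[N] F) k * ee (dot k a) := by
  induction N with
  | zero => intro F _; simp
  | succ N ih =>
    intro F hF
    rw [pow_succ, mul_assoc, by_parts hF, ih (summable_Dl hF j)]
    rfl

/-- the continued series, up to the factor `(1 - e(a_j))^N` -/
noncomputable def h (P : MvPolynomial (Fin n) ℂ) (N : ℕ) (j : Fin n) (a : Fin n → ℝ) (s : ℂ) : ℂ :=
  ∑' k, ((Dl j)^[N] (coef P s)) k * ee (dot k a)

lemma coef_diff (P : MvPolynomial (Fin n) ℂ) (k : Fin n → ℤ) :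
    Differentiable ℂ (fun s => coef P s k) := by
  unfold coef
  by_cases h0 : k = 0
  · simp only [if_pos h0]; exact differentiable_const _
  · simp only [if_neg h0]
    have hpos : 0 < eucl k := lt_of_lt_of_le one_pos (one_le_eucl h0)
    have hne : ((eucl k : ℝ) : ℂ) ≠ 0 := by exact_mod_cast hpos.ne'
    intro s
    apply DifferentiableAt.const_mul
    exact (differentiableAt_id.neg).const_cpow (Or.inl hne)

lemma iter_diff (P : MvPolynomial (Fin n) ℂ) (j : Fin n) (N : ℕ) : ∀ k : Fin n → ℤ,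
    Differentiable ℂ (fun s => ((Dl j)^[N] (coef P s)) k) := by
  induction N with
  | zero => intro k; exact coef_diff P k
  | succ N ih =>
    intro k
    simp only [Function.iterate_succ_apply']
    exact (ih k).sub (ih (k - Pi.single j 1))

end Pool.Agent.X124.LatCont
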