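import Mathlib
import Pool.Agent.X124.LatCont

/-!
# Property (H) from a quantitative condition on the orbit `Θ L`
-/

namespace Pool.Agent.X124.LatMain

open Pool.Agent.X124.LatDefs Pool.Agent.X124.LatDiff Pool.Agent.X124.LatCont Complex Filter Topology

lemma exists_max {n q : ℕ} (hn : 0 < n) (hq : 0 < q) (l : Fin q → Fin n → ℤ) :
    ∃ i j, ‖l‖ ≤ |(l i j : ℝ)| := by
  have : Nonempty (Fin q × Fin n) := ⟨(⟨0, hq⟩, ⟨0, hn⟩)⟩
  obtain ⟨p, _, hp⟩ := Finset.exists_max_image Finset.univ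
    (fun p : Fin q × Fin n => |(l p.1 p.2 : ℝ)|) Finset.univ_nonempty
  refine ⟨p.1, p.2, ?_⟩
  rw [pi_norm_le_iff_of_nonneg (abs_nonneg _)]
  intro i
  rw [pi_norm_le_iff_of_nonneg (abs_nonneg _)]
  intro j
  rw [Int.norm_eq_abs]
  exact hp (i, j) (Finset.mem_univ _)

lemma rapid_norm {n q : ℕ} (hn : 0 < n) (hq : 0 < q) {b : (Fin q → Fin n → ℤ) → ℂ} (hb : Rapid b)
    (m : ℕ) : ∃ C : ℝ, 0 ≤ C ∧ ∀ l, ‖l‖ ^ m * ‖b l‖ ≤ C := by
  have h1 : ∀ i j, ∃ C : ℝ, ∀ l, |(l i j : ℝ)| ^ m * ‖b l‖ ≤ C := by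
    intro i j
    obtain ⟨C, hC⟩ := hb (fun i' j' => if i' = i ∧ j' = j then m else 0)
    refine ⟨C, fun l => ?_⟩
    have h2 := hC l
    have h3 : (∏ i', ∏ j', |(l i' j' : ℝ)| ^ (if i' = i ∧ j' = j then m else 0)) =
        |(l i j : ℝ)| ^ m := by
      rw [Finset.prod_eq_single i, Finset.prod_eq_single j]
      · simp
      · intro j' _ hj'
        simp [hj']
      · intro h; exact absurd (Finset.mem_univ _) h
      · intro i' _ hi'
        apply Finset.prod_eq_one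
        intro j' _
        simp [hi']
      · intro h; exact absurd (Finset.mem_univ _) h
    rwa [h3] at h2
  choose C hC using h1
  have hC0 : ∀ i j, 0 ≤ C i j := fun i j =>
    (mul_nonneg (pow_nonneg (abs_nonneg _) _) (norm_nonneg _)).trans (hC i j 0)
  refine ⟨∑ i, ∑ j, C i j, Finset.sum_nonneg fun i _ => Finset.sum_nonneg fun j _ => hC0 i j,
    fun l => ?_⟩
  obtain ⟨i, j, hij⟩ := exists_max hn hq l
  calc ‖l‖ ^ m * ‖b l‖ ≤ |(l i j : ℝ)| ^ m * ‖b l‖ :=
        mul_le_mul_of_nonneg_right (pow_le_pow_left₀ (norm_nonneg _) hij _) (norm_nonneg _)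
    _ ≤ C i j := hC i j l
    _ ≤ ∑ j, C i j := Finset.single_le_sum (f := fun j => C i j) (fun j _ => hC0 i j)
      (Finset.mem_univ j)
    _ ≤ ∑ i, ∑ j, C i j := Finset.single_le_sum (f := fun i => ∑ j, C i j)
      (fun i _ => Finset.sum_nonneg fun j _ => hC0 i j) (Finset.mem_univ i)

lemma norm_curry {n q : ℕ} (a : Fin q × Fin n → ℤ) :
    ‖(fun i j => a (i, j) : Fin q → Fin n → ℤ)‖ = ‖a‖ := by
  apply le_antisymm
  · rw [pi_norm_le_iff_of_nonneg (norm_nonneg _)]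
    intro i
    rw [pi_norm_le_iff_of_nonneg (norm_nonneg _)]
    intro j
    exact norm_le_pi_norm a (i, j)
  · rw [pi_norm_le_iff_of_nonneg (norm_nonneg _)]
    rintro ⟨i, j⟩
    exact (norm_le_pi_norm (fun j => a (i, j)) j).trans
      (norm_le_pi_norm (fun i j => a (i, j) : Fin q → Fin n → ℤ) i)

lemma summable_double {n q : ℕ} :
    Summable (fun l : Fin q → Fin n → ℤ => ‖l‖ ^ (-((q * n + 1 : ℕ) : ℝ))) := by
  have h := summable_norm_rpow_pi (ι := Fin q × Fin n) (r := ((q * n + 1 : ℕ) : ℝ)) (by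
    rw [Fintype.card_prod, Fintype.card_fin, Fintype.card_fin]
    push_cast; linarith)
  have h2 := (Equiv.curry (Fin q) (Fin n) ℤ).summable_iff
    (f := fun l : Fin q → Fin n → ℤ => ‖l‖ ^ (-((q * n + 1 : ℕ) : ℝ)))
  rw [← h2]
  refine h.congr fun a => ?_
  have : ((Equiv.curry (Fin q) (Fin n) ℤ) a) = fun i j => a (i, j) := rfl
  simp only [Function.comp_apply]
  rw [this, norm_curry]

lemma glue (Gn : ℕ → ℂ → ℂ) (g : ℂ → ℂ) (A B : ℝ)
    (hd : ∀ N, 1 ≤ N → DifferentiableOn ℂ (Gn N) {s | A - N < s.re})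
    (hg : ∀ N, 1 ≤ N → ∀ s : ℂ, B < s.re → Gn N s = g s) :
    ∃ G : ℂ → ℂ, Differentiable ℂ G ∧ ∀ s : ℂ, B < s.re → G s = g s := by
  have hopen : ∀ N : ℕ, IsOpen {s : ℂ | A - N < s.re} := fun N =>
    isOpen_lt continuous_const Complex.continuous_re
  have key : ∀ N M : ℕ, 1 ≤ N → N ≤ M → ∀ s : ℂ, A - N < s.re → Gn N s = Gn M s := by
    intro N M hN hM s hs
    have hNM : (N : ℝ) ≤ M := by exact_mod_cast hM
    have h1 : AnalyticOnNhd ℂ (Gn N) {s | A - N < s.re} := (hd N hN).analyticOnNhd (hopen N)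
    have h2 : AnalyticOnNhd ℂ (Gn M) {s | A - N < s.re} :=
      ((hd M (hN.trans hM)).mono fun s (hs : A - N < s.re) => by
        change A - M < s.re; linarith).analyticOnNhd (hopen N)
    have hconv : Convex ℝ {s : ℂ | A - N < s.re} := convex_halfSpace_re_gt _
    set z₀ : ℂ := ((max B (A - N) + 1 : ℝ) : ℂ) with hz₀
    have hz1 : z₀ ∈ {s : ℂ | A - N < s.re} := by
      change A - N < z₀.re
      rw [hz₀, Complex.ofReal_re]
      linarith [le_max_right B (A - N)]
    have hz2 : z₀ ∈ {s : ℂ | B < s.re} := by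
      change B < z₀.re
      rw [hz₀, Complex.ofReal_re]
      linarith [le_max_left B (A - N)]
    have hev : Gn N =ᶠ[𝓝 z₀] Gn M := by
      have h3 : {s : ℂ | B < s.re} ∈ 𝓝 z₀ :=
        (isOpen_lt continuous_const Complex.continuous_re).mem_nhds hz2
      filter_upwards [h3] with s hs
      rw [hg N hN s hs, hg M (hN.trans hM) s hs]
    exact h1.eqOn_of_preconnected_of_eventuallyEq h2 hconv.isPreconnected hz1 hev hs
  have key2 : ∀ N M : ℕ, 1 ≤ N → 1 ≤ M → ∀ s : ℂ, A - N < s.re → A - M < s.re →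
      Gn N s = Gn M s := by
    intro N M hN hM s h1 h2
    rcases le_total N M with h | h
    · exact key N M hN h s h1
    · exact (key M N hM h s h2).symm
  set idx : ℂ → ℕ := fun s => ⌈A - s.re⌉₊ + 1 with hidx
  have hidx1 : ∀ s, 1 ≤ idx s := fun s => by rw [hidx]; exact Nat.le_add_left _ _
  have hidx2 : ∀ s : ℂ, A - idx s < s.re := fun s => by
    rw [hidx]
    have := Nat.le_ceil (A - s.re)
    push_cast; linarith
  refine ⟨fun s => Gn (idx s) s, fun s₀ => ?_, fun s hs => hg _ (hidx1 s) s hs⟩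
  have h1 : DifferentiableAt ℂ (Gn (idx s₀)) s₀ :=
    (hd _ (hidx1 s₀)).differentiableAt ((hopen _).mem_nhds (hidx2 s₀))
  apply h1.congr_of_eventuallyEq
  filter_upwards [(hopen (idx s₀)).mem_nhds (hidx2 s₀)] with s hs
  exact key2 _ _ (hidx1 s) (hidx1 s₀) s (hidx2 s) hs

lemma norm_comb_le {n q : ℕ} {ε : Fin q → ℤ} (hε : ∀ i, ε i = -1 ∨ ε i = 0 ∨ ε i = 1)
    (l : Fin q → Fin n → ℤ) : ‖comb ε l‖ ≤ q * ‖l‖ := by
  unfold comb
  refine (norm_sum_le _ _).trans ?_
  calc ∑ i, ‖ε i • l i‖ ≤ ∑ _i : Fin q, ‖l‖ := by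
        apply Finset.sum_le_sum
        intro i _
        have h1 : ‖ε i • l i‖ ≤ ‖l i‖ := by
          rcases hε i with h | h | h <;> rw [h]
          · rw [neg_smul, one_smul, norm_neg]
          · rw [zero_smul, norm_zero]; exact norm_nonneg _
          · rw [one_smul]
        exact h1.trans (norm_le_pi_norm l i)
    _ = q * ‖l‖ := by rw [Finset.sum_const, Finset.card_univ, Fintype.card_fin, nsmul_eq_mul]

lemma one_le_norm {n : ℕ} {a : Fin n → ℤ} (ha : a ≠ 0) : 1 ≤ ‖a‖ := by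
  obtain ⟨i, hi⟩ := Function.ne_iff.mp ha
  have h1 : ‖a i‖ ≤ ‖a‖ := norm_le_pi_norm a i
  have h2 : (1 : ℝ) ≤ ‖a i‖ := by
    rw [Int.norm_eq_abs]
    exact_mod_cast Int.one_le_abs (by simpa using hi)
  exact h2.trans h1

section Main

variable {n q : ℕ} (Θ : Matrix (Fin n) (Fin n) ℝ)

/-- the point `Θ L` -/
noncomputable def pt (L : Fin n → ℤ) : Fin n → ℝ := Θ.mulVec (fun j => (L j : ℝ))

/-- **Property (H) from a lower bound for the distance of `Θ L` to `ℤ^n`.** -/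
theorem propH_of (hn : 0 < n) {c : ℝ} (hc : 0 < c) (E : ℕ)
    (hΘ : ∀ L : Fin n → ℤ, L ≠ 0 → ∃ j, c / ‖L‖ ^ E ≤ ‖1 - ee (pt Θ L j)‖) : PropH Θ := by
  intro q hq d P hP b hb ε hε
  have hne0 : Nonempty (Fin n) := ⟨⟨0, hn⟩⟩
  choose! jj hjj using hΘ
  set term : ℕ → (Fin q → Fin n → ℤ) → ℂ → ℂ := fun N l s =>
    if comb ε l = 0 then 0 else
      b l * ((1 - ee (pt Θ (comb ε l) (jj (comb ε l)))) ^ N)⁻¹ *
        h P N (jj (comb ε l)) (pt Θ (comb ε l)) s with hterm
  have hnorm : ∀ l, comb ε l ≠ 0 → ∀ N : ℕ,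
      ‖((1 - ee (pt Θ (comb ε l) (jj (comb ε l)))) ^ N)⁻¹‖ ≤ ((q : ℝ) ^ E / c) ^ N * ‖l‖ ^ (E * N) := by
    intro l hl N
    have h1 := hjj _ hl
    have h2 := one_le_norm hl
    have h3 : 0 < c / ‖comb ε l‖ ^ E := by positivity
    rw [norm_inv, norm_pow, ← inv_pow]
    have h4 : ‖1 - ee (pt Θ (comb ε l) (jj (comb ε l)))‖⁻¹ ≤ (q : ℝ) ^ E / c * ‖l‖ ^ E := by
      calc ‖1 - ee (pt Θ (comb ε l) (jj (comb ε l)))‖⁻¹ ≤ (c / ‖comb ε l‖ ^ E)⁻¹ :=
            inv_anti₀ h3 h1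
        _ = ‖comb ε l‖ ^ E / c := by rw [inv_div]
        _ ≤ (q * ‖l‖) ^ E / c := by
          apply div_le_div_of_nonneg_right _ hc.le
          exact pow_le_pow_left₀ (norm_nonneg _) (norm_comb_le hε l) _
        _ = (q : ℝ) ^ E / c * ‖l‖ ^ E := by rw [mul_pow]; ring
    calc (‖1 - ee (pt Θ (comb ε l) (jj (comb ε l)))‖⁻¹) ^ N ≤ ((q : ℝ) ^ E / c * ‖l‖ ^ E) ^ N :=
          pow_le_pow_left₀ (by positivity) h4 _
      _ = ((q : ℝ) ^ E / c) ^ N * ‖l‖ ^ (E * N) := by rw [mul_pow, ← pow_mul]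
  have hne : ∀ l, comb ε l ≠ 0 → 1 - ee (pt Θ (comb ε l) (jj (comb ε l))) ≠ 0 := by
    intro l hl
    have h1 := hjj _ hl
    have h2 := one_le_norm hl
    have h3 : 0 < c / ‖comb ε l‖ ^ E := by positivity
    exact norm_pos_iff.1 (lt_of_lt_of_le h3 h1)
  have hl0 : ∀ l : Fin q → Fin n → ℤ, comb ε l ≠ 0 → l ≠ 0 := by
    rintro l hl rfl
    apply hl
    unfold comb
    simp
  apply glue (fun N s => ∑' l, term N l s) (g0 P Θ b ε) ((d : ℝ) + n + 1) ((n : ℝ) + d)
  · -- differentiability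
    intro N hN
    have hlocal : ∀ R : ℝ, 0 < R → DifferentiableOn ℂ (fun s => ∑' l, term N l s)
        ({s | (d : ℝ) + n + 1 - N < s.re} ∩ Metric.ball 0 R) := by
      intro R hR
      obtain ⟨C, hC0, hC⟩ := diff_bound hP hR.le N hN
      set U : Set ℂ := {s | (d : ℝ) + n + 1 - N < s.re} ∩ Metric.ball 0 R with hU
      have hUo : IsOpen U := (isOpen_lt continuous_const Complex.continuous_re).inter
        Metric.isOpen_ball
      have hb1 : ∀ (j : Fin n) (a : Fin n → ℝ) (k : Fin n → ℤ) (s : ℂ), s ∈ U →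
          ‖((Dl j)^[N] (coef P s)) k * ee (dot k a)‖ ≤ maj C k := by
        intro j a k s hs
        rw [norm_mul, ee_norm, mul_one]
        have hs2 : ‖s‖ < R := by have := hs.2; rwa [mem_ball_zero_iff] at this
        exact hC j s hs2.le (le_of_lt hs.1) k
      have hh : ∀ (j : Fin n) (a : Fin n → ℝ), DifferentiableOn ℂ (h P N j a) U := by
        intro j a
        unfold h
        apply differentiableOn_tsum_of_summable_norm (maj_summable C)
        · intro k
          exact ((iter_diff P j N k).mul_const _).differentiableOn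
        · exact hUo
        · intro k s hs
          exact hb1 j a k s hs
      set T : ℝ := ∑' k, (maj C k : ℝ) with hT
      have hT0 : 0 ≤ T := tsum_nonneg fun k => maj_nonneg hC0 k
      have hhb : ∀ (j : Fin n) (a : Fin n → ℝ) (s : ℂ), s ∈ U → ‖h P N j a s‖ ≤ T := by
        intro j a s hs
        exact tsum_of_norm_bounded (maj_summable C).hasSum (fun k => hb1 j a k s hs)
      obtain ⟨Cb, hCb0, hCb⟩ := rapid_norm hn hq hb (E * N + (q * n + 1))
      set K : ℝ := Cb * ((q : ℝ) ^ E / c) ^ N * T with hK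
      have hK0 : 0 ≤ K := by positivity
      apply differentiableOn_tsum_of_summable_norm ((summable_double (n := n) (q := q)).mul_left K)
      · intro l
        rw [hterm]
        by_cases hl : comb ε l = 0
        · simp only [if_pos hl]; exact differentiableOn_const _
        · simp only [if_neg hl]
          exact (hh _ _).const_mul _
      · exact hUo
      · intro l s hs
        rw [hterm]
        by_cases hl : comb ε l = 0
        · simp only [if_pos hl, norm_zero]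
          exact mul_nonneg hK0 (Real.rpow_nonneg (norm_nonneg _) _)
        · simp only [if_neg hl]
          have hlpos : 0 < ‖l‖ := norm_pos_iff.2 (hl0 l hl)
          rw [norm_mul, norm_mul]
          have h1 := hnorm l hl N
          have h2 := hhb (jj (comb ε l)) (pt Θ (comb ε l)) s hs
          have h3 := hCb l
          have h4 : ‖l‖ ^ (E * N) * ‖b l‖ ≤ Cb * ‖l‖ ^ (-((q * n + 1 : ℕ) : ℝ)) := by
            rw [Real.rpow_neg hlpos.le, Real.rpow_natCast, ← div_eq_mul_inv,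
              le_div_iff₀ (by positivity)]
            calc ‖l‖ ^ (E * N) * ‖b l‖ * ‖l‖ ^ (q * n + 1)
                = ‖l‖ ^ (E * N + (q * n + 1)) * ‖b l‖ := by rw [pow_add]; ring
              _ ≤ Cb := h3
          calc ‖b l‖ * ‖((1 - ee (pt Θ (comb ε l) (jj (comb ε l)))) ^ N)⁻¹‖ *
                ‖h P N (jj (comb ε l)) (pt Θ (comb ε l)) s‖
              ≤ ‖b l‖ * (((q : ℝ) ^ E / c) ^ N * ‖l‖ ^ (E * N)) * T := by
                apply mul_le_mul _ h2 (norm_nonneg _) (by positivity)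
                exact mul_le_mul_of_nonneg_left h1 (norm_nonneg _)
            _ = ((q : ℝ) ^ E / c) ^ N * T * (‖l‖ ^ (E * N) * ‖b l‖) := by ring
            _ ≤ ((q : ℝ) ^ E / c) ^ N * T * (Cb * ‖l‖ ^ (-((q * n + 1 : ℕ) : ℝ))) :=
                mul_le_mul_of_nonneg_left h4 (by positivity)
            _ = K * ‖l‖ ^ (-((q * n + 1 : ℕ) : ℝ)) := by rw [hK]; ring
    intro s hs
    have h1 := hlocal (‖s‖ + 1) (by positivity)
    have h2 : s ∈ {s : ℂ | (d : ℝ) + n + 1 - N < s.re} ∩ Metric.ball 0 (‖s‖ + 1) :=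
      ⟨hs, by rw [mem_ball_zero_iff]; linarith⟩
    have hUo : IsOpen ({s : ℂ | (d : ℝ) + n + 1 - N < s.re} ∩ Metric.ball 0 (‖s‖ + 1)) :=
      (isOpen_lt continuous_const Complex.continuous_re).inter Metric.isOpen_ball
    exact (h1.differentiableAt (hUo.mem_nhds h2)).differentiableWithinAt
  · -- agreement
    intro N hN s hs
    unfold g0
    apply tsum_congr
    intro l
    rw [hterm]
    by_cases hl : comb ε l = 0
    · simp only [if_pos hl]
    · simp only [if_neg hl]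
      have h1 := by_parts_iter (pt Θ (comb ε l)) (jj (comb ε l)) N (coef_summable hP hs)
      have h2 : f P (Θ.mulVec (fun j => (comb ε l j : ℝ))) s =
          ∑' k, coef P s k * ee (dot k (pt Θ (comb ε l))) := rfl
      have h3 : h P N (jj (comb ε l)) (pt Θ (comb ε l)) s =
          ∑' k, ((Dl (jj (comb ε l)))^[N] (coef P s)) k * ee (dot k (pt Θ (comb ε l))) := rfl
      rw [h2, h3, ← h1, mul_assoc, inv_mul_cancel_left₀ (pow_ne_zero _ (hne l hl))]

end Main

end Pool.Agent.X124.LatMain
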