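import Mathlib
import Pool.Agent.X124.LatMain

/-!
# The matrix `√2 · 1`
-/

namespace Pool.Agent.X124.LatEx

open Pool.Agent.X124.LatDefs Pool.Agent.X124.LatDiff Pool.Agent.X124.LatCont
open Pool.Agent.X124.LatMain

/-- `|1 - e(x)| ≥ 4 |x - m|` for the nearest integer `m`. -/
lemma norm_one_sub_ee (x : ℝ) : 4 * |x - round x| ≤ ‖1 - ee x‖ := by
  have h1 : ee x = Complex.exp (Complex.I * ((2 * Real.pi * (x - round x) : ℝ) : ℂ)) := by
    unfold ee
    have h2 : (2 * Real.pi * Complex.I * x : ℂ) =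
        Complex.I * ((2 * Real.pi * (x - round x) : ℝ) : ℂ) +
          (round x : ℤ) * (2 * Real.pi * Complex.I) := by
      push_cast; ring
    rw [h2, Complex.exp_add, Complex.exp_int_mul_two_pi_mul_I, mul_one]
  rw [norm_sub_rev, h1, Complex.norm_exp_I_mul_ofReal_sub_one]
  have h3 : 2 * Real.pi * (x - round x) / 2 = Real.pi * (x - round x) := by ring
  rw [h3, Real.norm_eq_abs, abs_mul, abs_two]
  have h4 : |Real.pi * (x - round x)| ≤ Real.pi / 2 := by
    rw [abs_mul, abs_of_pos Real.pi_pos]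
    have := abs_sub_round x
    have := Real.pi_pos
    nlinarith
  have h5 := Real.mul_abs_le_abs_sin h4
  rw [abs_mul, abs_of_pos Real.pi_pos] at h5
  have h6 : 2 / Real.pi * (Real.pi * |x - round x|) = 2 * |x - round x| := by
    field_simp
  rw [h6] at h5
  linarith

lemma sqrt_two_far {m : ℤ} (hm : m ≠ 0) (p : ℤ) : 1 / (4 * |(m : ℝ)|) ≤ |Real.sqrt 2 * m - p| := by
  have hm1 : (1 : ℝ) ≤ |(m : ℝ)| := by exact_mod_cast Int.one_le_abs hm
  have h2 : Real.sqrt 2 ≤ 3 / 2 := by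
    rw [Real.sqrt_le_left (by norm_num)]; norm_num
  have h20 : 0 ≤ Real.sqrt 2 := Real.sqrt_nonneg 2
  have hsq : Real.sqrt 2 ^ 2 = 2 := Real.sq_sqrt (by norm_num)
  by_contra hlt
  push Not at hlt
  have h3 : |Real.sqrt 2 * m - p| < 1 / 4 := by
    refine lt_of_lt_of_le hlt ?_
    apply one_div_le_one_div_of_le (by norm_num)
    linarith
  have h4 : |Real.sqrt 2 * m + p| < 4 * |(m : ℝ)| := by
    have h5 : Real.sqrt 2 * m + p = 2 * (Real.sqrt 2 * m) - (Real.sqrt 2 * m - p) := by ring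
    have h6 : |Real.sqrt 2 * m + p| ≤ |2 * (Real.sqrt 2 * m)| + |Real.sqrt 2 * m - p| := by
      rw [h5]; exact abs_sub _ _
    have h7 : |2 * (Real.sqrt 2 * m)| ≤ 3 * |(m : ℝ)| := by
      rw [abs_mul, abs_mul, abs_two, abs_of_nonneg h20]
      have := abs_nonneg (m : ℝ)
      nlinarith
    linarith
  have h8 : (1 : ℝ) ≤ |Real.sqrt 2 * m - p| * |Real.sqrt 2 * m + p| := by
    rw [← abs_mul]
    have h9 : (Real.sqrt 2 * m - p) * (Real.sqrt 2 * m + p) = ((2 * m ^ 2 - p ^ 2 : ℤ) : ℝ) := by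
      push_cast
      calc (Real.sqrt 2 * m - p) * (Real.sqrt 2 * m + p) = Real.sqrt 2 ^ 2 * m ^ 2 - p ^ 2 := by ring
        _ = 2 * m ^ 2 - p ^ 2 := by rw [hsq]
    rw [h9]
    have h10 : (2 * m ^ 2 - p ^ 2 : ℤ) ≠ 0 := by
      intro h0
      have h11 : (2 : ℝ) * m ^ 2 = p ^ 2 := by
        have : ((2 * m ^ 2 - p ^ 2 : ℤ) : ℝ) = 0 := by rw [h0]; simp
        push_cast at this
        linarith
      have hm0 : (m : ℝ) ≠ 0 := by exact_mod_cast hm
      have h12 : Real.sqrt 2 = |(p : ℝ) / m| := by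
        rw [← Real.sqrt_sq_eq_abs]
        congr 1
        rw [div_pow, eq_div_iff (pow_ne_zero 2 hm0)]
        exact h11
      have h13 : Irrational (Real.sqrt 2) := irrational_sqrt_two
      apply h13
      refine ⟨|(p : ℚ) / m|, ?_⟩
      rw [h12]
      push_cast
      rfl
    exact_mod_cast Int.one_le_abs h10
  have h14 : |Real.sqrt 2 * m - p| * |Real.sqrt 2 * m + p| <
      1 / (4 * |(m : ℝ)|) * (4 * |(m : ℝ)|) := by
    apply mul_lt_mul'' hlt h4 (abs_nonneg _) (abs_nonneg _)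
  have h15 : 1 / (4 * |(m : ℝ)|) * (4 * |(m : ℝ)|) = 1 := by
    have : |(m : ℝ)| ≠ 0 := by linarith
    field_simp
  linarith

/-- `√2 · 1` has property (H). -/
theorem propH_sqrt_two {n : ℕ} (hn : 0 < n) :
    PropH (Real.sqrt 2 • (1 : Matrix (Fin n) (Fin n) ℝ)) := by
  apply propH_of _ hn (c := 1) one_pos 1
  intro L hL
  obtain ⟨j, hj⟩ := Function.ne_iff.1 hL
  refine ⟨j, ?_⟩
  have h1 : pt (Real.sqrt 2 • (1 : Matrix (Fin n) (Fin n) ℝ)) L j = Real.sqrt 2 * L j := by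
    unfold pt
    rw [Matrix.smul_mulVec, Matrix.one_mulVec]
    rfl
  rw [h1, pow_one]
  refine le_trans ?_ (norm_one_sub_ee _)
  have h2 := sqrt_two_far hj (round (Real.sqrt 2 * (L j : ℝ)))
  have hj1 : (1 : ℝ) ≤ |(L j : ℝ)| := by exact_mod_cast Int.one_le_abs hj
  have h3 : |(L j : ℝ)| ≤ ‖L‖ := by
    rw [← Int.norm_eq_abs]; exact norm_le_pi_norm L j
  calc 1 / ‖L‖ ≤ 1 / |(L j : ℝ)| := one_div_le_one_div_of_le (by linarith) h3
    _ = 4 * (1 / (4 * |(L j : ℝ)|)) := by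
      have : |(L j : ℝ)| ≠ 0 := by linarith
      field_simp
    _ ≤ _ := by linarith

/-- `√2 · 1` is not badly approximable for `n ≥ 2`. -/
theorem not_badMat {n : ℕ} (hn : 2 ≤ n) :
    ¬ BadMat (Real.sqrt 2 • (1 : Matrix (Fin n) (Fin n) ℝ)) := by
  rintro ⟨u, δ, _, c, hc, h⟩
  -- an integer vector orthogonal to `u`
  obtain ⟨v, hv, hvu⟩ : ∃ v : Fin n → ℤ, v ≠ 0 ∧ ∑ i, v i * u i = 0 := by
    set i0 : Fin n := ⟨0, by omega⟩ with hi0
    set i1 : Fin n := ⟨1, by omega⟩ with hi1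
    have h01 : i0 ≠ i1 := by
      intro h; rw [hi0, hi1, Fin.mk.injEq] at h; omega
    by_cases hu : u i0 = 0
    · refine ⟨Pi.single i0 1, ?_, ?_⟩
      · intro h; have := congrFun h i0; simp at this
      · rw [Finset.sum_eq_single i0]
        · rw [hu, mul_zero]
        · intro j _ hj; simp [Pi.single_apply, hj]
        · intro h; exact absurd (Finset.mem_univ _) h
    · refine ⟨Pi.single i0 (u i1) - Pi.single i1 (u i0), ?_, ?_⟩
      · intro h
        have := congrFun h i1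
        simp [Pi.single_apply, h01.symm] at this
        exact hu this
      · simp only [Pi.sub_apply, sub_mul, Finset.sum_sub_distrib, Pi.single_apply, ite_mul, zero_mul,
          Finset.sum_ite_eq', Finset.mem_univ, if_true]
        ring
  have h1 := h v hv 0
  have h2 : ∑ i, (v i : ℝ) * (Real.sqrt 2 • (1 : Matrix (Fin n) (Fin n) ℝ)).transpose.mulVec
      (fun j => (u j : ℝ)) i = 0 := by
    rw [Matrix.transpose_smul, Matrix.transpose_one, Matrix.smul_mulVec, Matrix.one_mulVec]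
    have h3 : ∀ i, (v i : ℝ) * (Real.sqrt 2 • (fun j => (u j : ℝ))) i =
        Real.sqrt 2 * ((v i * u i : ℤ) : ℝ) := by
      intro i
      simp only [Pi.smul_apply, smul_eq_mul]
      push_cast; ring
    rw [Finset.sum_congr rfl fun i _ => h3 i, ← Finset.mul_sum, ← Int.cast_sum, hvu]
    simp
  rw [h2] at h1
  simp only [Int.cast_zero, sub_zero, abs_zero] at h1
  have hpos : 0 < eucl v := lt_of_lt_of_le one_pos (one_le_eucl hv)
  have h4 : 0 < c * eucl v ^ (-δ) := by positivity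
  linarith

end Pool.Agent.X124.LatEx
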