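import Mathlib

/-!
# Random boxes in the unit cube: definitions
-/

namespace Pool.Agent.X124.BoxDefs

open MeasureTheory

/-- The unit cube `[0,1]^n`; `volume` is its Lebesgue (probability) measure. -/
abbrev Cube (n : ℕ) : Type := Fin n → unitInterval

/-- The law of a sequence of independent uniformly distributed points of `[0,1]^n`: the product of
countably many copies of the Lebesgue measure. -/
noncomputable def seqLaw (n : ℕ) : Measure (ℕ → Cube n) :=
  Measure.infinitePi (fun _ : ℕ => (volume : Measure (Cube n)))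

/-- `W_ω(Ψ)`: the points `x` with `|x_i - ω_{j,i}| < ψ_i(j)` for all `i`, for infinitely many
`j`. -/
def W {n : ℕ} (ω : ℕ → Cube n) (ψ : Fin n → ℕ → ℝ) : Set (Cube n) :=
  {x | ∃ᶠ j in Filter.atTop, ∀ i, |(x i : ℝ) - ω j i| < ψ i j}

end Pool.Agent.X124.BoxDefs
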