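import Mathlib
import Pool.Agent.X124.BoxDefs

/-!
# Covering by random boxes
-/

namespace Pool.Agent.X124.BoxCover

open MeasureTheory Pool.Agent.X124.BoxDefs Set
open scoped ENNReal

variable {n : ℕ}

instance : IsProbabilityMeasure (volume : Measure (Cube n)) := by
  unfold Cube; infer_instance

instance : IsProbabilityMeasure (seqLaw n) := by
  unfold seqLaw; infer_instance

/-- the open box with centre `x` and radii `r` -/
def Box (x : Cube n) (r : Fin n → ℝ) : Set (Cube n) := {y | ∀ i, |(y i : ℝ) - x i| < r i}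

lemma mem_Box_comm {x y : Cube n} {r : Fin n → ℝ} : y ∈ Box x r ↔ x ∈ Box y r := by
  unfold Box
  constructor <;> intro h i <;> rw [abs_sub_comm] <;> exact h i

/-- the one-dimensional factor -/
def Seg (x : unitInterval) (r : ℝ) : Set unitInterval := {y | |(y : ℝ) - x| < r}

lemma Box_eq (x : Cube n) (r : Fin n → ℝ) : Box x r = Set.pi univ (fun i => Seg (x i) (r i)) := by
  ext y
  simp [Box, Seg, Set.mem_pi]

lemma Seg_le (x : unitInterval) (r : ℝ) : volume (Seg x r) ≤ ENNReal.ofReal (2 * r) := by
  rw [unitInterval.volume_apply]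
  have h : Subtype.val '' (Seg x r) ⊆ Ioo ((x : ℝ) - r) (x + r) := by
    rintro _ ⟨y, hy, rfl⟩
    have : |(y : ℝ) - x| < r := hy
    rw [abs_lt] at this
    exact ⟨by linarith [this.1], by linarith [this.2]⟩
  refine (measure_mono h).trans (le_of_eq ?_)
  rw [Real.volume_Ioo]
  congr 1; ring

lemma Seg_ge (x : unitInterval) {r : ℝ} (_h0 : 0 < r) (h1 : r ≤ 1) :
    ENNReal.ofReal r ≤ volume (Seg x r) := by
  rw [unitInterval.volume_apply]
  have hx0 := x.2.1
  have hx1 := x.2.2
  by_cases ha : (x : ℝ) + r ≤ 1
  · have h : Ico (x : ℝ) (x + r) ⊆ Subtype.val '' (Seg x r) := by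
      rintro y ⟨hy1, hy2⟩
      refine ⟨⟨y, by constructor <;> linarith⟩, ?_, rfl⟩
      change |y - x| < r
      rw [abs_lt]; constructor <;> linarith
    refine le_trans (le_of_eq ?_) (measure_mono h)
    rw [Real.volume_Ico]; congr 1; ring
  · by_cases hb : 0 ≤ (x : ℝ) - r
    · have h : Ioc ((x : ℝ) - r) x ⊆ Subtype.val '' (Seg x r) := by
        rintro y ⟨hy1, hy2⟩
        refine ⟨⟨y, by constructor <;> linarith⟩, ?_, rfl⟩
        change |y - x| < r
        rw [abs_lt]; constructor <;> linarith
      refine le_trans (le_of_eq ?_) (measure_mono h)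
      rw [Real.volume_Ioc]; congr 1; ring
    · push Not at ha hb
      have h : Icc (0 : ℝ) 1 ⊆ Subtype.val '' (Seg x r) := by
        rintro y ⟨hy1, hy2⟩
        refine ⟨⟨y, by constructor <;> linarith⟩, ?_, rfl⟩
        change |y - x| < r
        rw [abs_lt]; constructor <;> linarith
      refine le_trans ?_ (measure_mono h)
      rw [Real.volume_Icc]
      apply ENNReal.ofReal_le_ofReal
      linarith

lemma Box_le (x : Cube n) (r : Fin n → ℝ) (hr : ∀ i, 0 ≤ r i) :
    volume (Box x r) ≤ ENNReal.ofReal (∏ i, (2 * r i)) := by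
  rw [Box_eq, volume_pi_pi, ENNReal.ofReal_prod_of_nonneg (fun i _ => by have := hr i; positivity)]
  exact Finset.prod_le_prod' fun i _ => Seg_le _ _

lemma Box_ge (x : Cube n) (r : Fin n → ℝ) (hr0 : ∀ i, 0 < r i) (hr1 : ∀ i, r i ≤ 1) :
    ENNReal.ofReal (∏ i, r i) ≤ volume (Box x r) := by
  rw [Box_eq, volume_pi_pi, ENNReal.ofReal_prod_of_nonneg (fun i _ => (hr0 i).le)]
  exact Finset.prod_le_prod' fun i _ => Seg_ge _ (hr0 i) (hr1 i)

lemma measurableSet_pair (r : Fin n → ℝ) :
    MeasurableSet {p : Cube n × Cube n | p.2 ∈ Box p.1 r} := by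
  have : {p : Cube n × Cube n | p.2 ∈ Box p.1 r} =
      ⋂ i, {p : Cube n × Cube n | |((p.2 i : unitInterval) : ℝ) - p.1 i| < r i} := by
    ext p; simp [Box]
  rw [this]
  refine MeasurableSet.iInter fun i => ?_
  apply measurableSet_lt _ measurable_const
  fun_prop

lemma measurableSet_Box (x : Cube n) (r : Fin n → ℝ) : MeasurableSet (Box x r) :=
  measurable_prodMk_left (measurableSet_pair r)

/-- measure of the part of `V` covered by the box around `y` -/
noncomputable def cov (V : Set (Cube n)) (r : Fin n → ℝ) (y : Cube n) : ℝ :=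
  (volume (V ∩ Box y r)).toReal

lemma cov_nonneg (V : Set (Cube n)) (r : Fin n → ℝ) (y : Cube n) : 0 ≤ cov V r y :=
  ENNReal.toReal_nonneg

lemma cov_le (V : Set (Cube n)) (r : Fin n → ℝ) (hr : ∀ i, 0 ≤ r i) (y : Cube n) :
    cov V r y ≤ ∏ i, (2 * r i) := by
  apply ENNReal.toReal_le_of_le_ofReal (Finset.prod_nonneg fun i _ => by have := hr i; positivity)
  exact (measure_mono inter_subset_right).trans (Box_le y r hr)

lemma measurable_covE {V : Set (Cube n)} (hV : MeasurableSet V) (r : Fin n → ℝ) :
    Measurable (fun y => volume (V ∩ Box y r)) := by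
  have hS : MeasurableSet {p : Cube n × Cube n | p.2 ∈ V ∧ p.2 ∈ Box p.1 r} :=
    (measurable_snd hV).inter (measurableSet_pair r)
  exact measurable_measure_prodMk_left hS

lemma measurable_cov {V : Set (Cube n)} (hV : MeasurableSet V) (r : Fin n → ℝ) :
    Measurable (cov V r) := (measurable_covE hV r).ennreal_toReal

/-- The mean of `cov V r`. -/
lemma integral_cov {V : Set (Cube n)} (hV : MeasurableSet V) (r : Fin n → ℝ) (hr0 : ∀ i, 0 < r i)
    (hr1 : ∀ i, r i ≤ 1) : (volume V).toReal * ∏ i, r i ≤ ∫ y, cov V r y := by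
  have hS : MeasurableSet {p : Cube n × Cube n | p.2 ∈ V ∧ p.2 ∈ Box p.1 r} :=
    (measurable_snd hV).inter (measurableSet_pair r)
  have h1 : ∫⁻ y, volume (V ∩ Box y r) =
      ∫⁻ z, volume {y : Cube n | z ∈ V ∧ z ∈ Box y r} := by
    have h2 := Measure.prod_apply (μ := (volume : Measure (Cube n)))
      (ν := (volume : Measure (Cube n))) hS
    have h3 := Measure.prod_apply_symm (μ := (volume : Measure (Cube n)))
      (ν := (volume : Measure (Cube n))) hS
    rw [h2] at h3
    exact h3
  have h4 : ENNReal.ofReal (∏ i, r i) * volume V ≤ ∫⁻ y, volume (V ∩ Box y r) := by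
    rw [h1, ← setLIntegral_const]
    rw [← lintegral_indicator hV]
    apply lintegral_mono
    intro z
    by_cases hz : z ∈ V
    · simp only [indicator_of_mem hz]
      refine (Box_ge z r hr0 hr1).trans (measure_mono ?_)
      intro y hy
      exact ⟨hz, mem_Box_comm.1 hy⟩
    · simp only [indicator_of_notMem hz]
      exact zero_le
  have h5 : ∫ y, cov V r y = (∫⁻ y, volume (V ∩ Box y r)).toReal := by
    unfold cov
    rw [integral_toReal (measurable_covE hV r).aemeasurable]
    exact Filter.Eventually.of_forall fun y => measure_lt_top _ _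
  rw [h5]
  have h6 : ∫⁻ y, volume (V ∩ Box y r) ≠ ∞ := by
    apply ne_of_lt
    calc ∫⁻ y, volume (V ∩ Box y r) ≤ ∫⁻ _y : Cube n, 1 := lintegral_mono fun y => prob_le_one
      _ = 1 := by simp
      _ < ∞ := ENNReal.one_lt_top
  have h7 := ENNReal.toReal_mono h6 h4
  rw [ENNReal.toReal_mul, ENNReal.toReal_ofReal (Finset.prod_nonneg fun i _ => (hr0 i).le)] at h7
  linarith

/-- **One random box.** -/
lemma one_step {V : Set (Cube n)} (hV : MeasurableSet V) (r : Fin n → ℝ) (hr0 : ∀ i, 0 < r i)
    (hr1 : ∀ i, r i ≤ 1) :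
    ∫⁻ y, ENNReal.ofReal (Real.exp (-(cov V r y / ∏ i, (2 * r i)))) ≤
      ENNReal.ofReal (Real.exp (-((volume V).toReal / 2 ^ (n + 1)))) := by
  set b : ℝ := ∏ i, (2 * r i) with hb
  have hb0 : 0 < b := Finset.prod_pos fun i _ => by have := hr0 i; positivity
  have hb' : b = 2 ^ n * ∏ i, r i := by
    rw [hb, Finset.prod_mul_distrib, Finset.prod_const, Finset.card_univ, Fintype.card_fin]
  have hprod : 0 < ∏ i, r i := Finset.prod_pos fun i _ => hr0 i
  have hmeas := measurable_cov hV r
  have hint : Integrable (fun y => cov V r y) := by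
    apply Integrable.of_bound hmeas.aestronglyMeasurable b
    exact Filter.Eventually.of_forall fun y => by
      rw [Real.norm_of_nonneg (cov_nonneg V r y)]
      exact cov_le V r (fun i => (hr0 i).le) y
  have hint2 : Integrable (fun y => Real.exp (-(cov V r y / b))) := by
    apply Integrable.of_bound (by fun_prop) 1
    exact Filter.Eventually.of_forall fun y => by
      rw [Real.norm_of_nonneg (Real.exp_pos _).le, Real.exp_le_one_iff]
      have := cov_nonneg V r y
      have : 0 ≤ cov V r y / b := by positivity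
      linarith
  rw [← ofReal_integral_eq_lintegral_ofReal hint2
    (Filter.Eventually.of_forall fun y => (Real.exp_pos _).le)]
  apply ENNReal.ofReal_le_ofReal
  have hpt : ∀ y, Real.exp (-(cov V r y / b)) ≤ 1 - cov V r y / (2 * b) := by
    intro y
    set u : ℝ := cov V r y / b with hu
    have hu0 : 0 ≤ u := div_nonneg (cov_nonneg V r y) hb0.le
    have hu1 : u ≤ 1 := by
      rw [hu, div_le_one hb0]; exact cov_le V r (fun i => (hr0 i).le) y
    have h1 : cov V r y / (2 * b) = u / 2 := by rw [hu]; field_simp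
    rw [h1]
    -- `e^{-u} ≤ 1 - u/2`, from `e^u ≥ 1 + u`
    have h2 : 1 + u ≤ Real.exp u := by linarith [Real.add_one_le_exp u]
    rw [Real.exp_neg]
    calc (Real.exp u)⁻¹ ≤ (1 + u)⁻¹ := inv_anti₀ (by linarith) h2
      _ ≤ 1 - u / 2 := by
        rw [inv_le_iff_one_le_mul₀ (by linarith)]
        nlinarith
  calc ∫ y, Real.exp (-(cov V r y / b)) ≤ ∫ y, (1 - cov V r y / (2 * b)) :=
        integral_mono hint2 ((integrable_const 1).sub (hint.div_const _)) hpt
    _ = 1 - (∫ y, cov V r y) / (2 * b) := by
        rw [integral_sub (integrable_const 1) (hint.div_const _), integral_const,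
          integral_div]
        simp
    _ ≤ 1 - ((volume V).toReal * ∏ i, r i) / (2 * b) := by
        have := integral_cov hV r hr0 hr1
        have h3 := div_le_div_of_nonneg_right this (by positivity : (0 : ℝ) ≤ 2 * b)
        linarith
    _ = 1 - (volume V).toReal / 2 ^ (n + 1) := by
        rw [hb', pow_succ]; field_simp
    _ ≤ Real.exp (-((volume V).toReal / 2 ^ (n + 1))) := by
        have := Real.add_one_le_exp (-((volume V).toReal / 2 ^ (n + 1)))
        linarith

/-- **Resampling one coordinate.** -/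
lemma resample (N : ℕ) {F : (ℕ → Cube n) → ℝ≥0∞} (hF : Measurable F) :
    ∫⁻ x, F x ∂(seqLaw n) = ∫⁻ x, (∫⁻ y, F (Function.update x N y)) ∂(seqLaw n) := by
  have hmeas : Measurable (fun p : (ℕ → Cube n) × Cube n => Function.update p.1 N p.2) := by
    rw [measurable_pi_iff]
    intro i
    by_cases hi : i = N
    · subst hi
      simp only [Function.update_self]
      exact measurable_snd
    · simp only [Function.update_of_ne hi]
      exact (measurable_pi_apply i).comp measurable_fst
  have hmap : Measure.map (fun p : (ℕ → Cube n) × Cube n => Function.update p.1 N p.2)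
      ((seqLaw n).prod volume) = seqLaw n := by
    apply Measure.eq_infinitePi
    intro s t ht
    rw [Measure.map_apply hmeas (MeasurableSet.pi s.countable_toSet fun i _ => ht i)]
    have hpre : (fun p : (ℕ → Cube n) × Cube n => Function.update p.1 N p.2) ⁻¹' (Set.pi s t) =
        (Set.pi (s.erase N : Finset ℕ) t) ×ˢ (if N ∈ s then t N else univ) := by
      ext ⟨x, y⟩
      simp only [mem_preimage, Set.mem_pi, mem_prod, Finset.coe_erase, Finset.mem_coe,
        mem_sdiff, mem_singleton_iff]
      constructor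
      · intro h
        refine ⟨fun i hi => ?_, ?_⟩
        · have := h i hi.1
          rwa [Function.update_of_ne hi.2] at this
        · split_ifs with hN
          · have := h N hN
            rwa [Function.update_self] at this
          · trivial
      · rintro ⟨h1, h2⟩ i hi
        by_cases hiN : i = N
        · subst hiN
          rw [if_pos hi] at h2
          rwa [Function.update_self]
        · rw [Function.update_of_ne hiN]
          exact h1 i ⟨hi, hiN⟩
    rw [hpre, Measure.prod_prod]
    have h1 : seqLaw n (Set.pi (s.erase N : Finset ℕ) t) =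
        ∏ i ∈ s.erase N, (volume : Measure (Cube n)) (t i) := by
      unfold seqLaw
      exact Measure.infinitePi_pi _ fun i _ => ht i
    rw [h1]
    split_ifs with hN
    · exact Finset.prod_erase_mul _ _ hN
    · rw [measure_univ, mul_one, Finset.erase_eq_of_notMem hN]
  conv_lhs => rw [← hmap]
  rw [lintegral_map hF hmeas]
  exact lintegral_prod (fun p : (ℕ → Cube n) × Cube n => F (Function.update p.1 N p.2))
    (hF.comp hmeas).aemeasurable

end Pool.Agent.X124.BoxCover
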