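import Mathlib
import Pool.Agent.X124.BoxCover

/-!
# One block of random boxes of equal size
-/

namespace Pool.Agent.X124.BoxBlock

open MeasureTheory Pool.Agent.X124.BoxDefs Pool.Agent.X124.BoxCover Set
open scoped ENNReal

variable {n : ℕ}

/-- the set left uncovered by the first `N` boxes -/
def V (r : ℕ → Fin n → ℝ) (x : ℕ → Cube n) (N : ℕ) : Set (Cube n) :=
  {z | ∀ j < N, z ∉ Box (x j) (r j)}

lemma V_succ (r : ℕ → Fin n → ℝ) (x : ℕ → Cube n) (N : ℕ) :
    V r x (N + 1) = V r x N \ Box (x N) (r N) := by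
  ext z
  constructor
  · intro h
    exact ⟨fun j hj => h j (by omega), h N (by omega)⟩
  · rintro ⟨h1, h2⟩ j hj
    rcases Nat.lt_succ_iff_lt_or_eq.1 hj with h | h
    · exact h1 j h
    · subst h; exact h2

lemma V_congr {r r' : ℕ → Fin n → ℝ} {x x' : ℕ → Cube n} {N : ℕ} (hx : ∀ j < N, x j = x' j)
    (hr : ∀ j < N, r j = r' j) : V r x N = V r' x' N := by
  ext z
  constructor
  · intro h j hj; rw [← hx j hj, ← hr j hj]; exact h j hj
  · intro h j hj; rw [hx j hj, hr j hj]; exact h j hj

lemma measurableSet_V_joint (r : ℕ → Fin n → ℝ) (N : ℕ) :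
    MeasurableSet {p : (ℕ → Cube n) × Cube n | p.2 ∈ V r p.1 N} := by
  have : {p : (ℕ → Cube n) × Cube n | p.2 ∈ V r p.1 N} =
      ⋂ j, ⋂ (_ : j < N), {p : (ℕ → Cube n) × Cube n | p.2 ∈ Box (p.1 j) (r j)}ᶜ := by
    ext p; simp [V]
  rw [this]
  refine MeasurableSet.iInter fun j => MeasurableSet.iInter fun _ => ?_
  apply MeasurableSet.compl
  have h : Measurable (fun p : (ℕ → Cube n) × Cube n => ((p.1 j, p.2) : Cube n × Cube n)) :=
    ((measurable_pi_apply j).comp measurable_fst).prodMk measurable_snd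
  exact h (measurableSet_pair (r j))

lemma measurableSet_V (r : ℕ → Fin n → ℝ) (x : ℕ → Cube n) (N : ℕ) : MeasurableSet (V r x N) :=
  measurable_prodMk_left (measurableSet_V_joint r N)

/-- the measure of the uncovered set -/
noncomputable def v (r : ℕ → Fin n → ℝ) (x : ℕ → Cube n) (N : ℕ) : ℝ := (volume (V r x N)).toReal

lemma v_nonneg (r : ℕ → Fin n → ℝ) (x : ℕ → Cube n) (N : ℕ) : 0 ≤ v r x N := ENNReal.toReal_nonneg

lemma v_le_one (r : ℕ → Fin n → ℝ) (x : ℕ → Cube n) (N : ℕ) : v r x N ≤ 1 :=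
  ENNReal.toReal_le_of_le_ofReal zero_le_one (by simpa using prob_le_one)

lemma measurable_v (r : ℕ → Fin n → ℝ) (N : ℕ) : Measurable (fun x => v r x N) :=
  (measurable_measure_prodMk_left (measurableSet_V_joint r N)).ennreal_toReal

lemma v_succ (r : ℕ → Fin n → ℝ) (x : ℕ → Cube n) (N : ℕ) :
    v r x (N + 1) = v r x N - cov (V r x N) (r N) (x N) := by
  unfold v cov
  rw [V_succ]
  have h := measure_inter_add_sdiff (μ := (volume : Measure (Cube n))) (V r x N)
    (measurableSet_Box (x N) (r N))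
  have h1 : (volume (V r x N ∩ Box (x N) (r N))) ≠ ∞ := measure_ne_top _ _
  have h2 : (volume (V r x N \ Box (x N) (r N))) ≠ ∞ := measure_ne_top _ _
  rw [← h, ENNReal.toReal_add h1 h2]
  ring

lemma v_antitone (r : ℕ → Fin n → ℝ) (x : ℕ → Cube n) : Antitone (v r x) :=
  antitone_nat_of_succ_le fun N => by
    rw [v_succ]
    have := cov_nonneg (V r x N) (r N) (x N)
    linarith

lemma measurable_covx (r : ℕ → Fin n → ℝ) (N : ℕ) (ρ : Fin n → ℝ) :
    Measurable (fun x : ℕ → Cube n => cov (V r x N) ρ (x N)) := by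
  have h : Measurable (fun p : (ℕ → Cube n) × Cube n => ((p.1 N, p.2) : Cube n × Cube n)) :=
    ((measurable_pi_apply N).comp measurable_fst).prodMk measurable_snd
  have hS : MeasurableSet {p : (ℕ → Cube n) × Cube n | p.2 ∈ V r p.1 N ∧ p.2 ∈ Box (p.1 N) ρ} :=
    (measurableSet_V_joint r N).inter (h (measurableSet_pair ρ))
  exact (measurable_measure_prodMk_left hS).ennreal_toReal

/-- the exponential weight of a block -/
noncomputable def Z (r : ℕ → Fin n → ℝ) (a m : ℕ) (ε b : ℝ) (x : ℕ → Cube n) : ℝ≥0∞ :=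
  if ε ≤ v r x (a + m) then ENNReal.ofReal (Real.exp (-((v r x a - v r x (a + m)) / b))) else 0

lemma measurable_Z (r : ℕ → Fin n → ℝ) (a m : ℕ) (ε b : ℝ) : Measurable (Z r a m ε b) := by
  unfold Z
  apply Measurable.ite
  · exact measurableSet_le measurable_const (measurable_v r _)
  · have h1 := measurable_v r a
    have h2 := measurable_v r (a + m)
    fun_prop
  · exact measurable_const

lemma block_exp (r : ℕ → Fin n → ℝ) (a : ℕ) (ρ : Fin n → ℝ) (hρ0 : ∀ i, 0 < ρ i)
    (hρ1 : ∀ i, ρ i ≤ 1) {ε : ℝ} (m : ℕ) (hr : ∀ j, a ≤ j → j < a + m → r j = ρ) :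
    ∫⁻ x, Z r a m ε (∏ i, (2 * ρ i)) x ∂(seqLaw n) ≤
      ENNReal.ofReal (Real.exp (-(ε / 2 ^ (n + 1) * m))) := by
  set b : ℝ := ∏ i, (2 * ρ i) with hb
  have hb0 : 0 < b := Finset.prod_pos fun i _ => by have := hρ0 i; positivity
  induction m with
  | zero =>
    simp only [Nat.cast_zero, mul_zero, neg_zero, Real.exp_zero, ENNReal.ofReal_one]
    calc ∫⁻ x, Z r a 0 ε b x ∂(seqLaw n) ≤ ∫⁻ _x, 1 ∂(seqLaw n) := by
          apply lintegral_mono
          intro x
          unfold Z
          split_ifs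
          · simp
          · exact zero_le
      _ = 1 := by simp
  | succ m ih =>
    have ih' := ih (fun j h1 h2 => hr j h1 (by omega))
    set N : ℕ := a + m with hN
    have hrN : r N = ρ := hr N (by omega) (by omega)
    set G : (ℕ → Cube n) → ℝ≥0∞ := fun x =>
      Z r a m ε b x * ENNReal.ofReal (Real.exp (-(cov (V r x N) ρ (x N) / b))) with hG
    have hGm : Measurable G := by
      apply (measurable_Z r a m ε b).mul
      have := measurable_covx r N ρ
      fun_prop
    have h1 : ∀ x, Z r a (m + 1) ε b x ≤ G x := by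
      intro x
      rw [hG]
      simp only []
      unfold Z
      have hs : v r x (a + (m + 1)) = v r x N - cov (V r x N) ρ (x N) := by
        rw [← hrN]; exact v_succ r x N
      have hc := cov_nonneg (V r x N) ρ (x N)
      split_ifs with h2 h3 h3
      · rw [← ENNReal.ofReal_mul (Real.exp_pos _).le, ← Real.exp_add]
        apply ENNReal.ofReal_le_ofReal
        apply Real.exp_le_exp.2
        rw [hs]
        apply le_of_eq
        rw [← hN]
        field_simp
        ring
      · exfalso; apply h3; rw [hs] at h2; linarith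
      · exact zero_le
      · exact zero_le
    calc ∫⁻ x, Z r a (m + 1) ε b x ∂(seqLaw n) ≤ ∫⁻ x, G x ∂(seqLaw n) := lintegral_mono h1
      _ = ∫⁻ x, (∫⁻ y, G (Function.update x N y)) ∂(seqLaw n) := resample N hGm
      _ ≤ ∫⁻ x, Z r a m ε b x * ENNReal.ofReal (Real.exp (-(ε / 2 ^ (n + 1)))) ∂(seqLaw n) := by
        apply lintegral_mono
        intro x
        have hupd : ∀ y, ∀ j < N, Function.update x N y j = x j := fun y j hj => by
          rw [Function.update_of_ne hj.ne]
        have hV : ∀ y, ∀ M ≤ N, V r (Function.update x N y) M = V r x M := fun y M hM =>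
          V_congr (fun j hj => hupd y j (by omega)) (fun _ _ => rfl)
        have hv : ∀ y, ∀ M ≤ N, v r (Function.update x N y) M = v r x M := fun y M hM => by
          unfold v; rw [hV y M hM]
        have hZ : ∀ y, Z r a m ε b (Function.update x N y) = Z r a m ε b x := fun y => by
          unfold Z; rw [hv y _ le_rfl, hv y a (by omega)]
        have h2 : ∀ y, G (Function.update x N y) =
            Z r a m ε b x * ENNReal.ofReal (Real.exp (-(cov (V r x N) ρ y / b))) := fun y => by
          rw [hG]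
          simp only []
          rw [hZ, hV y N le_rfl, Function.update_self]
        simp only [h2]
        rw [lintegral_const_mul _ (by
          have := measurable_cov (measurableSet_V r x N) ρ
          fun_prop)]
        unfold Z
        split_ifs with h3
        · apply mul_le_mul_right
          refine (one_step (measurableSet_V r x N) ρ hρ0 hρ1).trans ?_
          apply ENNReal.ofReal_le_ofReal
          apply Real.exp_le_exp.2
          have h4 : ε / 2 ^ (n + 1) ≤ v r x N / 2 ^ (n + 1) :=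
            div_le_div_of_nonneg_right h3 (by positivity)
          have h5 : (volume (V r x N)).toReal = v r x N := rfl
          rw [h5]
          linarith
        · simp
      _ = (∫⁻ x, Z r a m ε b x ∂(seqLaw n)) * ENNReal.ofReal (Real.exp (-(ε / 2 ^ (n + 1)))) :=
        lintegral_mul_const _ (measurable_Z r a m ε b)
      _ ≤ ENNReal.ofReal (Real.exp (-(ε / 2 ^ (n + 1) * m))) *
          ENNReal.ofReal (Real.exp (-(ε / 2 ^ (n + 1)))) := mul_le_mul_left ih' _
      _ = ENNReal.ofReal (Real.exp (-(ε / 2 ^ (n + 1) * (m + 1 : ℕ)))) := by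
        rw [← ENNReal.ofReal_mul (Real.exp_pos _).le, ← Real.exp_add]
        congr 2
        push_cast; ring

/-- **A block rarely covers too little.** -/
lemma block_prob (r : ℕ → Fin n → ℝ) (a : ℕ) (ρ : Fin n → ℝ) (hρ0 : ∀ i, 0 < ρ i)
    (hρ1 : ∀ i, ρ i ≤ 1) (ε : ℝ) (L : ℕ) (hr : ∀ j, a ≤ j → j < a + L → r j = ρ) :
    seqLaw n {x | ε ≤ v r x (a + L) ∧
      v r x a - v r x (a + L) ≤ (∏ i, (2 * ρ i)) * (ε / 2 ^ (n + 2) * L)} ≤
      ENNReal.ofReal (Real.exp (-(ε / 2 ^ (n + 2) * L))) := by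
  set b : ℝ := ∏ i, (2 * ρ i) with hb
  have hb0 : 0 < b := Finset.prod_pos fun i _ => by have := hρ0 i; positivity
  set c : ℝ≥0∞ := ENNReal.ofReal (Real.exp (-(ε / 2 ^ (n + 2) * L))) with hc
  have hc0 : c ≠ 0 := by
    rw [hc]; simp [Real.exp_pos]
  have hctop : c ≠ ∞ := ENNReal.ofReal_ne_top
  have h1 : {x | ε ≤ v r x (a + L) ∧ v r x a - v r x (a + L) ≤ b * (ε / 2 ^ (n + 2) * L)} ⊆
      {x | c ≤ Z r a L ε b x} := by
    rintro x ⟨h2, h3⟩
    change c ≤ Z r a L ε b x
    unfold Z
    rw [if_pos h2]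
    apply ENNReal.ofReal_le_ofReal
    apply Real.exp_le_exp.2
    have h4 : (v r x a - v r x (a + L)) / b ≤ ε / 2 ^ (n + 2) * L := by
      rw [div_le_iff₀ hb0]; linarith
    linarith
  have h2 := mul_meas_ge_le_lintegral (μ := seqLaw n) (measurable_Z r a L ε b) c
  have h3 := block_exp r a ρ hρ0 hρ1 (ε := ε) L hr
  have h4 : c * seqLaw n {x | c ≤ Z r a L ε b x} ≤ c * c := by
    refine (h2.trans h3).trans (le_of_eq ?_)
    rw [hc, ← ENNReal.ofReal_mul (Real.exp_pos _).le, ← Real.exp_add]
    congr 2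
    rw [pow_succ 2 (n + 1)]
    field_simp
    ring
  have h5 : seqLaw n {x | c ≤ Z r a L ε b x} ≤ c :=
    (ENNReal.mul_le_mul_iff_right hc0 hctop).1 h4
  exact (measure_mono h1).trans h5

end Pool.Agent.X124.BoxBlock
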