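import Mathlib
import Pool.Agent.X124.BoxBlock

/-!
# All dyadic histories at once
-/

namespace Pool.Agent.X124.BoxMain

open MeasureTheory Pool.Agent.X124.BoxDefs Pool.Agent.X124.BoxCover Pool.Agent.X124.BoxBlock Set
open Filter Topology
open scoped ENNReal

variable {n : ℕ}

/-- the radius with code `c`: `0` for `c = 0`, and `2^{-(c-1)}` otherwise -/
noncomputable def rd (c : ℕ) : ℝ := if c = 0 then 0 else (1 / 2) ^ (c - 1)

lemma rd_zero : rd 0 = 0 := rfl

lemma rd_pos {c : ℕ} (hc : c ≠ 0) : 0 < rd c := by unfold rd; rw [if_neg hc]; positivity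

lemma rd_le_one (c : ℕ) : rd c ≤ 1 := by
  unfold rd
  split_ifs
  · exact zero_le_one
  · exact pow_le_one₀ (by norm_num) (by norm_num)

/-- the radii of a history of codes; the `j`-th box has the code of the dyadic block of `j` -/
noncomputable def rad (h : ℕ → Fin n → ℕ) (j : ℕ) : Fin n → ℝ := fun l => rd (h (Nat.log 2 j) l)

/-- extension of a finite history -/
def ext (k : ℕ) (g : Fin (k + 1) → Fin n → Fin (2 * k + 2)) (i : ℕ) (l : Fin n) : ℕ :=
  if hi : i < k + 1 then g ⟨i, hi⟩ l else 0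

/-- the bad event at stage `k` for one history -/
def B (ε : ℝ) (k : ℕ) (h : ℕ → Fin n → ℕ) : Set (ℕ → Cube n) :=
  {x | (∀ l, h k l ≠ 0) ∧ ε ≤ v (rad h) x (2 ^ k + 2 ^ k) ∧
    v (rad h) x (2 ^ k) - v (rad h) x (2 ^ k + 2 ^ k) ≤
      (∏ l, (2 * rd (h k l))) * (ε / 2 ^ (n + 2) * (2 ^ k : ℕ))}

/-- the bad event at stage `k` -/
def E (ε : ℝ) (k : ℕ) : Set (ℕ → Cube n) :=
  ⋃ g : Fin (k + 1) → Fin n → Fin (2 * k + 2), B ε k (ext k g)

lemma log_block {k j : ℕ} (h1 : 2 ^ k ≤ j) (h2 : j < 2 ^ k + 2 ^ k) : Nat.log 2 j = k := by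
  have h3 : j < 2 ^ (k + 1) := by rw [pow_succ]; omega
  exact Nat.log_eq_of_pow_le_of_lt_pow h1 h3

lemma prob_B (ε : ℝ) (k : ℕ) (h : ℕ → Fin n → ℕ) :
    seqLaw n (B ε k h) ≤ ENNReal.ofReal (Real.exp (-(ε / 2 ^ (n + 2) * (2 ^ k : ℕ)))) := by
  by_cases h0 : ∀ l, h k l ≠ 0
  · have h1 := block_prob (rad h) (2 ^ k) (fun l => rd (h k l)) (fun l => rd_pos (h0 l))
      (fun l => rd_le_one _) ε (2 ^ k) (fun j hj1 hj2 => by
        unfold rad; rw [log_block hj1 hj2])
    refine (measure_mono ?_).trans h1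
    rintro x ⟨_, h2, h3⟩
    exact ⟨h2, h3⟩
  · have : B ε k h = ∅ := by
      ext x
      simp only [mem_empty_iff_false, iff_false]
      rintro ⟨h2, _⟩
      exact h0 h2
    rw [this, measure_empty]
    exact zero_le

/-- the bound for the probability of the bad event -/
noncomputable def bd (n : ℕ) (ε : ℝ) (k : ℕ) : ℝ :=
  (((2 * k + 2 : ℕ) : ℝ) ^ n) ^ (k + 1) * Real.exp (-(ε / 2 ^ (n + 2) * (2 ^ k : ℕ)))

lemma prob_E (ε : ℝ) (k : ℕ) : seqLaw n (E ε k) ≤ ENNReal.ofReal (bd n ε k) := by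
  unfold E
  refine (measure_iUnion_fintype_le _ _).trans ?_
  refine (Finset.sum_le_sum fun g _ => prob_B ε k (ext k g)).trans ?_
  rw [Finset.sum_const, Finset.card_univ, Fintype.card_pi_const, Fintype.card_pi_const,
    Fintype.card_fin, nsmul_eq_mul]
  unfold bd
  rw [ENNReal.ofReal_mul (by positivity)]
  apply le_of_eq
  congr 1
  rw [ENNReal.ofReal_pow (by positivity), ENNReal.ofReal_pow (by positivity),
    ENNReal.ofReal_natCast]
  push_cast
  rfl

lemma summable_bd {ε : ℝ} (hε : 0 < ε) : Summable (bd n ε) := by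
  set c : ℝ := ε / 2 ^ (n + 2) with hc
  have hc0 : 0 < c := by positivity
  have h1 := tendsto_pow_const_div_const_pow_of_one_lt 2 (show (1 : ℝ) < 2 by norm_num)
  have h2 : ∀ᶠ k : ℕ in atTop, (k : ℝ) ^ 2 / 2 ^ k < c / (8 * n + 1) :=
    h1.eventually_lt_const (by positivity)
  have h3 : Summable (fun k : ℕ => (Real.exp (-1)) ^ k) :=
    summable_geometric_of_lt_one (Real.exp_pos _).le (by
      rw [Real.exp_lt_one_iff]; norm_num)
  apply Summable.of_norm_bounded_eventually_nat h3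
  filter_upwards [h2, eventually_ge_atTop 1] with k hk hk1
  have hbd0 : 0 ≤ bd n ε k := by unfold bd; positivity
  rw [Real.norm_of_nonneg hbd0]
  unfold bd
  have hk1' : (1 : ℝ) ≤ k := by exact_mod_cast hk1
  have h4 : (((2 * k + 2 : ℕ) : ℝ) ^ n) ^ (k + 1) ≤
      Real.exp ((2 * k + 2) * n * (k + 1)) := by
    have h5 : ((2 * k + 2 : ℕ) : ℝ) ≤ Real.exp (2 * k + 2) := by
      push_cast
      linarith [Real.add_one_le_exp ((2 : ℝ) * k + 2)]
    calc (((2 * k + 2 : ℕ) : ℝ) ^ n) ^ (k + 1) ≤ (Real.exp (2 * k + 2) ^ n) ^ (k + 1) := by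
          gcongr
      _ = Real.exp ((2 * k + 2) * n * (k + 1)) := by
          rw [← Real.exp_nat_mul, ← Real.exp_nat_mul]
          congr 1
          push_cast; ring
  rw [← Real.exp_nat_mul]
  refine (mul_le_mul_of_nonneg_right h4 (Real.exp_pos _).le).trans ?_
  rw [← Real.exp_add]
  apply Real.exp_le_exp.2
  have h6 : (8 * (n : ℝ) + 1) * (k : ℝ) ^ 2 ≤ c * 2 ^ k := by
    rw [div_lt_div_iff₀ (by positivity) (by positivity)] at hk
    linarith
  have h7 : (2 * (k : ℝ) + 2) * n * (k + 1) ≤ 8 * n * (k : ℝ) ^ 2 := by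
    have h8 : (2 * (k : ℝ) + 2) * (k + 1) ≤ 8 * (k : ℝ) ^ 2 := by nlinarith
    have hn : (0 : ℝ) ≤ n := Nat.cast_nonneg n
    nlinarith [mul_le_mul_of_nonneg_right h8 hn]
  have h9 : (k : ℝ) ≤ (k : ℝ) ^ 2 := by nlinarith
  rw [← hc]
  push_cast
  linarith

/-- **Almost surely, all but finitely many bad events fail.** -/
lemma ae_good {ε : ℝ} (hε : 0 < ε) : ∀ᵐ x ∂(seqLaw n), ∀ᶠ k in atTop, x ∉ E (n := n) ε k := by
  apply ae_eventually_notMem
  have h1 : ∑' k, ENNReal.ofReal (bd n ε k) ≠ ∞ := (summable_bd hε).tsum_ofReal_ne_top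
  exact ne_top_of_le_ne_top h1 (ENNReal.tsum_le_tsum fun k => prob_E ε k)

/-- the mass of a block -/
noncomputable def mass (h : ℕ → Fin n → ℕ) (i : ℕ) : ℝ :=
  by classical exact if ∀ l, h i l ≠ 0 then 2 ^ i * ∏ l, rd (h i l) else 0

lemma mass_nonneg (h : ℕ → Fin n → ℕ) (i : ℕ) : 0 ≤ mass h i := by
  classical
  unfold mass
  split_ifs with h0
  · have : 0 ≤ ∏ l, rd (h i l) := Finset.prod_nonneg fun l _ => (rd_pos (h0 l)).le
    positivity
  · exact le_rfl

/-- **Divergent mass uncovers less than `ε`.** -/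
lemma small_of_good {ε : ℝ} (hε : 0 < ε) {x : ℕ → Cube n} {k₀ : ℕ} (hx : ∀ k ≥ k₀, x ∉ E ε k)
    (h : ℕ → Fin n → ℕ) (hh : ∀ i l, h i l ≤ 2 * i + 1) (hdiv : ¬ Summable (mass h)) :
    ∃ N, v (rad h) x N < ε := by
  classical
  by_contra hcon
  push Not at hcon
  apply hdiv
  have hstep : ∀ k ≥ k₀, ε / 4 * mass h k ≤ v (rad h) x (2 ^ k) - v (rad h) x (2 ^ (k + 1)) := by
    intro k hk
    have hpow : 2 ^ (k + 1) = 2 ^ k + 2 ^ k := by ring
    by_cases h0 : ∀ l, h k l ≠ 0
    · have h1 := hx k hk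
      unfold E at h1
      rw [mem_iUnion] at h1
      push Not at h1
      set g : Fin (k + 1) → Fin n → Fin (2 * k + 2) := fun i l =>
        ⟨h i l, by have := hh i l; have := i.2; omega⟩ with hg
      have h2 := h1 g
      have hext : ∀ i < k + 1, ∀ l, ext k g i l = h i l := by
        intro i hi l
        unfold ext
        rw [dif_pos hi]
      have hrad : ∀ j < 2 ^ k + 2 ^ k, rad (ext k g) j = rad h j := by
        intro j hj
        funext l
        unfold rad
        rw [hext]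
        rcases Nat.eq_zero_or_pos j with hj0 | hj0
        · subst hj0; simp
        · exact Nat.log_lt_of_lt_pow hj0.ne' (by rw [hpow]; exact hj)
      have hv : ∀ N ≤ 2 ^ k + 2 ^ k, v (rad (ext k g)) x N = v (rad h) x N := by
        intro N hN
        unfold v
        rw [V_congr (fun _ _ => rfl) (fun j hj => hrad j (by omega))]
      have h3 : ¬ (v (rad h) x (2 ^ k) - v (rad h) x (2 ^ k + 2 ^ k) ≤
          (∏ l, (2 * rd (h k l))) * (ε / 2 ^ (n + 2) * (2 ^ k : ℕ))) := by
        intro h4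
        apply h2
        refine ⟨fun l => ?_, ?_, ?_⟩
        · rw [hext k (by omega)]; exact h0 l
        · rw [hv _ le_rfl]; exact hcon _
        · rw [hv _ le_rfl, hv _ (Nat.le_add_right _ _)]
          have h5 : ∀ l, ext k g k l = h k l := fun l => hext k (by omega) l
          simp only [h5]
          exact h4
      push Not at h3
      rw [hpow]
      refine le_trans (le_of_eq ?_) h3.le
      unfold mass
      rw [if_pos h0, Finset.prod_mul_distrib, Finset.prod_const, Finset.card_univ,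
        Fintype.card_fin, pow_add]
      push_cast
      field_simp
      norm_num
      ring
    · have h1 : mass h k = 0 := by unfold mass; rw [if_neg h0]
      rw [h1, mul_zero]
      have h2 := v_antitone (rad h) x (show 2 ^ k ≤ 2 ^ (k + 1) from
        Nat.pow_le_pow_right (by norm_num) (by omega))
      linarith
  have hsum : ∀ m, ∑ i ∈ Finset.range m, ε / 4 * mass h (i + k₀) ≤
      v (rad h) x (2 ^ k₀) - v (rad h) x (2 ^ (m + k₀)) := by
    intro m
    induction m with
    | zero => simp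
    | succ m ih =>
      rw [Finset.sum_range_succ]
      have h1 := hstep (m + k₀) (by omega)
      have h2 : m + k₀ + 1 = m + 1 + k₀ := by ring
      rw [h2] at h1
      linarith
  have h1 : Summable (fun i => ε / 4 * mass h (i + k₀)) := by
    apply summable_of_sum_range_le (c := 1) (fun i => mul_nonneg (by positivity) (mass_nonneg _ _))
    intro m
    have h2 := hsum m
    have h3 := v_le_one (rad h) x (2 ^ k₀)
    have h4 := v_nonneg (rad h) x (2 ^ (m + k₀))
    linarith
  have h2 : Summable (fun i => mass h (i + k₀)) := by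
    have h3 := h1.mul_left (4 / ε)
    refine h3.congr fun i => ?_
    field_simp
  exact (summable_nat_add_iff k₀).1 h2

section Det

variable {ψ : Fin n → ℕ → ℝ} (hpos : ∀ l j, 0 < ψ l j) (hanti : ∀ l, Antitone (ψ l))

lemma exists_code (t : ℝ) (ht : 0 < t) : ∃ c : ℕ, (1 / 2 : ℝ) ^ c ≤ t := by
  obtain ⟨c, hc⟩ := exists_pow_lt_of_lt_one ht (show (1 / 2 : ℝ) < 1 by norm_num)
  exact ⟨c, hc.le⟩

/-- the least `c` with `2^{-c} ≤ ψ_l(2^{i+1})` -/
noncomputable def cc (i : ℕ) (l : Fin n) : ℕ := by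
  classical exact Nat.find (exists_code (ψ l (2 ^ (i + 1))) (hpos l _))

lemma cc_spec (i : ℕ) (l : Fin n) : (1 / 2 : ℝ) ^ (cc hpos i l) ≤ ψ l (2 ^ (i + 1)) := by
  classical
  unfold cc
  exact Nat.find_spec (exists_code (ψ l (2 ^ (i + 1))) (hpos l _))

lemma cc_min (i : ℕ) (l : Fin n) {m : ℕ} (hm : m < cc hpos i l) :
    ψ l (2 ^ (i + 1)) < (1 / 2 : ℝ) ^ m := by
  classical
  unfold cc at hm
  have := Nat.find_min (exists_code (ψ l (2 ^ (i + 1))) (hpos l _)) hm
  push Not at this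
  exact this

/-- the history attached to `ψ`, from block `K` on -/
noncomputable def hist (K : ℕ) (i : ℕ) (l : Fin n) : ℕ :=
  if K ≤ i ∧ cc hpos i l ≤ 2 * i then cc hpos i l + 1 else 0

lemma hist_le (K i : ℕ) (l : Fin n) : hist hpos K i l ≤ 2 * i + 1 := by
  unfold hist
  split_ifs with h
  · have := h.2; omega
  · omega

include hanti in
lemma rad_le (K j : ℕ) (l : Fin n) (h : hist hpos K (Nat.log 2 j) l ≠ 0) :
    rad (hist hpos K) j l ≤ ψ l j := by
  unfold rad rd
  rw [if_neg h]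
  unfold hist at h ⊢
  split_ifs at h ⊢ with h1
  · rw [Nat.add_sub_cancel]
    refine (cc_spec hpos _ l).trans (hanti l ?_)
    exact (Nat.lt_pow_succ_log_self (by norm_num) j).le
  · exact absurd rfl h

include hpos hanti in
lemma mass_div (hdiv : ¬ Summable (fun j => ∏ l, ψ l j)) (K : ℕ) :
    ¬ Summable (mass (hist hpos K)) := by
  classical
  intro hsum
  apply hdiv
  set g : ℕ → ℝ := fun j => ∏ l, ψ l j with hg
  have hg0 : ∀ j, 0 ≤ g j := fun j => Finset.prod_nonneg fun l _ => (hpos l j).le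
  have hganti : ∀ ⦃a b : ℕ⦄, 0 < a → a ≤ b → g b ≤ g a := fun a b _ hab =>
    Finset.prod_le_prod (fun l _ => (hpos l b).le) fun l _ => hanti l hab
  rw [← summable_condensed_iff_of_nonneg hg0 hganti, ← summable_nat_add_iff 1,
    ← summable_nat_add_iff K]
  set Mx : ℝ := ∏ l, max 1 (ψ l 0) with hM
  have hM0 : 0 < Mx := Finset.prod_pos fun l _ => lt_of_lt_of_le one_pos (le_max_left _ _)
  have hgeo : Summable (fun i : ℕ => (1 / 2 : ℝ) ^ i) :=
    summable_geometric_of_lt_one (by norm_num) (by norm_num)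
  have hmaj : Summable (fun i : ℕ => 2 * (2 ^ n * Mx * mass (hist hpos K) (i + K) +
      Mx * (1 / 2 : ℝ) ^ (i + K))) :=
    ((((summable_nat_add_iff K).2 hsum).mul_left _).add
      (((summable_nat_add_iff K).2 hgeo).mul_left _)).mul_left 2
  apply Summable.of_nonneg_of_le (fun i => by have := hg0 (2 ^ (i + K + 1)); positivity) _ hmaj
  intro i
  set I := i + K with hI
  have hKI : K ≤ I := by omega
  suffices hs : 2 ^ I * g (2 ^ (I + 1)) ≤ 2 ^ n * Mx * mass (hist hpos K) I +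
      Mx * (1 / 2 : ℝ) ^ I by
    calc 2 ^ (I + 1) * g (2 ^ (I + 1)) = 2 * (2 ^ I * g (2 ^ (I + 1))) := by ring
      _ ≤ _ := mul_le_mul_of_nonneg_left hs (by norm_num)
  have hmax : ∀ l, (1 : ℝ) ≤ max 1 (ψ l 0) := fun l => le_max_left _ _
  have hψM : ∀ l j, ψ l j ≤ max 1 (ψ l 0) := fun l j =>
    (hanti l (Nat.zero_le j)).trans (le_max_right _ _)
  by_cases hall : ∀ l, cc hpos I l ≤ 2 * I
  · have hh : ∀ l, hist hpos K I l = cc hpos I l + 1 := fun l => by
      unfold hist; rw [if_pos ⟨hKI, hall l⟩]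
    have hmass : mass (hist hpos K) I = 2 ^ I * ∏ l, (1 / 2 : ℝ) ^ (cc hpos I l) := by
      unfold mass
      rw [if_pos (fun l => by rw [hh l]; omega)]
      congr 1
      apply Finset.prod_congr rfl
      intro l _
      rw [hh l]
      unfold rd
      rw [if_neg (by omega), Nat.add_sub_cancel]
    have h1 : g (2 ^ (I + 1)) ≤ 2 ^ n * Mx * ∏ l, (1 / 2 : ℝ) ^ (cc hpos I l) := by
      have h2 : (2 : ℝ) ^ n * Mx * ∏ l, (1 / 2 : ℝ) ^ (cc hpos I l) =
          ∏ l, (2 * max 1 (ψ l 0) * (1 / 2 : ℝ) ^ (cc hpos I l)) := by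
        rw [Finset.prod_mul_distrib, Finset.prod_mul_distrib, Finset.prod_const,
          Finset.card_univ, Fintype.card_fin]
      rw [h2, hg]
      apply Finset.prod_le_prod (fun l _ => (hpos l _).le)
      intro l _
      rcases Nat.eq_zero_or_pos (cc hpos I l) with h0 | h0
      · rw [h0, pow_zero, mul_one]
        have := hψM l (2 ^ (I + 1))
        have := hmax l
        linarith
      · have h3 := cc_min hpos I l (m := cc hpos I l - 1) (by omega)
        have h4 : (1 / 2 : ℝ) ^ (cc hpos I l - 1) = 2 * (1 / 2 : ℝ) ^ (cc hpos I l) := by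
          obtain ⟨m, hm⟩ : ∃ m, cc hpos I l = m + 1 := ⟨cc hpos I l - 1, by omega⟩
          rw [hm, Nat.add_sub_cancel, pow_succ]; ring
        rw [h4] at h3
        have h5 : 0 < (1 / 2 : ℝ) ^ (cc hpos I l) := by positivity
        have := hmax l
        nlinarith
    rw [hmass]
    have h3 : 0 ≤ Mx * (1 / 2 : ℝ) ^ I := by positivity
    calc 2 ^ I * g (2 ^ (I + 1)) ≤ 2 ^ I * (2 ^ n * Mx * ∏ l, (1 / 2 : ℝ) ^ (cc hpos I l)) :=
          mul_le_mul_of_nonneg_left h1 (by positivity)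
      _ = 2 ^ n * Mx * (2 ^ I * ∏ l, (1 / 2 : ℝ) ^ (cc hpos I l)) := by ring
      _ ≤ _ := by linarith
  · push Not at hall
    obtain ⟨l₀, hl₀⟩ := hall
    have h1 := cc_min hpos I l₀ hl₀
    have h2 : g (2 ^ (I + 1)) ≤ (1 / 2 : ℝ) ^ (2 * I) * Mx := by
      rw [hg, hM]
      simp only []
      rw [← Finset.mul_prod_erase Finset.univ (fun l => ψ l (2 ^ (I + 1))) (Finset.mem_univ l₀),
        ← Finset.mul_prod_erase Finset.univ (fun l => max 1 (ψ l 0)) (Finset.mem_univ l₀)]
      have h3 : ∏ l ∈ Finset.univ.erase l₀, ψ l (2 ^ (I + 1)) ≤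
          ∏ l ∈ Finset.univ.erase l₀, max 1 (ψ l 0) :=
        Finset.prod_le_prod (fun l _ => (hpos l _).le) fun l _ => hψM l _
      have h4 : 0 ≤ ∏ l ∈ Finset.univ.erase l₀, ψ l (2 ^ (I + 1)) :=
        Finset.prod_nonneg fun l _ => (hpos l _).le
      calc ψ l₀ (2 ^ (I + 1)) * ∏ l ∈ Finset.univ.erase l₀, ψ l (2 ^ (I + 1))
          ≤ (1 / 2 : ℝ) ^ (2 * I) * ∏ l ∈ Finset.univ.erase l₀, max 1 (ψ l 0) :=
            mul_le_mul h1.le h3 h4 (by positivity)
        _ ≤ (1 / 2 : ℝ) ^ (2 * I) *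
            (max 1 (ψ l₀ 0) * ∏ l ∈ Finset.univ.erase l₀, max 1 (ψ l 0)) := by
            apply mul_le_mul_of_nonneg_left _ (by positivity)
            exact le_mul_of_one_le_left (h4.trans h3) (hmax l₀)
    have h3 : 0 ≤ 2 ^ n * Mx * mass (hist hpos K) I := by
      have := mass_nonneg (hist hpos K) I
      positivity
    calc 2 ^ I * g (2 ^ (I + 1)) ≤ 2 ^ I * ((1 / 2 : ℝ) ^ (2 * I) * Mx) :=
          mul_le_mul_of_nonneg_left h2 (by positivity)
      _ = Mx * (1 / 2 : ℝ) ^ I * (2 ^ I * (1 / 2 : ℝ) ^ I) := by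
          rw [two_mul, pow_add]; ring
      _ = Mx * (1 / 2 : ℝ) ^ I := by
          rw [← mul_pow]; norm_num
      _ ≤ _ := by linarith

include hpos hanti in
/-- **The limsup set has full measure on the good event.** -/
theorem full (hn : 1 ≤ n) (hdiv : ¬ Summable (fun j => ∏ l, ψ l j)) {x : ℕ → Cube n}
    (hx : ∀ m : ℕ, ∀ᶠ k in atTop, x ∉ E (1 / ((m : ℝ) + 1)) k) : volume (W x ψ) = 1 := by
  have key : ∀ ε : ℝ, 0 < ε → volume (W x ψ)ᶜ ≤ ENNReal.ofReal ε := by
    intro ε hε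
    obtain ⟨m, hm⟩ := exists_nat_one_div_lt hε
    obtain ⟨k₀, hk₀⟩ := eventually_atTop.1 (hx m)
    have hcompl : (W x ψ)ᶜ = ⋃ K : ℕ, {z | ∀ j ≥ K, z ∉ Box (x j) (fun l => ψ l j)} := by
      ext z
      simp only [mem_compl_iff, mem_iUnion]
      change ¬ (∃ᶠ j in atTop, _) ↔ ∃ K, ∀ j ≥ K, _
      rw [not_frequently, eventually_atTop]
      rfl
    have hmono : Monotone (fun K : ℕ => {z | ∀ j ≥ K, z ∉ Box (x j) (fun l => ψ l j)}) := by
      intro K K' hKK z hz j hj
      exact hz j (le_trans hKK hj)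
    rw [hcompl, hmono.measure_iUnion]
    apply iSup_le
    intro K
    set K' := max K k₀ with hK'
    obtain ⟨N, hN⟩ := small_of_good (ε := 1 / ((m : ℝ) + 1)) (by positivity) hk₀ (hist hpos K')
      (hist_le hpos K') (mass_div hpos hanti hdiv K')
    have hsub : {z | ∀ j ≥ K, z ∉ Box (x j) (fun l => ψ l j)} ⊆ V (rad (hist hpos K')) x N := by
      intro z hz j hj hmem
      have hall : ∀ l, hist hpos K' (Nat.log 2 j) l ≠ 0 := by
        intro l h0
        have h1 := hmem l
        unfold rad at h1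
        rw [h0, rd_zero] at h1
        exact absurd h1 (not_lt.2 (abs_nonneg _))
      have hK'j : K' ≤ Nat.log 2 j := by
        by_contra hlt
        apply hall ⟨0, by omega⟩
        unfold hist
        rw [if_neg (fun h => hlt h.1)]
      have hj2 : K ≤ j := by
        have h1 : Nat.log 2 j ≤ j := Nat.log_le_self 2 j
        have h2 : K ≤ K' := le_max_left _ _
        omega
      apply hz j hj2
      intro l
      exact lt_of_lt_of_le (hmem l) (rad_le hpos hanti K' j l (hall l))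
    refine (measure_mono hsub).trans ?_
    have h1 : volume (V (rad (hist hpos K')) x N) = ENNReal.ofReal (v (rad (hist hpos K')) x N) := by
      unfold v
      rw [ENNReal.ofReal_toReal (measure_ne_top _ _)]
    rw [h1]
    apply ENNReal.ofReal_le_ofReal
    linarith
  have hzero : volume (W x ψ)ᶜ = 0 := by
    apply le_antisymm _ zero_le
    apply ENNReal.le_of_forall_pos_le_add
    intro ε hε _
    rw [zero_add]
    have := key ε (by exact_mod_cast hε)
    rwa [ENNReal.ofReal_coe_nnreal] at this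
  apply le_antisymm prob_le_one
  calc (1 : ℝ≥0∞) = volume (univ : Set (Cube n)) := measure_univ.symm
    _ = volume (W x ψ ∪ (W x ψ)ᶜ) := by rw [union_compl_self]
    _ ≤ volume (W x ψ) + volume (W x ψ)ᶜ := measure_union_le _ _
    _ = volume (W x ψ) := by rw [hzero, add_zero]

end Det

end Pool.Agent.X124.BoxMain
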